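import Mathlib

/-!
# Lists whose prefix products represent the left cosets of a subgroup

Tools for Hamiltonian paths in Cayley graphs.
-/

namespace Pool.Agent.H761J.Ham

variable {G : Type*} [Group G]

/-- the prefix products `1, a₁, a₁ a₂, …` of a list -/
def pre : List G → List G
  | [] => [1]
  | a :: l => 1 :: (pre l).map (fun x => a * x)

theorem pre_append (l1 : List G) (s : G) (l2 : List G) :
    pre (l1 ++ s :: l2) = pre l1 ++ (pre l2).map (fun x => l1.prod * s * x) := by
  induction l1 with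
  | nil => simp [pre]
  | cons a l ih =>
    simp only [List.cons_append, pre, ih, List.map_append, List.map_map, List.prod_cons]
    congr 2
    apply List.map_congr_left
    intro x _
    simp [mul_assoc]

theorem one_mem_pre (l : List G) : (1 : G) ∈ pre l := by
  cases l <;> simp [pre]

theorem prod_mem_pre (l : List G) : l.prod ∈ pre l := by
  induction l with
  | nil => simp [pre]
  | cons a l ih =>
    simp only [pre, List.prod_cons, List.mem_cons, List.mem_map]
    exact Or.inr ⟨_, ih, rfl⟩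

theorem pre_length (l : List G) : (pre l).length = l.length + 1 := by
  induction l with
  | nil => simp [pre]
  | cons a l ih => simp [pre, ih]

theorem pre_getElem (l : List G) (k : ℕ) (hk : k < (pre l).length) :
    (pre l)[k] = (l.take k).prod := by
  induction l generalizing k with
  | nil =>
    simp only [pre, List.length_singleton, Nat.lt_one_iff] at hk
    subst hk
    simp [pre]
  | cons a l ih =>
    cases k with
    | zero => simp [pre]
    | succ k =>
      simp only [pre, List.getElem_cons_succ, List.getElem_map, List.take_succ_cons,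
        List.prod_cons]
      rw [ih]

/-- `Cov U l S`: the prefix products of `l` represent exactly the left cosets of `U` in `S`, each
of them once, and `S` is a union of left cosets of `U`. -/
structure Cov (U : Subgroup G) (l : List G) (S : Set G) : Prop where
  dis : (pre l).Pairwise (fun p q => p⁻¹ * q ∉ U)
  cov : ∀ g, g ∈ S ↔ ∃ p ∈ pre l, p⁻¹ * g ∈ U

theorem Cov.one_mem {U : Subgroup G} {l : List G} {S : Set G} (h : Cov U l S) : (1 : G) ∈ S := by
  rw [h.cov]
  exact ⟨1, one_mem_pre l, by simp [U.one_mem]⟩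

theorem Cov.prod_mem {U : Subgroup G} {l : List G} {S : Set G} (h : Cov U l S) : l.prod ∈ S := by
  rw [h.cov]
  exact ⟨l.prod, prod_mem_pre l, by simp [U.one_mem]⟩

theorem Cov.pre_mem {U : Subgroup G} {l : List G} {S : Set G} (h : Cov U l S) {p : G}
    (hp : p ∈ pre l) : p ∈ S := by
  rw [h.cov]
  exact ⟨p, hp, by simp [U.one_mem]⟩

theorem Cov.mul_mem {U : Subgroup G} {l : List G} {S : Set G} (h : Cov U l S) {g u : G}
    (hg : g ∈ S) (hu : u ∈ U) : g * u ∈ S := by
  rw [h.cov] at hg ⊢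
  obtain ⟨p, hp, hpg⟩ := hg
  refine ⟨p, hp, ?_⟩
  rw [← mul_assoc]
  exact U.mul_mem hpg hu

theorem Cov.congr {U : Subgroup G} {l : List G} {S S' : Set G} (h : Cov U l S)
    (hS : ∀ g, g ∈ S' ↔ g ∈ S) : Cov U l S' :=
  ⟨h.dis, fun g => (hS g).trans (h.cov g)⟩

theorem cov_nil (U : Subgroup G) : Cov U [] (U : Set G) := by
  refine ⟨by simp [pre], fun g => ?_⟩
  simp [pre]

theorem cov_concat {U : Subgroup G} {l1 l2 : List G} {s : G} {S1 S2 : Set G}
    (h1 : Cov U l1 S1) (h2 : Cov U l2 S2)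
    (hd : ∀ g ∈ S1, (l1.prod * s)⁻¹ * g ∉ S2) :
    Cov U (l1 ++ s :: l2) {g | g ∈ S1 ∨ (l1.prod * s)⁻¹ * g ∈ S2} := by
  constructor
  · rw [pre_append, List.pairwise_append]
    refine ⟨h1.dis, ?_, ?_⟩
    · rw [List.pairwise_map]
      refine h2.dis.imp ?_
      intro p q hpq
      have e : (l1.prod * s * p)⁻¹ * (l1.prod * s * q) = p⁻¹ * q := by group
      rw [e]; exact hpq
    · intro p hp q hq hpq
      rw [List.mem_map] at hq
      obtain ⟨q, hq, rfl⟩ := hq
      apply hd (p * (p⁻¹ * (l1.prod * s * q))) (h1.mul_mem (h1.pre_mem hp) hpq)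
      have e : (l1.prod * s)⁻¹ * (p * (p⁻¹ * (l1.prod * s * q))) = q := by group
      rw [e]
      exact h2.pre_mem hq
  · intro g
    rw [pre_append]
    simp only [Set.mem_ofPred_eq, List.mem_append, List.mem_map]
    rw [h1.cov, h2.cov]
    constructor
    · rintro (⟨p, hp, h⟩ | ⟨p, hp, h⟩)
      · exact ⟨p, Or.inl hp, h⟩
      · refine ⟨l1.prod * s * p, Or.inr ⟨p, hp, rfl⟩, ?_⟩
        have e : (l1.prod * s * p)⁻¹ * g = p⁻¹ * ((l1.prod * s)⁻¹ * g) := by group
        rw [e]; exact h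
    · rintro ⟨p, hp | ⟨q, hq, rfl⟩, h⟩
      · exact Or.inl ⟨p, hp, h⟩
      · refine Or.inr ⟨q, hq, ?_⟩
        have e : (l1.prod * s * q)⁻¹ * g = q⁻¹ * ((l1.prod * s)⁻¹ * g) := by group
        rw [← e]; exact h

/-- **Tower lemma.** Blocks which all cover `Z` are concatenated along the list `L`. -/
theorem tower {U : Subgroup G} {Z : Set G} {T : Set G} (L : List G)
    (hL : ∀ t ∈ L, ∃ l s, Cov U l Z ∧ (∀ x ∈ l, x ∈ T) ∧ s ∈ T ∧ t = l.prod * s)
    {τ : List G} (hτ : Cov U τ Z) (hτT : ∀ x ∈ τ, x ∈ T)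
    (hd : (pre L).Pairwise (fun p q => ∀ g ∈ Z, ∀ g' ∈ Z, p * g ≠ q * g')) :
    ∃ l', (∀ x ∈ l', x ∈ T) ∧ Cov U l' {g | ∃ p ∈ pre L, p⁻¹ * g ∈ Z} ∧
      l'.prod = L.prod * τ.prod := by
  induction L with
  | nil =>
    refine ⟨τ, hτT, hτ.congr ?_, by simp⟩
    intro g
    simp [pre]
  | cons t L ih =>
    have hd' := hd
    simp only [pre, List.pairwise_cons, List.pairwise_map, List.mem_map] at hd'
    obtain ⟨hd1, hd2⟩ := hd'
    obtain ⟨l2, h2T, h2, h2p⟩ := ih (fun t ht => hL t (List.mem_cons_of_mem _ ht))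
      (hd2.imp (fun {p q} h g hg g' hg' e => h g hg g' hg' (by rw [mul_assoc, e, mul_assoc])))
    obtain ⟨l, s, hl, hlT, hs, rfl⟩ := hL t List.mem_cons_self
    refine ⟨l ++ s :: l2, ?_, ?_, ?_⟩
    · intro x hx
      rw [List.mem_append, List.mem_cons] at hx
      rcases hx with hx | rfl | hx
      · exact hlT x hx
      · exact hs
      · exact h2T x hx
    · refine (cov_concat (s := s) hl h2 ?_).congr ?_
      · rintro g hg ⟨p, hp, hpg⟩
        apply hd1 _ ⟨p, hp, rfl⟩ g hg _ hpg
        group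
      · intro g
        simp only [pre, Set.mem_ofPred_eq, List.mem_cons, List.mem_map]
        constructor
        · rintro ⟨p, rfl | ⟨q, hq, rfl⟩, hp⟩
          · left; simpa using hp
          · right
            refine ⟨q, hq, ?_⟩
            have e : (l.prod * s * q)⁻¹ * g = q⁻¹ * ((l.prod * s)⁻¹ * g) := by group
            rw [← e]; exact hp
        · rintro (hg | ⟨q, hq, hg⟩)
          · exact ⟨1, Or.inl rfl, by simpa using hg⟩
          · refine ⟨_, Or.inr ⟨q, hq, rfl⟩, ?_⟩
            have e : (l.prod * s * q)⁻¹ * g = q⁻¹ * ((l.prod * s)⁻¹ * g) := by group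
            rw [e]; exact hg
    · rw [List.prod_append, List.prod_cons, h2p, List.prod_cons]
      group

/-- the prefix products of a constant list -/
theorem mem_pre_replicate (y : G) (m : ℕ) (p : G) :
    p ∈ pre (List.replicate m y) ↔ ∃ i ≤ m, p = y ^ i := by
  induction m generalizing p with
  | zero => simp [pre]
  | succ m ih =>
    simp only [List.replicate_succ, pre, List.mem_cons, List.mem_map]
    constructor
    · rintro (rfl | ⟨q, hq, rfl⟩)
      · exact ⟨0, Nat.zero_le _, by simp⟩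
      · obtain ⟨i, hi, rfl⟩ := (ih q).1 hq
        exact ⟨i + 1, by omega, by rw [pow_succ']⟩
    · rintro ⟨i, hi, rfl⟩
      cases i with
      | zero => left; simp
      | succ i =>
        right
        exact ⟨y ^ i, (ih _).2 ⟨i, by omega, rfl⟩, by rw [pow_succ']⟩

theorem pre_replicate_pairwise (K : Subgroup G) (y : G) (m : ℕ)
    (h : ∀ i, 0 < i → i ≤ m → y ^ i ∉ K) :
    (pre (List.replicate m y)).Pairwise (fun p q => p⁻¹ * q ∉ K) := by
  induction m with
  | zero => simp [pre]
  | succ m ih =>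
    simp only [List.replicate_succ, pre, List.pairwise_cons, List.mem_map, List.pairwise_map]
    constructor
    · rintro q ⟨r, hr, rfl⟩
      obtain ⟨i, hi, rfl⟩ := (mem_pre_replicate y m r).1 hr
      rw [inv_one, one_mul, ← pow_succ']
      exact h _ (by omega) (by omega)
    · refine (ih (fun i h0 hi => h i h0 (by omega))).imp ?_
      intro p q hpq
      have e : (y * p)⁻¹ * (y * q) = p⁻¹ * q := by group
      rw [e]; exact hpq

/-- `y` normalises `K` (for finite groups this one sided condition is enough) -/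
theorem closure_insert_cover [Finite G] (K : Subgroup G) (y : G)
    (hy : ∀ k ∈ K, y * k * y⁻¹ ∈ K) :
    ∀ g ∈ Subgroup.closure ((K : Set G) ∪ {y}), ∃ n : ℕ, (y ^ n)⁻¹ * g ∈ K := by
  have hyn : ∀ n : ℕ, ∀ k ∈ K, y ^ n * k * (y ^ n)⁻¹ ∈ K := by
    intro n
    induction n with
    | zero => intro k hk; simpa using hk
    | succ n ih =>
      intro k hk
      have := hy _ (ih k hk)
      have e : y ^ (n + 1) * k * (y ^ (n + 1))⁻¹ = y * (y ^ n * k * (y ^ n)⁻¹) * y⁻¹ := by
        rw [pow_succ']; group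
      rw [e]; exact this
  have hyn' : ∀ n : ℕ, ∀ k ∈ K, (y ^ n)⁻¹ * k * y ^ n ∈ K := by
    intro n k hk
    have hfin : IsOfFinOrder y := isOfFinOrder_of_finite y
    obtain ⟨m, hm⟩ : ∃ m : ℕ, (y ^ n)⁻¹ = y ^ m := by
      have : (y ^ n)⁻¹ ∈ Subgroup.zpowers y :=
        Subgroup.inv_mem _ (Subgroup.pow_mem _ (Subgroup.mem_zpowers y) n)
      rw [← hfin.mem_powers_iff_mem_zpowers] at this
      obtain ⟨m, hm⟩ := this
      exact ⟨m, hm.symm⟩
    have := hyn m k hk
    rw [← hm, inv_inv] at this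
    exact this
  intro g hg
  induction hg using Subgroup.closure_induction with
  | mem x hx =>
    rcases hx with hx | hx
    · exact ⟨0, by simpa using hx⟩
    · rw [Set.mem_singleton_iff] at hx
      subst hx
      exact ⟨1, by simp [K.one_mem]⟩
  | one => exact ⟨0, by simp [K.one_mem]⟩
  | mul x x' _ _ hx hx' =>
    obtain ⟨n, hn⟩ := hx
    obtain ⟨n', hn'⟩ := hx'
    refine ⟨n + n', ?_⟩
    have e : (y ^ (n + n'))⁻¹ * (x * x') =
        ((y ^ n')⁻¹ * ((y ^ n)⁻¹ * x) * y ^ n') * ((y ^ n')⁻¹ * x') := by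
      rw [pow_add]; group
    rw [e]
    exact K.mul_mem (hyn' n' _ hn) hn'
  | inv x _ hx =>
    obtain ⟨n, hn⟩ := hx
    have hfin : IsOfFinOrder y := isOfFinOrder_of_finite y
    obtain ⟨m, hm⟩ : ∃ m : ℕ, (y ^ n)⁻¹ = y ^ m := by
      have : (y ^ n)⁻¹ ∈ Subgroup.zpowers y :=
        Subgroup.inv_mem _ (Subgroup.pow_mem _ (Subgroup.mem_zpowers y) n)
      rw [← hfin.mem_powers_iff_mem_zpowers] at this
      obtain ⟨m, hm⟩ := this
      exact ⟨m, hm.symm⟩
    refine ⟨m, ?_⟩
    rw [← hm, inv_inv]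
    have e : y ^ n * x⁻¹ = y ^ n * ((y ^ n)⁻¹ * x)⁻¹ * (y ^ n)⁻¹ := by group
    rw [e]
    exact hyn n _ (K.inv_mem hn)

/-- **Cyclic step**: adding one element which normalises the subgroup `K`. The last block can be
any list `τ'`. -/
theorem cyc_step [Finite G] {U K : Subgroup G} {T : Set G} {τ : List G} {s : G}
    (hτ : Cov U τ K) (hτT : ∀ x ∈ τ, x ∈ T)
    (hs : s ∈ T) (hn : ∀ k ∈ K, s * k * s⁻¹ ∈ K) :
    ∃ m : ℕ, 0 < m ∧ (τ.prod * s) ^ m ∈ K ∧
      ∀ τ' : List G, Cov U τ' K → (∀ x ∈ τ', x ∈ T) →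
        ∃ l : List G, (∀ x ∈ l, x ∈ T) ∧
          Cov U l (Subgroup.closure ((K : Set G) ∪ {s}) : Subgroup G) ∧
          l.prod = (τ.prod * s) ^ (m - 1) * τ'.prod := by
  classical
  set y := τ.prod * s with hy
  have hτK : τ.prod ∈ K := hτ.prod_mem
  have hyK : ∀ k ∈ K, y * k * y⁻¹ ∈ K := by
    intro k hk
    have e : y * k * y⁻¹ = τ.prod * (s * k * s⁻¹) * τ.prod⁻¹ := by rw [hy]; group
    rw [e]
    exact K.mul_mem (K.mul_mem hτK (hn k hk)) (K.inv_mem hτK)
  have hcl : Subgroup.closure ((K : Set G) ∪ {s}) = Subgroup.closure ((K : Set G) ∪ {y}) := by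
    apply le_antisymm
    · rw [Subgroup.closure_le]
      rintro x (hx | hx)
      · exact Subgroup.subset_closure (Or.inl hx)
      · rw [Set.mem_singleton_iff] at hx
        subst hx
        have : x = τ.prod⁻¹ * y := by rw [hy]; group
        rw [this]
        exact Subgroup.mul_mem _ (Subgroup.subset_closure (Or.inl (K.inv_mem hτK)))
          (Subgroup.subset_closure (Or.inr rfl))
    · rw [Subgroup.closure_le]
      rintro x (hx | hx)
      · exact Subgroup.subset_closure (Or.inl hx)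
      · rw [Set.mem_singleton_iff] at hx
        subst hx
        exact Subgroup.mul_mem _ (Subgroup.subset_closure (Or.inl hτK))
          (Subgroup.subset_closure (Or.inr rfl))
  have hex : ∃ m : ℕ, 0 < m ∧ y ^ m ∈ K :=
    ⟨orderOf y, orderOf_pos y, by rw [pow_orderOf_eq_one]; exact K.one_mem⟩
  let m := Nat.find hex
  have hm0 : 0 < m := (Nat.find_spec hex).1
  have hm1 : y ^ m ∈ K := (Nat.find_spec hex).2
  have hmin : ∀ i, 0 < i → i < m → y ^ i ∉ K := by
    intro i h0 hi hK
    exact Nat.find_min hex hi ⟨h0, hK⟩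
  have hpair := pre_replicate_pairwise K y (m - 1) (fun i h0 hi => hmin i h0 (by omega))
  refine ⟨m, hm0, hm1, fun τ' hτ' hτT' => ?_⟩
  obtain ⟨l, hlT, hl, hlp⟩ := tower (U := U) (Z := (K : Set G)) (T := T)
    (List.replicate (m - 1) y)
    (by
      intro t ht
      rw [List.eq_of_mem_replicate ht]
      exact ⟨τ, s, hτ, hτT, hs, rfl⟩)
    hτ' hτT'
    (hpair.imp (by
      intro p q hpq g hg g' hg' e
      apply hpq
      have : p⁻¹ * q = g * g'⁻¹ := by
        have : q = p * g * g'⁻¹ := by rw [e]; group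
        rw [this]; group
      rw [this]
      exact K.mul_mem hg (K.inv_mem hg')))
  refine ⟨l, hlT, hl.congr ?_, by rw [hlp, List.prod_replicate]⟩
  intro g
  rw [hcl]
  simp only [Set.mem_ofPred_eq, SetLike.mem_coe]
  constructor
  · intro hg
    obtain ⟨n, hn'⟩ := closure_insert_cover K y hyK g hg
    refine ⟨y ^ (n % m), (mem_pre_replicate y _ _).2 ⟨n % m, ?_, rfl⟩, ?_⟩
    · have := Nat.mod_lt n hm0
      omega
    · have e : y ^ n = y ^ (n % m) * (y ^ m) ^ (n / m) := by
        rw [← pow_mul, ← pow_add, Nat.mod_add_div]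
      have e2 : (y ^ (n % m))⁻¹ * g = (y ^ m) ^ (n / m) * ((y ^ n)⁻¹ * g) := by
        rw [e]; group
      rw [e2]
      exact K.mul_mem (K.pow_mem hm1 _) hn'
  · rintro ⟨p, hp, hpg⟩
    obtain ⟨i, _, rfl⟩ := (mem_pre_replicate y _ _).1 hp
    have e : g = y ^ i * ((y ^ i)⁻¹ * g) := by group
    have hyc : y ∈ Subgroup.closure ((K : Set G) ∪ {y}) :=
      Subgroup.subset_closure (Or.inr rfl)
    have hgc : (y ^ i)⁻¹ * g ∈ Subgroup.closure ((K : Set G) ∪ {y}) :=
      Subgroup.subset_closure (Or.inl hpg)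
    rw [e]
    exact Subgroup.mul_mem _ (Subgroup.pow_mem _ hyc _) hgc

end Pool.Agent.H761J.Ham
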