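import Pool.Agent.H761J.Ham1

/-!
# Transversals generated by steps from a set, and the ends of Hamiltonian paths
-/

namespace Pool.Agent.H761J.Ham

variable {G : Type*} [Group G]

/-- `T`-steps generate a transversal of `U` in the subgroup generated by `U` and a list of elements
of `T`, if all intermediate subgroups are normalised. -/
theorem transv_list [Finite G] {U N : Subgroup G} {T : Set G}
    (hD : ∀ K : Subgroup G, U ≤ K → K ≤ N → ∀ n ∈ N, ∀ k ∈ K, n * k * n⁻¹ ∈ K) (hUN : U ≤ N)
    (S : List G) (hS : ∀ x ∈ S, x ∈ T ∧ x ∈ N) :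
    ∃ l, (∀ x ∈ l, x ∈ T) ∧
      Cov U l (Subgroup.closure ((U : Set G) ∪ {x | x ∈ S}) : Subgroup G) := by
  induction S with
  | nil =>
    refine ⟨[], by simp, (cov_nil U).congr ?_⟩
    intro g
    simp
  | cons s S ih =>
    obtain ⟨l, hlT, hl⟩ := ih (fun x hx => hS x (List.mem_cons_of_mem _ hx))
    have hK : Subgroup.closure ((U : Set G) ∪ {x | x ∈ S}) ≤ N := by
      rw [Subgroup.closure_le]
      rintro x (hx | hx)
      · exact hUN hx
      · exact (hS x (List.mem_cons_of_mem _ hx)).2
    have hUK : U ≤ Subgroup.closure ((U : Set G) ∪ {x | x ∈ S}) := by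
      intro x hx
      exact Subgroup.subset_closure (Or.inl hx)
    obtain ⟨m, _, _, hstep⟩ := cyc_step hl hlT (hS s List.mem_cons_self).1
      (fun k hk => hD _ hUK hK s (hS s List.mem_cons_self).2 k hk)
    obtain ⟨l', hl'T, hl', _⟩ := hstep l hl hlT
    refine ⟨l', hl'T, hl'.congr ?_⟩
    intro g
    rw [SetLike.mem_coe, SetLike.mem_coe]
    have : Subgroup.closure ((U : Set G) ∪ {x | x ∈ s :: S}) =
        Subgroup.closure (((Subgroup.closure ((U : Set G) ∪ {x | x ∈ S}) : Subgroup G) : Set G)
          ∪ {s}) := by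
      apply le_antisymm
      · rw [Subgroup.closure_le]
        rintro x (hx | hx)
        · exact Subgroup.subset_closure (Or.inl (Subgroup.subset_closure (Or.inl hx)))
        · rcases List.mem_cons.1 hx with rfl | hx
          · exact Subgroup.subset_closure (Or.inr rfl)
          · exact Subgroup.subset_closure (Or.inl (Subgroup.subset_closure (Or.inr hx)))
      · rw [Subgroup.closure_le]
        rintro x (hx | hx)
        · have h0 : Subgroup.closure ((U : Set G) ∪ {x | x ∈ S}) ≤
              Subgroup.closure ((U : Set G) ∪ {x | x ∈ s :: S}) := by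
            apply Subgroup.closure_mono
            rintro x (hx | hx)
            · exact Or.inl hx
            · exact Or.inr (List.mem_cons_of_mem _ hx)
          exact h0 hx
        · rw [Set.mem_singleton_iff] at hx
          subst hx
          exact Subgroup.subset_closure (Or.inr List.mem_cons_self)
    rw [this]

theorem transv [Finite G] {U N : Subgroup G} {T : Set G}
    (hD : ∀ K : Subgroup G, U ≤ K → K ≤ N → ∀ n ∈ N, ∀ k ∈ K, n * k * n⁻¹ ∈ K)
    (hUN : U ≤ N) (hTN : ∀ x ∈ T, x ∈ N) :
    ∃ l, (∀ x ∈ l, x ∈ T) ∧ Cov U l (Subgroup.closure ((U : Set G) ∪ T) : Subgroup G) := by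
  classical
  have hfin : T.Finite := Set.toFinite T
  obtain ⟨l, hlT, hl⟩ := transv_list (T := T) hD hUN hfin.toFinset.toList
    (by intro x hx; rw [Finset.mem_toList, Set.Finite.mem_toFinset] at hx
        exact ⟨hx, hTN x hx⟩)
  refine ⟨l, hlT, hl.congr ?_⟩
  intro g
  have : ((U : Set G) ∪ {x | x ∈ hfin.toFinset.toList}) = (U : Set G) ∪ T := by
    ext x
    simp
  rw [this]

/-- the reversed path, started at `1` -/
theorem reverse_cov {K : Subgroup G} {R : Set G} (hR : ∀ x ∈ R, x⁻¹ ∈ R) {l : List G}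
    (hl : Cov ⊥ l K) (hlR : ∀ x ∈ l, x ∈ R) :
    ∃ l', (∀ x ∈ l', x ∈ R) ∧ Cov ⊥ l' K ∧ l'.prod = l.prod⁻¹ := by
  have key : ∀ l : List G, ∀ p, p ∈ pre ((l.map (·⁻¹)).reverse) ↔ l.prod * p ∈ pre l := by
    intro l
    induction l with
    | nil => intro p; simp [pre]
    | cons a l ih =>
      intro p
      simp only [List.map_cons, List.reverse_cons]
      rw [pre_append]
      simp only [pre, List.map_cons, List.map_nil, List.mem_append, List.prod_cons,
        List.mem_cons, List.mem_map, List.not_mem_nil, or_false]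
      rw [ih]
      have hp : ((l.map (·⁻¹)).reverse).prod = l.prod⁻¹ := by
        rw [List.prod_inv_reverse]
      rw [hp]
      constructor
      · rintro (h | rfl)
        · right
          exact ⟨_, h, by group⟩
        · left
          group
      · rintro (h | ⟨q, hq, h⟩)
        · right
          have : p = (a * l.prod)⁻¹ * (a * l.prod * p) := by group
          rw [this, h]
          group
        · left
          have : l.prod * p = q := by
            have h1 : a⁻¹ * (a * q) = a⁻¹ * (a * l.prod * p) := by rw [h]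
            have h2 : q = l.prod * p := by
              calc q = a⁻¹ * (a * q) := by group
                _ = a⁻¹ * (a * l.prod * p) := h1
                _ = l.prod * p := by group
            exact h2.symm
          rw [this]; exact hq
  have hdis : ∀ l : List G, (pre l).Pairwise (fun p q => p⁻¹ * q ∉ (⊥ : Subgroup G)) →
      (pre ((l.map (·⁻¹)).reverse)).Pairwise (fun p q => p⁻¹ * q ∉ (⊥ : Subgroup G)) := by
    intro l hl
    induction l with
    | nil => simp [pre]
    | cons a l ih =>
      simp only [pre, List.pairwise_cons, List.pairwise_map, List.mem_map] at hl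
      obtain ⟨h1, h2⟩ := hl
      have ih' := ih (h2.imp (by
        intro p q h h'
        apply h
        have e : (a * p)⁻¹ * (a * q) = p⁻¹ * q := by group
        rw [e]; exact h'))
      simp only [List.map_cons, List.reverse_cons]
      rw [pre_append, List.pairwise_append]
      refine ⟨ih', by simp [pre], ?_⟩
      intro p hp q hq hpq
      simp only [pre, List.map_cons, List.map_nil, List.mem_singleton] at hq
      have hpr : ((l.map (·⁻¹)).reverse).prod = l.prod⁻¹ := by
        rw [List.prod_inv_reverse]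
      rw [hpr] at hq
      rw [key] at hp
      apply h1 _ ⟨_, hp, rfl⟩
      rw [Subgroup.mem_bot] at hpq ⊢
      have e : p = q := by
        have := mul_eq_one_iff_inv_eq.1 hpq
        rw [inv_inv] at this
        exact this
      rw [e, hq]
      group
  refine ⟨(l.map (·⁻¹)).reverse, ?_, ⟨hdis l hl.dis, ?_⟩, List.prod_inv_reverse l |>.symm⟩
  · intro x hx
    rw [List.mem_reverse, List.mem_map] at hx
    obtain ⟨y, hy, rfl⟩ := hx
    exact hR y (hlR y hy)
  · intro g
    have hlK : l.prod ∈ K := hl.prod_mem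
    constructor
    · intro hg
      have : l.prod * g ∈ (K : Set G) := K.mul_mem hlK hg
      rw [hl.cov] at this
      obtain ⟨p, hp, hpg⟩ := this
      rw [Subgroup.mem_bot] at hpg
      have e : p = l.prod * g := by
        have := mul_eq_one_iff_inv_eq.1 hpg
        rw [inv_inv] at this
        exact this
      refine ⟨g, (key l g).2 (by rw [← e]; exact hp), by simp⟩
    · rintro ⟨p, hp, hpg⟩
      rw [key] at hp
      rw [Subgroup.mem_bot] at hpg
      have e : p = g := by
        have := mul_eq_one_iff_inv_eq.1 hpg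
        rw [inv_inv] at this
        exact this
      subst e
      have h1 : l.prod * p ∈ K := hl.pre_mem hp
      have h2 : p = l.prod⁻¹ * (l.prod * p) := by group
      rw [SetLike.mem_coe, h2]
      exact K.mul_mem (K.inv_mem hlK) h1

/-- one more element outside of `E`: the end of the path can be kept outside of `E` -/
theorem grow [Finite G] {U E K : Subgroup G} {R : Set G} (hR : ∀ x ∈ R, x⁻¹ ∈ R)
    (hD : ∀ K : Subgroup G, K ≤ U → ∀ n ∈ U, ∀ k ∈ K, n * k * n⁻¹ ∈ K)
    (hEU : E ≤ U) (hE : ∀ E' : Subgroup G, E ≤ E' → E' ≤ U → E' = E ∨ E' = U)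
    (hKU : K ≤ U) {l : List G} (hlR : ∀ x ∈ l, x ∈ R) (hl : Cov ⊥ l K)
    (h : K ≤ E ∨ l.prod ∉ E) {s : G} (hs : s ∈ R) (hsU : s ∈ U) (hsE : s ∉ E) :
    ∃ l', (∀ x ∈ l', x ∈ R) ∧ Cov ⊥ l' (Subgroup.closure ((K : Set G) ∪ {s}) : Subgroup G) ∧
      l'.prod ∉ E := by
  obtain ⟨m, hm0, hm1, hstep⟩ := cyc_step hl hlR hs (fun k hk => hD K hKU s hsU k hk)
  have hlK : l.prod ∈ K := hl.prod_mem
  have hlU : l.prod ∈ U := hKU hlK
  by_cases hlE : l.prod ∈ E
  · have hKE : K ≤ E := by
      rcases h with h | h
      · exact h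
      · exact absurd hlE h
    obtain ⟨l', hl'R, hl', hp⟩ := hstep l hl hlR
    refine ⟨l', hl'R, hl', ?_⟩
    intro hpE
    rw [hp] at hpE
    set y := l.prod * s with hy
    have h1 : y ^ (m - 1) ∈ E := by
      have e : y ^ (m - 1) = y ^ (m - 1) * l.prod * l.prod⁻¹ := by group
      rw [e]
      exact E.mul_mem hpE (E.inv_mem hlE)
    have h2 : y ∈ E := by
      have e : y = y ^ m * (y ^ (m - 1))⁻¹ := by
        obtain ⟨m', rfl⟩ : ∃ m', m = m' + 1 := ⟨m - 1, by omega⟩
        rw [Nat.add_sub_cancel, pow_succ']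
        group
      rw [e]
      exact E.mul_mem (hKE hm1) (E.inv_mem h1)
    apply hsE
    have e : s = l.prod⁻¹ * y := by rw [hy]; group
    rw [e]
    exact E.mul_mem (E.inv_mem hlE) h2
  · obtain ⟨l1, hl1R, hl1, hp1⟩ := hstep l hl hlR
    by_cases hww : l.prod * l.prod ∈ E
    · refine ⟨l1, hl1R, hl1, ?_⟩
      intro hpE
      rw [hp1] at hpE
      have hcov : Subgroup.closure ((E : Set G) ∪ {l.prod}) = U := by
        rcases hE (Subgroup.closure ((E : Set G) ∪ {l.prod}))
          (fun x hx => Subgroup.subset_closure (Or.inl hx))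
          (by
            rw [Subgroup.closure_le]
            rintro x (hx | hx)
            · exact hEU hx
            · rw [Set.mem_singleton_iff] at hx
              subst hx
              exact hlU) with h | h
        · exfalso
          apply hlE
          rw [← h]
          exact Subgroup.subset_closure (Or.inr rfl)
        · exact h
      obtain ⟨n, hn⟩ := closure_insert_cover E l.prod (fun k hk => hD E hEU _ hlU k hk) s
        (by rw [hcov]; exact hsU)
      have hpow : ∀ j : ℕ, l.prod ^ (2 * j) ∈ E := by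
        intro j
        rw [pow_mul, pow_two]
        exact E.pow_mem hww j
      have hws : l.prod * s ∈ E := by
        rcases Nat.even_or_odd' n with ⟨j, hj | hj⟩
        · exfalso
          apply hsE
          have e : s = l.prod ^ n * ((l.prod ^ n)⁻¹ * s) := by group
          rw [e]
          refine E.mul_mem ?_ hn
          rw [hj]
          exact hpow j
        · have e : l.prod * s = l.prod ^ (2 * (j + 1)) * ((l.prod ^ n)⁻¹ * s) := by
            rw [hj]
            have : l.prod ^ (2 * (j + 1)) = l.prod * l.prod ^ (2 * j + 1) := by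
              rw [← pow_succ']
              congr 1
            rw [this]
            group
          rw [e]
          exact E.mul_mem (hpow _) hn
      apply hlE
      have e : l.prod = ((l.prod * s) ^ (m - 1))⁻¹ * ((l.prod * s) ^ (m - 1) * l.prod) := by
        group
      rw [e]
      exact E.mul_mem (E.inv_mem (E.pow_mem hws _)) hpE
    · obtain ⟨lr, hlrR, hlr, hlrp⟩ := reverse_cov hR hl hlR
      obtain ⟨l2, hl2R, hl2, hp2⟩ := hstep lr hlr hlrR
      by_cases h1 : l1.prod ∈ E
      · refine ⟨l2, hl2R, hl2, ?_⟩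
        intro h2
        apply hww
        rw [hp1] at h1
        rw [hp2, hlrp] at h2
        have e : l.prod * l.prod = ((l.prod * s) ^ (m - 1) * l.prod⁻¹)⁻¹ *
            ((l.prod * s) ^ (m - 1) * l.prod) := by group
        rw [e]
        exact E.mul_mem (E.inv_mem h2) h1
      · exact ⟨l1, hl1R, hl1, h1⟩

/-- **The ends of the Hamiltonian paths generate.** -/
theorem ends_generate [Finite G] {U : Subgroup G} {R : Set G} (hR : ∀ x ∈ R, x⁻¹ ∈ R)
    (hRU : Subgroup.closure R = U)
    (hD : ∀ K : Subgroup G, K ≤ U → ∀ n ∈ U, ∀ k ∈ K, n * k * n⁻¹ ∈ K) :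
    Subgroup.closure {w | ∃ l, (∀ x ∈ l, x ∈ R) ∧ Cov ⊥ l (U : Set G) ∧ w = l.prod} = U := by
  classical
  set W := Subgroup.closure {w | ∃ l, (∀ x ∈ l, x ∈ R) ∧ Cov ⊥ l (U : Set G) ∧ w = l.prod}
    with hW
  have hRmem : ∀ x ∈ R, x ∈ U := fun x hx => hRU ▸ Subgroup.subset_closure hx
  have hWU : W ≤ U := by
    rw [hW, Subgroup.closure_le]
    rintro w ⟨l, _, hl, rfl⟩
    exact hl.prod_mem
  by_contra hne
  obtain ⟨E, hEmax⟩ := Set.Finite.exists_maximal
    (Set.toFinite {E : Subgroup G | W ≤ E ∧ E < U}) ⟨W, le_refl _, lt_of_le_of_ne hWU hne⟩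
  obtain ⟨hWE, hEU⟩ := hEmax.prop
  have hE : ∀ E' : Subgroup G, E ≤ E' → E' ≤ U → E' = E ∨ E' = U := by
    intro E' h1 h2
    by_cases h : E' = U
    · exact Or.inr h
    · left
      exact le_antisymm (hEmax.le_of_ge ⟨hWE.trans h1, lt_of_le_of_ne h2 h⟩ h1) h1
  -- the part of `R` in `E`
  obtain ⟨l0, hl0T, hl0⟩ := transv (U := (⊥ : Subgroup G)) (N := U) (T := R ∩ E)
    (fun K _ hK => hD K hK) bot_le (fun x hx => hRmem x hx.1)
  have hE0 : Subgroup.closure (((⊥ : Subgroup G) : Set G) ∪ (R ∩ E)) ≤ E := by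
    rw [Subgroup.closure_le]
    rintro x (hx | hx)
    · rw [SetLike.mem_coe, Subgroup.mem_bot] at hx
      subst hx
      exact E.one_mem
    · exact hx.2
  obtain ⟨s1, hs1R, hs1E⟩ : ∃ s ∈ R, s ∉ E := by
    by_contra hcon
    push Not at hcon
    have : U ≤ E := by
      rw [← hRU, Subgroup.closure_le]
      exact hcon
    exact absurd this (not_le_of_gt hEU)
  obtain ⟨l1, hl1R, hl1, hl1E⟩ := grow hR hD hEU.le hE (hE0.trans hEU.le)
    (fun x hx => (hl0T x hx).1) hl0 (Or.inl hE0) hs1R (hRmem s1 hs1R) hs1E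
  let P : Set (Subgroup G) := {K | (∀ x ∈ R, x ∈ E → x ∈ K) ∧ K ≤ U ∧
    ∃ l, (∀ x ∈ l, x ∈ R) ∧ Cov ⊥ l (K : Set G) ∧ l.prod ∉ E}
  obtain ⟨K, hKmax⟩ := Set.Finite.exists_maximal (Set.toFinite P) ⟨_, ⟨by
      intro x hx hxE
      exact Subgroup.subset_closure (Or.inl (Subgroup.subset_closure (Or.inr ⟨hx, hxE⟩))), by
      rw [Subgroup.closure_le]
      rintro x (hx | hx)
      · exact hEU.le (hE0 hx)
      · rw [Set.mem_singleton_iff] at hx
        subst hx
        exact hRmem x hs1R, l1, hl1R, hl1, hl1E⟩⟩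
  obtain ⟨hK1, hKU, l, hlR, hl, hlE⟩ := hKmax.prop
  have hKU' : K = U := by
    apply le_antisymm hKU
    rw [← hRU, Subgroup.closure_le]
    intro s hs
    by_cases hsE : s ∈ E
    · exact hK1 s hs hsE
    · obtain ⟨l', hl'R, hl', hl'E⟩ := grow hR hD hEU.le hE hKU hlR hl (Or.inr hlE) hs
        (hRmem s hs) hsE
      have hle : K ≤ Subgroup.closure ((K : Set G) ∪ {s}) :=
        fun x hx => Subgroup.subset_closure (Or.inl hx)
      have := hKmax.le_of_ge (y := Subgroup.closure ((K : Set G) ∪ {s})) ⟨by
        intro x hx hxE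
        exact hle (hK1 x hx hxE), by
        rw [Subgroup.closure_le]
        rintro x (hx | hx)
        · exact hKU hx
        · rw [Set.mem_singleton_iff] at hx
          subst hx
          exact hRmem x hs, l', hl'R, hl', hl'E⟩ hle
      exact this (Subgroup.subset_closure (Or.inr rfl))
  subst hKU'
  apply hlE
  apply hWE
  exact Subgroup.subset_closure ⟨l, hlR, hl, rfl⟩

end Pool.Agent.H761J.Ham
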