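import Pool.Agent.H761J.Ham2

/-!
# Hamiltonian paths in Cayley graphs of groups with a subgroup of index two

The staircase through the cosets of `U = ⟨A ∩ N⟩` and `f U f⁻¹`, and the main theorem.
-/

namespace Pool.Agent.H761J.Ham

variable {G : Type*} [Group G]

theorem pre_mem_of {U : Subgroup G} {l : List G} (hl : ∀ x ∈ l, x ∈ U) :
    ∀ p ∈ pre l, p ∈ U := by
  induction l with
  | nil => intro p hp; simp only [pre, List.mem_singleton] at hp; subst hp; exact U.one_mem
  | cons a l ih =>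
    intro p hp
    simp only [pre, List.mem_cons, List.mem_map] at hp
    rcases hp with rfl | ⟨q, hq, rfl⟩
    · exact U.one_mem
    · exact U.mul_mem (hl a List.mem_cons_self)
        (ih (fun x hx => hl x (List.mem_cons_of_mem _ hx)) q hq)

/-- elements of `P ⊔ Q` if `Q` normalises `P` -/
theorem mem_sup_of_norm {P Q : Subgroup G} (h : ∀ q ∈ Q, ∀ p ∈ P, q * p * q⁻¹ ∈ P) (g : G) :
    g ∈ P ⊔ Q ↔ ∃ q ∈ Q, q⁻¹ * g ∈ P := by
  constructor
  · intro hg
    let S : Subgroup G :=
      { carrier := {g | ∃ q ∈ Q, q⁻¹ * g ∈ P}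
        one_mem' := ⟨1, Q.one_mem, by simp [P.one_mem]⟩
        mul_mem' := by
          rintro x y ⟨q, hq, hx⟩ ⟨r, hr, hy⟩
          refine ⟨q * r, Q.mul_mem hq hr, ?_⟩
          have e : (q * r)⁻¹ * (x * y) = (r⁻¹ * (q⁻¹ * x) * r⁻¹⁻¹) * (r⁻¹ * y) := by group
          rw [e]
          exact P.mul_mem (h _ (Q.inv_mem hr) _ hx) hy
        inv_mem' := by
          rintro x ⟨q, hq, hx⟩
          refine ⟨q⁻¹, Q.inv_mem hq, ?_⟩
          have e : q⁻¹⁻¹ * x⁻¹ = q * (q⁻¹ * x)⁻¹ * q⁻¹ := by group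
          rw [e]
          exact h q hq _ (P.inv_mem hx) }
    have hle : P ⊔ Q ≤ S := by
      rw [sup_le_iff]
      refine ⟨fun x hx => ⟨1, Q.one_mem, by simpa using hx⟩, fun x hx => ⟨x, hx, ?_⟩⟩
      simp [P.one_mem]
    exact hle hg
  · rintro ⟨q, hq, hg⟩
    have e : g = q * (q⁻¹ * g) := by group
    rw [e]
    exact Subgroup.mul_mem _ (Subgroup.mem_sup_right hq) (Subgroup.mem_sup_left hg)

/-- the staircase -/
def stair (f : G) : G → List G → List G
  | a, [] => [a * f]
  | a, b :: l => (a * f) :: (b * f⁻¹) :: stair f b l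

/-- the set covered by the staircase -/
def Zst (f : G) (U U' : Subgroup G) (a : G) (l : List G) : Set G :=
  {g | (∃ q ∈ pre l, (f * q * f⁻¹)⁻¹ * g ∈ U) ∨ (∃ q ∈ pre l, (a * q)⁻¹ * (g * f⁻¹) ∈ U')}

/-- the data of the staircase -/
structure SD (N : Subgroup G) (f : G) (U U' : Subgroup G) : Prop where
  fN : f ∉ N
  UN : U ≤ N
  UN' : U' ≤ N
  nU : ∀ n ∈ N, ∀ u ∈ U, n * u * n⁻¹ ∈ U
  nU' : ∀ n ∈ N, ∀ u ∈ U', n * u * n⁻¹ ∈ U'
  up : ∀ u ∈ U, f * u * f⁻¹ ∈ U'
  down : ∀ u ∈ U', f⁻¹ * u * f ∈ U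
  up' : ∀ u ∈ U', f * u * f⁻¹ ∈ U
  down' : ∀ u ∈ U, f⁻¹ * u * f ∈ U'

theorem stair_cov {N U U' : Subgroup G} {f : G} (D : SD N f U U') (l : List G)
    (hl : ∀ x ∈ l, x ∈ U) (hp : (pre l).Pairwise (fun p q => p⁻¹ * q ∉ U')) (a : G) (ha : a ∈ U) :
    Cov U (stair f a l) (Zst f U U' a l) := by
  have base : ∀ a ∈ U, Cov U [a * f] (Zst f U U' a []) := by
    intro a ha
    have h := cov_concat (s := a * f) (cov_nil U) (cov_nil U) (by
      intro g hg hg'
      simp only [List.prod_nil, one_mul, SetLike.mem_coe] at hg hg'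
      apply D.fN
      have h1 : a * f ∈ U := by
        have e : a * f = g * ((a * f)⁻¹ * g)⁻¹ := by group
        rw [e]
        exact U.mul_mem hg (U.inv_mem hg')
      have e : f = a⁻¹ * (a * f) := by group
      rw [e]
      exact N.mul_mem (N.inv_mem (D.UN ha)) (D.UN h1))
    refine h.congr ?_
    intro g
    simp only [Zst, pre, List.mem_singleton, exists_eq_left, List.prod_nil, one_mul,
      SetLike.mem_coe, Set.mem_ofPred_eq]
    constructor
    · rintro (h | h)
      · left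
        have e : (f * 1 * f⁻¹)⁻¹ * g = g := by group
        rwa [e] at h
      · right
        have := D.down _ h
        have e : f⁻¹ * ((a * 1)⁻¹ * (g * f⁻¹)) * f = (a * f)⁻¹ * g := by group
        rwa [e] at this
    · rintro (h | h)
      · left
        have e : (f * 1 * f⁻¹)⁻¹ * g = g := by group
        rwa [e]
      · right
        have := D.up _ h
        have e : f * ((a * f)⁻¹ * g) * f⁻¹ = (a * 1)⁻¹ * (g * f⁻¹) := by group
        rwa [e] at this
  induction l generalizing a with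
  | nil => exact base a ha
  | cons b l ih =>
    have hb : b ∈ U := hl b List.mem_cons_self
    have hlU : ∀ x ∈ l, x ∈ U := fun x hx => hl x (List.mem_cons_of_mem _ hx)
    have hpre := pre_mem_of hlU
    simp only [pre, List.pairwise_cons, List.pairwise_map, List.mem_map] at hp
    obtain ⟨hp1, hp2⟩ := hp
    have hp1' : ∀ q ∈ pre l, b * q ∉ U' := by
      intro q hq h
      apply hp1 _ ⟨q, hq, rfl⟩
      simpa using h
    have ih' := ih hlU (hp2.imp (by
      intro p q h h'
      apply h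
      have e : (b * p)⁻¹ * (b * q) = p⁻¹ * q := by group
      rw [e]; exact h')) b hb
    have E1 : ∀ q ∈ U, ∀ g, (f * q * f⁻¹)⁻¹ * (([a * f].prod * (b * f⁻¹))⁻¹ * g) ∈ U ↔
        (f * (b * q) * f⁻¹)⁻¹ * g ∈ U := by
      intro q hq g
      set z := f * (b * q) * f⁻¹ with hz
      have hzN : z ∈ N := D.UN' (D.up _ (U.mul_mem hb hq))
      have e : (f * q * f⁻¹)⁻¹ * (([a * f].prod * (b * f⁻¹))⁻¹ * g) =
          (z⁻¹ * a⁻¹ * z⁻¹⁻¹) * (z⁻¹ * g) := by
        rw [hz, List.prod_singleton]; group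
      rw [e]
      exact U.mul_mem_cancel_left (D.nU _ (N.inv_mem hzN) _ (U.inv_mem ha))
    have E2 : ∀ q ∈ U, ∀ g, (b * q)⁻¹ * ((([a * f].prod * (b * f⁻¹))⁻¹ * g) * f⁻¹) ∈ U' ↔
        (a * (b * q))⁻¹ * (g * f⁻¹) ∈ U' := by
      intro q hq g
      have hbq : (b * q)⁻¹ ∈ N := N.inv_mem (D.UN (U.mul_mem hb hq))
      have e : (b * q)⁻¹ * ((([a * f].prod * (b * f⁻¹))⁻¹ * g) * f⁻¹) =
          ((b * q)⁻¹ * (f * b⁻¹ * f⁻¹) * (b * q)⁻¹⁻¹) * ((a * (b * q))⁻¹ * (g * f⁻¹)) := by
        rw [List.prod_singleton]; group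
      rw [e]
      exact U'.mul_mem_cancel_left (D.nU' _ hbq _ (D.up _ (U.inv_mem hb)))
    have hc := cov_concat (s := b * f⁻¹) (base a ha) ih' (by
      rintro g hg (⟨q, hq, h⟩ | ⟨q, hq, h⟩)
      · rw [E1 q (hpre q hq)] at h
        simp only [Zst, pre, List.mem_singleton, exists_eq_left, Set.mem_ofPred_eq] at hg
        rcases hg with hg | hg
        · have e : (f * 1 * f⁻¹)⁻¹ * g = g := by group
          rw [e] at hg
          apply hp1' q hq
          have h1 : f * (b * q) * f⁻¹ ∈ U := by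
            have e : f * (b * q) * f⁻¹ = g * ((f * (b * q) * f⁻¹)⁻¹ * g)⁻¹ := by group
            rw [e]
            exact U.mul_mem hg (U.inv_mem h)
          have := D.down' _ h1
          have e : f⁻¹ * (f * (b * q) * f⁻¹) * f = b * q := by group
          rwa [e] at this
        · apply D.fN
          have h1 : g ∈ N := by
            have e : g = (f * (b * q) * f⁻¹) * ((f * (b * q) * f⁻¹)⁻¹ * g) := by group
            rw [e]
            exact N.mul_mem (D.UN' (D.up _ (U.mul_mem hb (hpre q hq)))) (D.UN h)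
          have h2 : a⁻¹ * (g * f⁻¹) ∈ N := by
            have := D.UN' hg
            rwa [mul_one] at this
          have e : f = (a⁻¹ * (g * f⁻¹))⁻¹ * (a⁻¹ * g) := by group
          rw [e]
          exact N.mul_mem (N.inv_mem h2) (N.mul_mem (N.inv_mem (D.UN ha)) h1)
      · rw [E2 q (hpre q hq)] at h
        simp only [Zst, pre, List.mem_singleton, exists_eq_left, Set.mem_ofPred_eq] at hg
        rcases hg with hg | hg
        · have e : (f * 1 * f⁻¹)⁻¹ * g = g := by group
          rw [e] at hg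
          apply D.fN
          have h2 := D.UN' h
          have e : f = ((a * (b * q))⁻¹ * (g * f⁻¹))⁻¹ * ((a * (b * q))⁻¹ * g) := by group
          rw [e]
          exact N.mul_mem (N.inv_mem h2) (N.mul_mem (N.inv_mem (D.UN (U.mul_mem ha
            (U.mul_mem hb (hpre q hq))))) (D.UN hg))
        · apply hp1' q hq
          rw [mul_one] at hg
          have e : b * q = (a⁻¹ * (g * f⁻¹)) * ((a * (b * q))⁻¹ * (g * f⁻¹))⁻¹ := by group
          rw [e]
          exact U'.mul_mem hg (U'.inv_mem h))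
    have e : stair f a (b :: l) = [a * f] ++ (b * f⁻¹) :: stair f b l := rfl
    rw [e]
    refine hc.congr ?_
    intro g
    simp only [Zst, pre, List.mem_cons, List.mem_map, List.not_mem_nil, or_false,
      exists_eq_left, Set.mem_ofPred_eq]
    constructor
    · rintro (⟨q, rfl | ⟨r, hr, rfl⟩, h⟩ | ⟨q, rfl | ⟨r, hr, rfl⟩, h⟩)
      · exact Or.inl (Or.inl h)
      · exact Or.inr (Or.inl ⟨r, hr, (E1 r (hpre r hr) g).2 h⟩)
      · exact Or.inl (Or.inr h)
      · exact Or.inr (Or.inr ⟨r, hr, (E2 r (hpre r hr) g).2 h⟩)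
    · rintro ((h | h) | (⟨r, hr, h⟩ | ⟨r, hr, h⟩))
      · exact Or.inl ⟨1, Or.inl rfl, h⟩
      · exact Or.inr ⟨1, Or.inl rfl, h⟩
      · exact Or.inl ⟨b * r, Or.inr ⟨r, hr, rfl⟩, (E1 r (hpre r hr) g).1 h⟩
      · exact Or.inr ⟨b * r, Or.inr ⟨r, hr, rfl⟩, (E2 r (hpre r hr) g).1 h⟩

theorem stair_mem {f : G} {l : List G} {a : G} {x : G} (hx : x ∈ stair f a l) :
    ∃ w, (w = a ∨ w ∈ l) ∧ (x = w * f ∨ x = w * f⁻¹) := by
  induction l generalizing a with
  | nil =>
    simp only [stair, List.mem_singleton] at hx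
    exact ⟨a, Or.inl rfl, Or.inl hx⟩
  | cons b l ih =>
    simp only [stair, List.mem_cons] at hx
    rcases hx with rfl | rfl | hx
    · exact ⟨a, Or.inl rfl, Or.inl rfl⟩
    · exact ⟨b, Or.inr List.mem_cons_self, Or.inr rfl⟩
    · obtain ⟨w, hw, h⟩ := ih hx
      refine ⟨w, Or.inr ?_, h⟩
      rcases hw with rfl | hw
      · exact List.mem_cons_self
      · exact List.mem_cons_of_mem _ hw

theorem stair_prod {f : G} {M : Subgroup G} (l : List G) (hl : ∀ x ∈ l, x ∈ M)
    (hf : ∀ x ∈ l, f * x * f⁻¹ ∈ M) (a : G) (ha : a ∈ M) : (stair f a l).prod * f⁻¹ ∈ M := by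
  induction l generalizing a with
  | nil => simpa [stair] using ha
  | cons b l ih =>
    have h := ih (fun x hx => hl x (List.mem_cons_of_mem _ hx))
      (fun x hx => hf x (List.mem_cons_of_mem _ hx)) b (hl b List.mem_cons_self)
    have e : (stair f a (b :: l)).prod * f⁻¹ =
        a * (f * b * f⁻¹) * ((stair f b l).prod * f⁻¹) := by
      simp only [stair, List.prod_cons]
      group
    rw [e]
    exact M.mul_mem (M.mul_mem ha (hf b List.mem_cons_self)) h

end Pool.Agent.H761J.Ham
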