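import Pool.Agent.H761J.Ham3

/-!
# Hamiltonian paths in Cayley graphs of groups with a subgroup of index two: main theorem
-/

namespace Pool.Agent.H761J.Ham

universe u

/-- `a_1, …, a_n ∈ A`, where `n = |G|`, have pairwise distinct partial products
`a_1, a_1 a_2, …, a_1 ⋯ a_n`. -/
def Listing {G : Type u} [Group G] (A : Set G) (a : Fin (Nat.card G) → G) : Prop :=
  (∀ i, a i ∈ A) ∧
  Function.Injective (fun k : Fin (Nat.card G) => ((List.ofFn a).take (k.val + 1)).prod)

theorem listing_of_cov {G : Type u} [Group G] [Finite G] {A : Set G} {l : List G}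
    (hlA : ∀ x ∈ l, x ∈ A) (hl : Cov ⊥ l (Set.univ : Set G)) {x : G} (hx : x ∈ A) :
    ∃ a, Listing A a := by
  classical
  have hnd : (pre l).Nodup := by
    refine hl.dis.imp ?_
    intro p q h e
    apply h
    rw [e, inv_mul_cancel]
    exact Subgroup.one_mem _
  have hall : ∀ g, g ∈ pre l := by
    intro g
    obtain ⟨p, hp, h⟩ := (hl.cov g).1 (Set.mem_univ g)
    rw [Subgroup.mem_bot] at h
    have e : p = g := by
      have := mul_eq_one_iff_inv_eq.1 h
      rw [inv_inv] at this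
      exact this
    rw [← e]; exact hp
  have hcard : (x :: l).length = Nat.card G := by
    have : Fintype G := Fintype.ofFinite G
    rw [Nat.card_eq_fintype_card, List.length_cons, ← pre_length l,
      ← List.toFinset_card_of_nodup hnd, ← Finset.card_univ]
    congr 1
    ext g
    simp [hall g]
  refine ⟨fun i => (x :: l)[i.val]'(by rw [hcard]; exact i.isLt), ?_, ?_⟩
  · intro i
    have h := List.getElem_mem (l := x :: l) (n := i.val) (by rw [hcard]; exact i.isLt)
    have hmemA : ∀ y ∈ x :: l, y ∈ A := by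
      intro y hy
      rcases List.mem_cons.1 hy with hy | hy
      · rw [hy]; exact hx
      · exact hlA _ hy
    exact hmemA _ h
  · have hof : List.ofFn (fun i : Fin (Nat.card G) =>
        (x :: l)[i.val]'(by rw [hcard]; exact i.isLt)) = x :: l := by
      apply List.ext_getElem
      · rw [List.length_ofFn, hcard]
      · intro n h1 h2
        rw [List.getElem_ofFn]
    rw [hof]
    intro i j hij
    simp only [List.take_succ_cons, List.prod_cons, mul_left_cancel_iff] at hij
    have hi : i.val < (pre l).length := by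
      rw [pre_length, ← List.length_cons (a := x), hcard]; exact i.isLt
    have hj : j.val < (pre l).length := by
      rw [pre_length, ← List.length_cons (a := x), hcard]; exact j.isLt
    rw [← pre_getElem l i.val hi, ← pre_getElem l j.val hj] at hij
    exact Fin.ext ((List.Nodup.getElem_inj_iff hnd).1 hij)

variable {G : Type u} [Group G]

/-- The main theorem in terms of `Cov`. -/
theorem main [Finite G] (N : Subgroup G) (hN : N.index = 2) (A : Set G)
    (hA : ∀ x ∈ A, x⁻¹ ∈ A) (hgen : Subgroup.closure A = ⊤)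
    (U : Subgroup G) (hU : U = Subgroup.closure (A ∩ N))
    (hUD : ∀ K : Subgroup G, K ≤ U → ∀ n ∈ U, ∀ k ∈ K, n * k * n⁻¹ ∈ K)
    (hUN : ∀ n ∈ N, ∀ u ∈ U, n * u * n⁻¹ ∈ U)
    (hND : ∀ K : Subgroup G, (∀ x ∈ A, x ∈ N → ∀ g : G, g * x * g⁻¹ ∈ K) → K ≤ N →
      ∀ n ∈ N, ∀ k ∈ K, n * k * n⁻¹ ∈ K) :
    (∃ l : List G, (∀ x ∈ l, x ∈ A) ∧ Cov ⊥ l (Set.univ : Set G)) ∧ A.Nonempty := by
  classical
  have hNn : N.Normal := Subgroup.normal_of_index_eq_two hN
  have hNtop : N ≠ ⊤ := by
    intro h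
    rw [h, Subgroup.index_top] at hN
    omega
  obtain ⟨f, hfA, hfN⟩ : ∃ f ∈ A, f ∉ N := by
    by_contra hcon
    push Not at hcon
    apply hNtop
    rw [eq_top_iff, ← hgen, Subgroup.closure_le]
    exact hcon
  refine ⟨?_, ⟨f, hfA⟩⟩
  have hmul : ∀ {x y : G}, x ∉ N → y ∉ N → x * y ∈ N := by
    intro x y hx hy
    rw [Subgroup.mul_mem_iff_of_index_two hN]
    exact ⟨fun h => absurd h hx, fun h => absurd h hy⟩
  have hinv : ∀ {x : G}, x ∉ N → x⁻¹ ∉ N := fun hx h => hx (N.inv_mem_iff.1 h)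
  have hUleN : U ≤ N := by
    rw [hU, Subgroup.closure_le]
    exact Set.inter_subset_right
  have hRU : ∀ x ∈ A, x ∈ N → x ∈ U := by
    intro x hx hxN
    rw [hU]
    exact Subgroup.subset_closure ⟨hx, hxN⟩
  let U' : Subgroup G := U.map (MulAut.conj f).toMonoidHom
  have hU' : ∀ x, x ∈ U' ↔ f⁻¹ * x * f ∈ U := by
    intro x
    simp only [U', Subgroup.mem_map, MulEquiv.coe_toMonoidHom, MulAut.conj_apply]
    constructor
    · rintro ⟨y, hy, rfl⟩
      have e : f⁻¹ * (f * y * f⁻¹) * f = y := by group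
      rw [e]; exact hy
    · intro h
      exact ⟨_, h, by group⟩
  have hff : f * f ∈ N := hmul hfN hfN
  have D : SD N f U U' :=
    { fN := hfN
      UN := hUleN
      UN' := by
        intro x hx
        rw [hU'] at hx
        have := hNn.conj_mem _ (hUleN hx) f
        have e : f * (f⁻¹ * x * f) * f⁻¹ = x := by group
        rwa [e] at this
      nU := hUN
      nU' := by
        intro n hn u hu
        rw [hU'] at hu ⊢
        have hn' : f⁻¹ * n * f ∈ N := by
          have := hNn.conj_mem _ hn f⁻¹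
          rwa [inv_inv] at this
        have := hUN _ hn' _ hu
        have e : f⁻¹ * (n * u * n⁻¹) * f = f⁻¹ * n * f * (f⁻¹ * u * f) * (f⁻¹ * n * f)⁻¹ := by
          group
        rw [e]; exact this
      up := by
        intro u hu
        rw [hU']
        have e : f⁻¹ * (f * u * f⁻¹) * f = u := by group
        rw [e]; exact hu
      down := by
        intro u hu
        rwa [hU'] at hu
      up' := by
        intro u hu
        rw [hU'] at hu
        have := hUN _ hff _ hu
        have e : f * u * f⁻¹ = f * f * (f⁻¹ * u * f) * (f * f)⁻¹ := by group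
        rw [e]; exact this
      down' := by
        intro u hu
        rw [hU']
        have := hUN _ (N.inv_mem hff) _ hu
        have e : f⁻¹ * (f⁻¹ * u * f) * f = (f * f)⁻¹ * u * (f * f)⁻¹⁻¹ := by
          simp only [mul_inv_rev, inv_inv, mul_assoc]
        rw [e]; exact this }
  -- the ends of the Hamiltonian paths of `U`
  set R : Set G := A ∩ N with hR
  have hRs : ∀ x ∈ R, x⁻¹ ∈ R := fun x hx => ⟨hA x hx.1, N.inv_mem hx.2⟩
  set W : Set G := {w | ∃ l, (∀ x ∈ l, x ∈ R) ∧ Cov ⊥ l (U : Set G) ∧ w = l.prod} with hW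
  have hWgen : Subgroup.closure W = U := ends_generate hRs hU.symm hUD
  have hWU : ∀ w ∈ W, w ∈ U := by
    rintro w ⟨l, _, hl, rfl⟩
    exact hl.prod_mem
  obtain ⟨w0, hw0⟩ : ∃ w, w ∈ W := by
    obtain ⟨l, hlT, hl⟩ := transv (U := (⊥ : Subgroup G)) (N := U) (T := R)
      (fun K _ hK => hUD K hK) bot_le (fun x hx => hRU x hx.1 hx.2)
    refine ⟨l.prod, l, hlT, hl.congr ?_, rfl⟩
    intro g
    have : Subgroup.closure (((⊥ : Subgroup G) : Set G) ∪ R) = U := by
      rw [hU]
      apply le_antisymm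
      · rw [Subgroup.closure_le]
        rintro x (hx | hx)
        · rw [SetLike.mem_coe, Subgroup.mem_bot] at hx
          subst hx
          exact Subgroup.one_mem _
        · exact Subgroup.subset_closure hx
      · exact Subgroup.closure_mono Set.subset_union_right
    rw [this]
  -- a transversal of `U ⊓ U'` in `U`
  obtain ⟨al, halW, hal⟩ := transv (U := U ⊓ U') (N := U) (T := W)
    (fun K _ hK => hUD K hK) inf_le_left hWU
  have hal1 : Subgroup.closure (((U ⊓ U' : Subgroup G) : Set G) ∪ W) = U := by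
    apply le_antisymm
    · rw [Subgroup.closure_le]
      rintro x (hx | hx)
      · exact hx.1
      · exact hWU x hx
    · conv_lhs => rw [← hWgen]
      exact Subgroup.closure_mono Set.subset_union_right
  rw [hal1] at hal
  have halU : ∀ x ∈ al, x ∈ U := fun x hx => hWU x (halW x hx)
  have hw0U : w0 ∈ U := hWU w0 hw0
  have halp : (pre al).Pairwise (fun p q => p⁻¹ * q ∉ U') := by
    refine List.Pairwise.imp_of_mem ?_ hal.dis
    intro p q hp hq h h'
    exact h ⟨U.mul_mem (U.inv_mem (pre_mem_of halU p hp)) (pre_mem_of halU q hq), h'⟩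
  have hst := stair_cov D al halU halp w0 hw0U
  -- the subgroup `M`
  let M : Subgroup G := U ⊔ U'
  have hM1 : ∀ g, g ∈ M ↔ ∃ q ∈ U', q⁻¹ * g ∈ U :=
    fun g => mem_sup_of_norm (fun q hq p hp => D.nU q (D.UN' hq) p hp) g
  have hM2 : ∀ g, g ∈ M ↔ ∃ q ∈ U, q⁻¹ * g ∈ U' := by
    intro g
    have : M = U' ⊔ U := sup_comm _ _
    rw [this]
    exact mem_sup_of_norm (fun q hq p hp => D.nU' q (D.UN hq) p hp) g
  have hMN : M ≤ N := sup_le D.UN D.UN'
  have hUM : U ≤ M := le_sup_left
  have hUM' : U' ≤ M := le_sup_right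
  have hMf : ∀ x ∈ M, f * x * f⁻¹ ∈ M := by
    intro x hx
    obtain ⟨q, hq, h⟩ := (hM1 x).1 hx
    have e : f * x * f⁻¹ = (f * q * f⁻¹) * (f * (q⁻¹ * x) * f⁻¹) := by group
    rw [e]
    exact M.mul_mem (hUM (D.up' q hq)) (hUM' (D.up _ h))
  have hMn : ∀ n ∈ N, ∀ x ∈ M, n * x * n⁻¹ ∈ M := by
    intro n hn x hx
    obtain ⟨q, hq, h⟩ := (hM1 x).1 hx
    have e : n * x * n⁻¹ = (n * q * n⁻¹) * (n * (q⁻¹ * x) * n⁻¹) := by group
    rw [e]
    exact M.mul_mem (hUM' (D.nU' n hn q hq)) (hUM (D.nU n hn _ h))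
  have hMnorm : ∀ g, ∀ x ∈ M, g * x * g⁻¹ ∈ M := by
    intro g x hx
    by_cases hg : g ∈ N
    · exact hMn g hg x hx
    · have e : g * x * g⁻¹ = (g * f⁻¹) * (f * x * f⁻¹) * (g * f⁻¹)⁻¹ := by group
      rw [e]
      exact hMn _ (hmul hg (hinv hfN)) _ (hMf x hx)
  -- the set covered by the staircase
  have hZ : ∀ g, g ∈ Zst f U U' w0 al ↔ (g ∈ M ∨ g * f⁻¹ ∈ M) := by
    intro g
    simp only [Zst, Set.mem_ofPred_eq]
    constructor
    · rintro (⟨q, hq, h⟩ | ⟨q, hq, h⟩)
      · left
        rw [hM1]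
        exact ⟨f * q * f⁻¹, D.up _ (pre_mem_of halU q hq), h⟩
      · right
        rw [hM2]
        exact ⟨w0 * q, U.mul_mem hw0U (pre_mem_of halU q hq), h⟩
    · rintro (h | h)
      · left
        obtain ⟨u', hu', h2⟩ := (hM1 g).1 h
        obtain ⟨q, hq, h3⟩ := (hal.cov (f⁻¹ * u' * f)).1 (D.down u' hu')
        refine ⟨q, hq, ?_⟩
        have e : (f * q * f⁻¹)⁻¹ * g = (f * (q⁻¹ * (f⁻¹ * u' * f)) * f⁻¹) * (u'⁻¹ * g) := by
          group
        rw [e]
        exact U.mul_mem (D.up' _ h3.2) h2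
      · right
        obtain ⟨u, hu, h2⟩ := (hM2 _).1 h
        obtain ⟨q, hq, h3⟩ := (hal.cov (w0⁻¹ * u)).1 (U.mul_mem (U.inv_mem hw0U) hu)
        refine ⟨q, hq, ?_⟩
        have e : (w0 * q)⁻¹ * (g * f⁻¹) = (q⁻¹ * (w0⁻¹ * u)) * (u⁻¹ * (g * f⁻¹)) := by group
        rw [e]
        exact U'.mul_mem h3.2 h2
  set τ := stair f w0 al with hτ
  have hτM : τ.prod * f⁻¹ ∈ M := stair_prod al (fun x hx => hUM (halU x hx))
    (fun x hx => hUM' (D.up x (halU x hx))) w0 (hUM hw0U)
  have hτN : τ.prod ∉ N := by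
    intro h
    have h1 := hMN hτM
    apply hfN
    have e : f = (τ.prod * f⁻¹)⁻¹ * τ.prod := by group
    rw [e]
    exact N.mul_mem (N.inv_mem h1) h
  -- steps from block to block
  let T : Set G := {x | ∃ w ∈ W, ∃ s ∈ A, x = w * s}
  have hτT : ∀ x ∈ τ, x ∈ T := by
    intro x hx
    obtain ⟨w, hw, hx⟩ := stair_mem hx
    have hwW : w ∈ W := by
      rcases hw with rfl | hw
      · exact hw0
      · exact halW w hw
    rcases hx with rfl | rfl
    · exact ⟨w, hwW, f, hfA, rfl⟩
    · exact ⟨w, hwW, f⁻¹, hA f hfA, rfl⟩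
  -- steps between cosets of `M`
  let T2 : Set G := {x | ∃ s ∈ A, s ∉ N ∧ x = τ.prod * (w0 * s)}
  have hT2N : ∀ x ∈ T2, x ∈ N := by
    rintro x ⟨s, _, hs, rfl⟩
    apply hmul hτN
    intro h
    apply hs
    have e : s = w0⁻¹ * (w0 * s) := by group
    rw [e]
    exact N.mul_mem (N.inv_mem (hUleN hw0U)) h
  obtain ⟨L, hLT, hL⟩ := transv (U := M) (N := N) (T := T2)
    (fun K hMK hK => hND K (by
      intro x hx hxN g
      exact hMK (hMnorm g x (hUM (hRU x hx hxN)))) hK) hMN hT2N
  have hKN : Subgroup.closure ((M : Set G) ∪ T2) = N := by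
    apply le_antisymm
    · rw [Subgroup.closure_le]
      rintro x (hx | hx)
      · exact hMN hx
      · exact hT2N x hx
    · set K := Subgroup.closure ((M : Set G) ∪ T2) with hK
      have hMK : M ≤ K := fun x hx => Subgroup.subset_closure (Or.inl hx)
      have hfs : ∀ s ∈ A, s ∉ N → f * s ∈ K := by
        intro s hs hsN
        have h1 : τ.prod * (w0 * s) ∈ K := Subgroup.subset_closure (Or.inr ⟨s, hs, hsN, rfl⟩)
        have e : f * s = (f * w0 * f⁻¹)⁻¹ * ((τ.prod * f⁻¹)⁻¹ * (τ.prod * (w0 * s))) := by group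
        rw [e]
        exact K.mul_mem (K.inv_mem (hMK (hMf _ (hUM hw0U))))
          (K.mul_mem (K.inv_mem (hMK hτM)) h1)
      have hKleN : K ≤ N := by
        rw [hK, Subgroup.closure_le]
        rintro x (hx | hx)
        · exact hMN hx
        · exact hT2N x hx
      have hstep : ∀ x ∈ A, ∀ g, (g ∈ K ∨ f * g ∈ K) → (x * g ∈ K ∨ f * (x * g) ∈ K) := by
        intro x hx g hg
        by_cases hxN : x ∈ N
        · rcases hg with hg | hg
          · left
            exact K.mul_mem (hMK (hUM (hRU x hx hxN))) hg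
          · right
            have e : f * (x * g) = (f * x * f⁻¹) * (f * g) := by group
            rw [e]
            exact K.mul_mem (hMK (hMf _ (hUM (hRU x hx hxN)))) hg
        · rcases hg with hg | hg
          · right
            have e : f * (x * g) = (f * x) * g := by group
            rw [e]
            exact K.mul_mem (hfs x hx hxN) hg
          · left
            have h1 := hfs x⁻¹ (hA x hx) (hinv hxN)
            have e : x * g = (f * x⁻¹)⁻¹ * (f * g) := by group
            rw [e]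
            exact K.mul_mem (K.inv_mem h1) hg
      have hall : ∀ g ∈ Subgroup.closure A, (g ∈ K ∨ f * g ∈ K) := by
        intro g hg
        induction hg using Subgroup.closure_induction_left with
        | one => exact Or.inl K.one_mem
        | mul_left x hx y _ ih => exact hstep x hx y ih
        | inv_mul_cancel x hx y _ ih => exact hstep x⁻¹ (hA x hx) y ih
      intro n hn
      rcases hall n (by rw [hgen]; exact Subgroup.mem_top n) with h | h
      · exact h
      · exfalso
        apply hfN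
        have e : f = (f * n) * n⁻¹ := by group
        rw [e]
        exact N.mul_mem (hKleN h) (N.inv_mem hn)
  rw [hKN] at hL
  -- all cosets of `U`
  have hLN : ∀ p ∈ pre L, p ∈ N := fun p hp => hL.pre_mem hp
  have hlev : ∀ g, (g ∈ M ∨ g * f⁻¹ ∈ M) → ∀ g', (g' ∈ M ∨ g' * f⁻¹ ∈ M) →
      g * g'⁻¹ ∈ N → g * g'⁻¹ ∈ M := by
    intro g hg g' hg' h
    rcases hg with hg | hg <;> rcases hg' with hg' | hg'
    · exact M.mul_mem hg (M.inv_mem hg')
    · exfalso
      apply hfN
      have e : f = (g' * f⁻¹)⁻¹ * ((g * g'⁻¹)⁻¹ * g) := by group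
      rw [e]
      exact N.mul_mem (N.inv_mem (hMN hg')) (N.mul_mem (N.inv_mem h) (hMN hg))
    · exfalso
      apply hfN
      have e : f = (g * f⁻¹)⁻¹ * ((g * g'⁻¹) * g') := by group
      rw [e]
      exact N.mul_mem (N.inv_mem (hMN hg)) (N.mul_mem h (hMN hg'))
    · have e : g * g'⁻¹ = (g * f⁻¹) * (g' * f⁻¹)⁻¹ := by group
      rw [e]
      exact M.mul_mem hg (M.inv_mem hg')
  obtain ⟨l1, hl1T, hl1, _⟩ := tower (U := U) (Z := Zst f U U' w0 al) (T := T) L
    (by
      intro t ht
      obtain ⟨s, hs, _, rfl⟩ := hLT t ht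
      exact ⟨τ, w0 * s, hst, hτT, ⟨w0, hw0, s, hs, rfl⟩, rfl⟩)
    hst hτT
    (List.Pairwise.imp_of_mem (by
      intro p q hp hq h g hg g' hg' e
      apply h
      have e2 : p⁻¹ * q = g * g'⁻¹ := by
        have : q = p * g * g'⁻¹ := by rw [e]; group
        rw [this]; group
      rw [e2]
      apply hlev g ((hZ g).1 hg) g' ((hZ g').1 hg')
      rw [← e2]
      exact N.mul_mem (N.inv_mem (hLN p hp)) (hLN q hq)) hL.dis)
  have hl1' : Cov U l1 (Set.univ : Set G) := by
    refine hl1.congr ?_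
    intro g
    simp only [Set.mem_univ, true_iff, Set.mem_ofPred_eq]
    by_cases hg : g ∈ N
    · obtain ⟨p, hp, h⟩ := (hL.cov g).1 hg
      exact ⟨p, hp, (hZ _).2 (Or.inl h)⟩
    · obtain ⟨p, hp, h⟩ := (hL.cov (g * f⁻¹)).1 (hmul hg (hinv hfN))
      refine ⟨p, hp, (hZ _).2 (Or.inr ?_)⟩
      rw [mul_assoc]; exact h
  -- all elements
  obtain ⟨lw0, hlw0R, hlw0, hlw0p⟩ := hw0
  obtain ⟨l2, hl2A, hl2, _⟩ := tower (U := (⊥ : Subgroup G)) (Z := (U : Set G)) (T := A) l1
    (by
      intro t ht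
      obtain ⟨w, ⟨l, hlR, hl, rfl⟩, s, hs, rfl⟩ := hl1T t ht
      exact ⟨l, s, hl, fun x hx => (hlR x hx).1, hs, rfl⟩)
    hlw0 (fun x hx => (hlw0R x hx).1)
    (hl1'.dis.imp (by
      intro p q h g hg g' hg' e
      apply h
      have e2 : p⁻¹ * q = g * g'⁻¹ := by
        have : q = p * g * g'⁻¹ := by rw [e]; group
        rw [this]; group
      rw [e2]
      exact U.mul_mem hg (U.inv_mem hg')))
  refine ⟨l2, hl2A, hl2.congr ?_⟩
  intro g
  simp only [Set.mem_univ, true_iff, Set.mem_ofPred_eq]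
  exact (hl1'.cov g).1 (Set.mem_univ g)

end Pool.Agent.H761J.Ham
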