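import Pool.Agent.H761J.Ham2

/-!
# Walks over the cosets of a subgroup in a group of nilpotency class two: the case of two generators

`a`, `x` are elements with central commutator `e = x⁻¹ a⁻¹ x a`, and `x` is in the subgroup `H`.
-/

namespace Pool.Agent.H761J.Nil

open Pool.Agent.H761J.Ham

variable {G : Type*} [Group G]

/-- normal form -/
def nf (a x e : G) (I j s : ℤ) : G := a ^ I * e ^ j * x ^ s

theorem zcomm {a x e : G} (hc : ∀ z : G, e * z = z * e) (he : x * a = a * x * e) (s I : ℤ) :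
    x ^ s * a ^ I = a ^ I * x ^ s * e ^ (s * I) := by
  have hcc : ∀ z : G, Commute e z := fun z => hc z
  have h1 : a⁻¹ * x * a = x * e := by
    rw [mul_assoc, he, ← mul_assoc, ← mul_assoc, inv_mul_cancel, one_mul]
  have h2 : ∀ s : ℤ, a⁻¹ * x ^ s * a = x ^ s * e ^ s := by
    intro s
    have : a⁻¹ * x ^ s * a = (a⁻¹ * x * a) ^ s := by
      have := conj_zpow (i := s) (a := a⁻¹) (b := x)
      rw [inv_inv] at this
      exact this.symm
    rw [this, h1, (hcc x).symm.mul_zpow]
  have h3 : ∀ s : ℤ, (x ^ s)⁻¹ * a * x ^ s = a * e ^ (-s) := by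
    intro s
    have h := h2 s
    have : x ^ s * a = a * x ^ s * e ^ s := by
      calc x ^ s * a = a * (a⁻¹ * x ^ s * a) := by group
        _ = a * x ^ s * e ^ s := by rw [h, mul_assoc]
    have h4 : a * x ^ s = x ^ s * a * e ^ (-s) := by
      rw [this, mul_assoc (a * x ^ s), ← zpow_add, add_neg_cancel, zpow_zero, mul_one]
    rw [mul_assoc, h4]
    group
  have h5 : (x ^ s)⁻¹ * a ^ I * x ^ s = a ^ I * e ^ (-(s * I)) := by
    have : (x ^ s)⁻¹ * a ^ I * x ^ s = ((x ^ s)⁻¹ * a * x ^ s) ^ I := by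
      have := conj_zpow (i := I) (a := (x ^ s)⁻¹) (b := a)
      rw [inv_inv] at this
      exact this.symm
    rw [this, h3, ((hcc a).zpow_left (-s)).symm.mul_zpow, ← zpow_mul]
    congr 2
    ring
  have h6 : a ^ I * x ^ s = x ^ s * a ^ I * e ^ (-(s * I)) := by
    calc a ^ I * x ^ s = x ^ s * ((x ^ s)⁻¹ * a ^ I * x ^ s) := by group
      _ = x ^ s * a ^ I * e ^ (-(s * I)) := by rw [h5, mul_assoc]
  rw [h6, mul_assoc (x ^ s * a ^ I), ← zpow_add, neg_add_cancel, zpow_zero, mul_one]

theorem nf_mul {a x e : G} (hc : ∀ z : G, e * z = z * e) (he : x * a = a * x * e)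
    (I j s t ε : ℤ) :
    nf a x e I j s * (x ^ t * a ^ ε) = nf a x e (I + ε) (j + ε * (s + t)) (s + t) := by
  have hce : ∀ (z : G) (k : ℤ), e ^ k * z = z * e ^ k := fun z k =>
    ((show Commute e z from hc z).zpow_left k)
  unfold nf
  have h := zcomm hc he (s + t) ε
  calc a ^ I * e ^ j * x ^ s * (x ^ t * a ^ ε)
      = a ^ I * e ^ j * (x ^ (s + t) * a ^ ε) := by rw [zpow_add]; group
    _ = a ^ I * (e ^ j * (a ^ ε * x ^ (s + t))) * e ^ ((s + t) * ε) := by
        rw [h]; simp only [mul_assoc]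
    _ = a ^ (I + ε) * x ^ (s + t) * (e ^ j * e ^ ((s + t) * ε)) := by
        rw [hce (a ^ ε * x ^ (s + t)) j, zpow_add a I ε]; simp only [mul_assoc]
    _ = a ^ (I + ε) * x ^ (s + t) * e ^ (j + ε * (s + t)) := by
        rw [← zpow_add]; congr 2; ring
    _ = a ^ (I + ε) * e ^ (j + ε * (s + t)) * x ^ (s + t) := by
        rw [mul_assoc, ← hce (x ^ (s + t)), ← mul_assoc]

theorem nf_zero (a x e : G) : nf a x e 0 0 0 = 1 := by simp [nf]

/-- the list `(x⁻¹ a⁻¹, x a)` repeated `b` times -/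
def du (a x : G) : ℕ → List G
  | 0 => []
  | b + 1 => (x ^ (-1 : ℤ) * a ^ (-1 : ℤ)) :: (x ^ (1 : ℤ) * a ^ (1 : ℤ)) :: du a x b

theorem du_length (a x : G) (b : ℕ) : (du a x b).length = 2 * b := by
  induction b with
  | zero => rfl
  | succ b ih => simp only [du, List.length_cons, ih]; ring

/-- `e` as the product of a down and an up step -/
theorem du_one {a x e : G} (hc : ∀ z : G, e * z = z * e) (he : x * a = a * x * e) :
    (x ^ (-1 : ℤ) * a ^ (-1 : ℤ)) * (x ^ (1 : ℤ) * a ^ (1 : ℤ)) = e := by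
  have h := nf_mul hc he 0 0 0 (-1) (-1)
  have h2 := nf_mul hc he (0 + -1) (0 + -1 * (0 + -1)) (0 + -1) 1 1
  rw [← h, nf_zero, one_mul] at h2
  rw [h2]
  simp [nf]

theorem du_prod {a x e : G} (hc : ∀ z : G, e * z = z * e) (he : x * a = a * x * e) (b : ℕ) :
    (du a x b).prod = e ^ b := by
  induction b with
  | zero => simp [du]
  | succ b ih =>
    simp only [du, List.prod_cons]
    rw [ih, ← mul_assoc, du_one hc he, pow_succ']

theorem du_pre {a x e : G} (hc : ∀ z : G, e * z = z * e) (he : x * a = a * x * e) (b i : ℕ)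
    (hi : i ≤ b) : e ^ i ∈ pre (du a x b) := by
  induction b generalizing i with
  | zero => obtain rfl : i = 0 := by omega
            simp [du, pre]
  | succ b ih =>
    cases i with
    | zero => rw [pow_zero]; exact one_mem_pre _
    | succ i =>
      simp only [du, pre, List.mem_cons, List.mem_map]
      right
      refine ⟨(x ^ (1 : ℤ) * a ^ (1 : ℤ)) * e ^ i, Or.inr ⟨e ^ i, ih i (by omega), rfl⟩, ?_⟩
      rw [← mul_assoc, du_one hc he, pow_succ']

theorem du_pre' {a x e : G} (hc : ∀ z : G, e * z = z * e) (he : x * a = a * x * e) (b i : ℕ)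
    (hi : i < b) : e ^ i * (x ^ (-1 : ℤ) * a ^ (-1 : ℤ)) ∈ pre (du a x b) := by
  induction b generalizing i with
  | zero => omega
  | succ b ih =>
    cases i with
    | zero =>
      simp only [du, pre, List.mem_cons, List.mem_map]
      right
      exact ⟨1, Or.inl rfl, by rw [pow_zero, one_mul, mul_one]⟩
    | succ i =>
      simp only [du, pre, List.mem_cons, List.mem_map]
      right
      refine ⟨(x ^ (1 : ℤ) * a ^ (1 : ℤ)) * (e ^ i * (x ^ (-1 : ℤ) * a ^ (-1 : ℤ))),
        Or.inr ⟨_, ih i (by omega), rfl⟩, ?_⟩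
      rw [← mul_assoc, du_one hc he, ← mul_assoc, ← pow_succ']

theorem pre_append' (l1 l2 : List G) {p : G} (hp : p ∈ pre l2) :
    l1.prod * p ∈ pre (l1 ++ l2) := by
  induction l1 with
  | nil => simpa using hp
  | cons b l ih =>
    simp only [List.cons_append, pre, List.mem_cons, List.mem_map, List.prod_cons]
    right
    exact ⟨_, ih, by rw [mul_assoc]⟩

theorem pre_append_left (l1 l2 : List G) {p : G} (hp : p ∈ pre l1) : p ∈ pre (l1 ++ l2) := by
  induction l1 generalizing p with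
  | nil =>
    simp only [pre, List.mem_singleton] at hp
    subst hp
    exact one_mem_pre _
  | cons b l ih =>
    simp only [List.cons_append, pre, List.mem_cons, List.mem_map] at hp ⊢
    rcases hp with rfl | ⟨q, hq, rfl⟩
    · exact Or.inl rfl
    · exact Or.inr ⟨q, ih hq, rfl⟩

end Pool.Agent.H761J.Nil
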