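import Pool.Agent.H761J.Nil1

/-!
# The base walk: the cosets `a^p e^j H` of the subgroup generated by `a` and `x`
-/

namespace Pool.Agent.H761J.Nil

open Pool.Agent.H761J.Ham

variable {G : Type*} [Group G]

theorem cov_of_hits {U : Subgroup G} {L : List G} {ι : Type*} [Fintype ι] (rep : ι → G)
    (hlen : L.length + 1 = Fintype.card ι)
    (hdist : ∀ i j, (rep i)⁻¹ * rep j ∈ U → i = j)
    (hhit : ∀ i, ∃ q ∈ pre L, q⁻¹ * rep i ∈ U) :
    Cov U L {g | ∃ i, (rep i)⁻¹ * g ∈ U} := by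
  classical
  set π : G → G ⧸ U := fun g => (g : G ⧸ U) with hπ
  have hπeq : ∀ p q : G, π p = π q ↔ p⁻¹ * q ∈ U := fun p q => QuotientGroup.eq
  set ql : List (G ⧸ U) := (pre L).map π with hql
  have hqlen : ql.length = Fintype.card ι := by
    rw [hql, List.length_map, pre_length, hlen]
  have hinj : Function.Injective (fun i => π (rep i)) := by
    intro i j h
    exact hdist i j ((hπeq _ _).1 h)
  set im : Finset (G ⧸ U) := Finset.univ.image (fun i => π (rep i)) with him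
  have himcard : im.card = Fintype.card ι := by
    rw [him, Finset.card_image_of_injective _ hinj, Finset.card_univ]
  have hsub : im ⊆ ql.toFinset := by
    intro c hc
    rw [him, Finset.mem_image] at hc
    obtain ⟨i, -, rfl⟩ := hc
    obtain ⟨q, hq, hqi⟩ := hhit i
    rw [List.mem_toFinset, hql, List.mem_map]
    exact ⟨q, hq, (hπeq _ _).2 hqi⟩
  have hle : ql.toFinset.card ≤ ql.length := List.toFinset_card_le ql
  have hge : im.card ≤ ql.toFinset.card := Finset.card_le_card hsub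
  have heq : im = ql.toFinset := Finset.eq_of_subset_of_card_le hsub (by omega)
  have hnd : ql.Nodup := by
    rw [← Multiset.coe_nodup, ← Multiset.toFinset_card_eq_card_iff_nodup]
    change ql.toFinset.card = ql.length
    omega
  constructor
  · rw [hql, List.Nodup, List.pairwise_map] at hnd
    refine hnd.imp ?_
    intro p q h h'
    exact h ((hπeq _ _).2 h')
  · intro g
    constructor
    · rintro ⟨i, hi⟩
      obtain ⟨q, hq, hqi⟩ := hhit i
      refine ⟨q, hq, ?_⟩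
      have : q⁻¹ * g = (q⁻¹ * rep i) * ((rep i)⁻¹ * g) := by group
      rw [this]
      exact U.mul_mem hqi hi
    · rintro ⟨p, hp, hpg⟩
      have h1 : π p ∈ im := by
        rw [heq, List.mem_toFinset, hql, List.mem_map]
        exact ⟨p, hp, rfl⟩
      rw [him, Finset.mem_image] at h1
      obtain ⟨i, -, hi⟩ := h1
      refine ⟨i, ?_⟩
      have : (rep i)⁻¹ * g = ((rep i)⁻¹ * p) * (p⁻¹ * g) := by group
      rw [this]
      exact U.mul_mem ((hπeq _ _).1 hi) hpg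

theorem int_sub (P : AddSubgroup ℤ) (k : ℤ) (hk : k ∈ P) (hk0 : k ≠ 0) :
    ∃ n : ℕ, 0 < n ∧ ∀ z : ℤ, z ∈ P ↔ (n : ℤ) ∣ z := by
  obtain ⟨c, hc⟩ := Int.subgroup_cyclic P
  have hz : ∀ z : ℤ, z ∈ P ↔ c ∣ z := by
    intro z
    rw [hc, AddSubgroup.mem_closure_singleton]
    constructor
    · rintro ⟨t, rfl⟩
      rw [smul_eq_mul]
      exact Dvd.intro_left t rfl
    · rintro ⟨t, rfl⟩
      exact ⟨t, by rw [smul_eq_mul, mul_comm]⟩
  refine ⟨c.natAbs, ?_, fun z => ?_⟩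
  · rw [Int.natAbs_pos]
    rintro rfl
    exact hk0 (zero_dvd_iff.1 ((hz k).1 hk))
  · rw [hz z, Int.natAbs_dvd]

/-- membership of the difference of a normal form and a representative -/
theorem nf_inv_mul {a x e : G} (hc : ∀ z : G, e * z = z * e) (I j s j' : ℤ) :
    (nf a x e I j s)⁻¹ * (a ^ I * e ^ j') = x ^ (-s) * e ^ (j' - j) := by
  have hce : ∀ (z : G) (k : ℤ), e ^ k * z = z * e ^ k := fun z k =>
    ((show Commute e z from hc z).zpow_left k)
  unfold nf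
  rw [sub_eq_add_neg, zpow_add, ← hce (e ^ j') (-j)]
  group

variable {H : Subgroup G}

theorem hit_mem {a x e : G} (hc : ∀ z : G, e * z = z * e) (hx : x ∈ H) {n : ℕ}
    (hn : ∀ z : ℤ, e ^ z ∈ H ↔ (n : ℤ) ∣ z) (I j s j' : ℤ) (h : (n : ℤ) ∣ j' - j) :
    (nf a x e I j s)⁻¹ * (a ^ I * e ^ j') ∈ H := by
  rw [nf_inv_mul hc]
  exact H.mul_mem (H.zpow_mem hx _) ((hn _).2 h)

theorem hit_mem' {a x e : G} (hc : ∀ z : G, e * z = z * e) (hx : x ∈ H) {n : ℕ}
    (hn : ∀ z : ℤ, e ^ z ∈ H ↔ (n : ℤ) ∣ z) (M κ : ℤ) (hM : a ^ M * e ^ (-κ) ∈ H)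
    (j s j' : ℤ) (h : (n : ℤ) ∣ j' - j - κ) :
    (nf a x e M j s)⁻¹ * (a ^ (0 : ℤ) * e ^ j') ∈ H := by
  have hce : ∀ (z : G) (k : ℤ), e ^ k * z = z * e ^ k := fun z k =>
    ((show Commute e z from hc z).zpow_left k)
  have : (nf a x e M j s)⁻¹ * (a ^ (0 : ℤ) * e ^ j') =
      x ^ (-s) * (a ^ M * e ^ (-κ))⁻¹ * e ^ (j' - j - κ) := by
    unfold nf
    have h1 : e ^ (j' - j - κ) = e ^ (-κ) * (e ^ (-j) * e ^ j') := by
      rw [← zpow_add, ← zpow_add]; congr 1; ring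
    rw [h1, zpow_zero, one_mul, mul_inv_rev, mul_inv_rev, mul_inv_rev]
    have h2 : (e ^ j)⁻¹ = e ^ (-j) := by rw [zpow_neg]
    have h3 : (e ^ (-κ))⁻¹ = e ^ κ := by rw [zpow_neg, inv_inv]
    rw [h2, h3, hce (a ^ M)⁻¹ (-j)]
    have h4 : e ^ κ * (a ^ M)⁻¹ = (a ^ M)⁻¹ * e ^ κ := hce _ _
    rw [h4]
    group
  rw [this]
  exact H.mul_mem (H.mul_mem (H.zpow_mem hx _) (H.inv_mem hM)) ((hn _).2 h)

/-- the closed description of the cosets in `⟨a, x⟩ H` -/
theorem cosets {a x e : G} (hc : ∀ z : G, e * z = z * e) (he : x * a = a * x * e) (hx : x ∈ H)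
    {n m : ℕ} (hn0 : 0 < n) (hm0 : 0 < m)
    (hn : ∀ z : ℤ, e ^ z ∈ H ↔ (n : ℤ) ∣ z)
    (κ : ℤ) (hM : a ^ (m : ℤ) * e ^ (-κ) ∈ H) (g : G) :
    (∃ γ ∈ Subgroup.closure {a, x}, γ⁻¹ * g ∈ H) ↔
      ∃ i : Fin m × Fin n, (a ^ ((i.1 : ℕ) : ℤ) * e ^ ((i.2 : ℕ) : ℤ))⁻¹ * g ∈ H := by
  have hce : ∀ (z : G) (k : ℤ), e ^ k * z = z * e ^ k := fun z k =>
    ((show Commute e z from hc z).zpow_left k)
  have hae : e = x⁻¹ * a⁻¹ * x * a := by
    have : x⁻¹ * a⁻¹ * x * a = x⁻¹ * a⁻¹ * (x * a) := by group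
    rw [this, he]; group
  constructor
  · rintro ⟨γ, hγ, hg⟩
    have h1 : ∃ I j s : ℤ, γ = nf a x e I j s := by
      refine Subgroup.closure_induction_right
        (p := fun γ _ => ∃ I j s : ℤ, γ = nf a x e I j s) ?_ ?_ ?_ hγ
      · exact ⟨0, 0, 0, (nf_zero a x e).symm⟩
      · rintro γ - y hy ⟨I, j, s, rfl⟩
        rcases hy with rfl | hy
        · refine ⟨I + 1, j + 1 * (s + 0), s + 0, ?_⟩
          rw [← nf_mul hc he, zpow_zero, one_mul, zpow_one]
        · rw [Set.mem_singleton_iff] at hy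
          subst hy
          refine ⟨I + 0, j + 0 * (s + 1), s + 1, ?_⟩
          rw [← nf_mul hc he, zpow_zero, mul_one, zpow_one]
      · rintro γ - y hy ⟨I, j, s, rfl⟩
        rcases hy with rfl | hy
        · refine ⟨I + (-1), j + (-1) * (s + 0), s + 0, ?_⟩
          rw [← nf_mul hc he, zpow_zero, one_mul, zpow_neg_one]
        · rw [Set.mem_singleton_iff] at hy
          subst hy
          refine ⟨I + 0, j + 0 * (s + (-1)), s + (-1), ?_⟩
          rw [← nf_mul hc he, zpow_zero, mul_one, zpow_neg_one]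
    obtain ⟨I, j, s, rfl⟩ := h1
    have hm' : (m : ℤ) ≠ 0 := by omega
    have hn' : (n : ℤ) ≠ 0 := by omega
    set r : ℤ := I % m with hr
    set q : ℤ := I / m with hq
    have hr0 : 0 ≤ r := Int.emod_nonneg _ hm'
    have hrm : r < m := Int.emod_lt_of_pos _ (by omega)
    set j' : ℤ := (j + κ * q) % n with hj'
    have hj0 : 0 ≤ j' := Int.emod_nonneg _ hn'
    have hjn : j' < n := Int.emod_lt_of_pos _ (by omega)
    refine ⟨(⟨r.toNat, by omega⟩, ⟨j'.toNat, by omega⟩), ?_⟩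
    simp only [Int.toNat_of_nonneg hr0, Int.toNat_of_nonneg hj0]
    have h2 : (a ^ r * e ^ j')⁻¹ * g = ((a ^ r * e ^ j')⁻¹ * nf a x e I j s) *
        ((nf a x e I j s)⁻¹ * g) := by group
    rw [h2]
    refine H.mul_mem ?_ hg
    have h3 : a ^ I = a ^ r * (a ^ (m : ℤ)) ^ q := by
      rw [← zpow_mul, ← zpow_add]
      congr 1
      rw [hr, hq]
      exact (Int.emod_add_mul_ediv I m).symm
    have h4 : (a ^ (m : ℤ)) ^ q = (a ^ (m : ℤ) * e ^ (-κ)) ^ q * e ^ (κ * q) := by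
      have hcom : Commute (a ^ (m : ℤ)) (e ^ (-κ)) := (hce _ _).symm
      rw [hcom.mul_zpow, mul_assoc, ← zpow_mul e, ← zpow_add e]
      have : -κ * q + κ * q = 0 := by ring
      rw [this, zpow_zero, mul_one]
    have h5 : (a ^ r * e ^ j')⁻¹ * nf a x e I j s =
        e ^ (j + κ * q - j') * ((a ^ (m : ℤ) * e ^ (-κ)) ^ q * x ^ s) := by
      unfold nf
      rw [h3, h4]
      have h6 : e ^ (j + κ * q - j') = e ^ (-j') * e ^ (κ * q) * e ^ j := by
        rw [← zpow_add, ← zpow_add]; congr 1; ring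
      rw [h6, mul_inv_rev]
      have h7 : (e ^ j')⁻¹ = e ^ (-j') := by rw [zpow_neg]
      rw [h7]
      set Y := (a ^ (m : ℤ) * e ^ (-κ)) ^ q
      calc e ^ (-j') * (a ^ r)⁻¹ * (a ^ r * (Y * e ^ (κ * q)) * e ^ j * x ^ s)
          = e ^ (-j') * (Y * e ^ (κ * q)) * e ^ j * x ^ s := by group
        _ = e ^ (-j') * (e ^ (κ * q) * Y) * e ^ j * x ^ s := by rw [hce Y]
        _ = e ^ (-j') * e ^ (κ * q) * (Y * e ^ j) * x ^ s := by simp only [mul_assoc]
        _ = e ^ (-j') * e ^ (κ * q) * (e ^ j * Y) * x ^ s := by rw [hce Y]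
        _ = e ^ (-j') * e ^ (κ * q) * e ^ j * (Y * x ^ s) := by simp only [mul_assoc]
    rw [h5]
    refine H.mul_mem ((hn _).2 ?_) (H.mul_mem (H.zpow_mem hM _) (H.zpow_mem hx _))
    rw [hj']
    exact Int.dvd_self_sub_emod
  · rintro ⟨i, hi⟩
    refine ⟨_, ?_, hi⟩
    have ha : a ∈ Subgroup.closure {a, x} := Subgroup.subset_closure (by simp)
    have hx' : x ∈ Subgroup.closure {a, x} := Subgroup.subset_closure (by simp)
    have hemem : e ∈ Subgroup.closure {a, x} := by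
      rw [hae]
      exact Subgroup.mul_mem _ (Subgroup.mul_mem _ (Subgroup.mul_mem _
        (Subgroup.inv_mem _ hx') (Subgroup.inv_mem _ ha)) hx') ha
    exact Subgroup.mul_mem _ (Subgroup.zpow_mem _ ha _) (Subgroup.zpow_mem _ hemem _)

end Pool.Agent.H761J.Nil
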