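import Pool.Agent.H761J.Nil2

/-!
# The base walk: even and odd number of levels
-/

namespace Pool.Agent.H761J.Nil

open Pool.Agent.H761J.Ham

variable {G : Type*} [Group G]

theorem nf_epow {a x e : G} (hc : ∀ z : G, e * z = z * e) (I j s : ℤ) (k : ℕ) :
    nf a x e I j s * e ^ k = nf a x e I (j + k) s := by
  have hce : ∀ (z : G) (k : ℤ), e ^ k * z = z * e ^ k := fun z k =>
    ((show Commute e z from hc z).zpow_left k)
  unfold nf
  rw [← zpow_natCast e k, mul_assoc, ← hce (x ^ s) k, zpow_add]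
  simp only [mul_assoc]

theorem dist_rep {a e : G} {H : Subgroup G} (hc : ∀ z : G, e * z = z * e) {n m : ℕ}
    (hn : ∀ z : ℤ, e ^ z ∈ H ↔ (n : ℤ) ∣ z)
    (hm : ∀ I : ℤ, (∃ k : ℤ, a ^ I * e ^ k ∈ H) → (m : ℤ) ∣ I) (i j : Fin m × Fin n)
    (h : (a ^ ((i.1 : ℕ) : ℤ) * e ^ ((i.2 : ℕ) : ℤ))⁻¹ *
      (a ^ ((j.1 : ℕ) : ℤ) * e ^ ((j.2 : ℕ) : ℤ)) ∈ H) : i = j := by
  have hce : ∀ (z : G) (k : ℤ), e ^ k * z = z * e ^ k := fun z k =>
    ((show Commute e z from hc z).zpow_left k)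
  obtain ⟨⟨i1, hi1⟩, ⟨i2, hi2⟩⟩ := i
  obtain ⟨⟨j1, hj1⟩, ⟨j2, hj2⟩⟩ := j
  simp only at h
  have h1 : (a ^ (i1 : ℤ) * e ^ (i2 : ℤ))⁻¹ * (a ^ (j1 : ℤ) * e ^ (j2 : ℤ)) =
      a ^ ((j1 : ℤ) - i1) * e ^ ((j2 : ℤ) - i2) := by
    rw [mul_inv_rev, ← zpow_neg, ← zpow_neg, mul_assoc, ← mul_assoc (a ^ (-(i1 : ℤ))),
      ← zpow_add, hce, mul_assoc, ← zpow_add]
    congr 2 <;> ring
  rw [h1] at h
  have h2 := hm _ ⟨_, h⟩
  have h3 : j1 = i1 := by
    obtain ⟨t, ht⟩ := h2
    have : t = 0 := by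
      by_contra hne
      rcases lt_or_gt_of_ne hne with h0 | h0
      · nlinarith
      · nlinarith
    subst this
    omega
  subst h3
  rw [sub_self, zpow_zero, one_mul] at h
  have h4 := (hn _).1 h
  have h5 : j2 = i2 := by
    obtain ⟨t, ht⟩ := h4
    have : t = 0 := by
      by_contra hne
      rcases lt_or_gt_of_ne hne with h0 | h0
      · nlinarith
      · nlinarith
    subst this
    omega
  subst h5
  rfl

theorem mem_block {l1 r : List G} {w p : G} (hp : p ∈ pre r) :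
    l1.prod * (w * p) ∈ pre (l1 ++ (w :: r)) := by
  apply pre_append'
  simp only [pre, List.mem_cons, List.mem_map]
  exact Or.inr ⟨p, hp, rfl⟩

/-- `k` pairs of levels -/
def ev (a x : G) (c : ℕ) : ℕ → List G
  | 0 => []
  | k + 1 => ev a x c k ++
      ((x ^ (1 : ℤ) * a ^ (1 : ℤ)) :: (du a x c ++ [x ^ (-1 : ℤ) * a ^ (1 : ℤ)]))

theorem ev_prod {a x e : G} (hc : ∀ z : G, e * z = z * e) (he : x * a = a * x * e) (c k : ℕ) :
    (ev a x c k).prod = nf a x e (2 * k) (k * (c + 1)) 0 := by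
  induction k with
  | zero => simp [ev, nf]
  | succ k ih =>
    simp only [ev, List.prod_append, List.prod_cons, List.prod_nil, mul_one]
    rw [ih, du_prod hc he]
    have h1 : nf a x e (2 * k) (k * (c + 1)) 0 *
        (x ^ (1 : ℤ) * a ^ (1 : ℤ) * (e ^ c * (x ^ (-1 : ℤ) * a ^ (1 : ℤ)))) =
        nf a x e (2 * k) (k * (c + 1)) 0 * (x ^ (1 : ℤ) * a ^ (1 : ℤ)) * e ^ c *
          (x ^ (-1 : ℤ) * a ^ (1 : ℤ)) := by simp only [mul_assoc]
    rw [h1, nf_mul hc he, nf_epow hc, nf_mul hc he]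
    congr 1 <;> push_cast <;> ring

theorem ev_length (a x : G) (c k : ℕ) : (ev a x c k).length = k * (2 * (c + 1)) := by
  induction k with
  | zero => simp [ev]
  | succ k ih =>
    simp only [ev, List.length_append, List.length_cons, List.length_nil, du_length, ih]
    ring

theorem ev_prefix (a x : G) (c k M : ℕ) (h : k ≤ M) : ∃ r, ev a x c M = ev a x c k ++ r := by
  induction M with
  | zero => obtain rfl : k = 0 := by omega
            exact ⟨[], by simp⟩
  | succ M ih =>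
    rcases Nat.lt_or_ge M k with hk | hk
    · obtain rfl : k = M + 1 := by omega
      exact ⟨[], by simp⟩
    · obtain ⟨r, hr⟩ := ih hk
      refine ⟨r ++ ((x ^ (1 : ℤ) * a ^ (1 : ℤ)) :: (du a x c ++ [x ^ (-1 : ℤ) * a ^ (1 : ℤ)])), ?_⟩
      rw [ev, hr, List.append_assoc]

/-- the walk on an even number `2 (M + 1)` of levels -/
def evL (a x : G) (c M : ℕ) : List G := ev a x c M ++ ((x ^ (1 : ℤ) * a ^ (1 : ℤ)) :: du a x c)

theorem evL_block (a x : G) (c k M : ℕ) (h : k ≤ M) :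
    ∃ r, evL a x c M = ev a x c k ++ ((x ^ (1 : ℤ) * a ^ (1 : ℤ)) :: (du a x c ++ r)) := by
  rcases Nat.lt_or_ge k M with hk | hk
  · obtain ⟨r, hr⟩ := ev_prefix a x c (k + 1) M hk
    refine ⟨[x ^ (-1 : ℤ) * a ^ (1 : ℤ)] ++ r ++ ((x ^ (1 : ℤ) * a ^ (1 : ℤ)) :: du a x c), ?_⟩
    rw [evL, hr, ev]
    simp only [List.append_assoc, List.cons_append]
  · obtain rfl : k = M := by omega
    exact ⟨[], by rw [evL, List.append_nil]⟩

/-- The steps allowed in the base walk -/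
def Step (a x : G) (t : G) : Prop :=
  ∃ w : G, (w = x ∨ w = x⁻¹) ∧ (t = w * a ∨ t = w * a⁻¹)

theorem step_of {a x : G} {δ ε : ℤ} (hδ : δ = 1 ∨ δ = -1) (hε : ε = 1 ∨ ε = -1) :
    Step a x (x ^ δ * a ^ ε) := by
  refine ⟨x ^ δ, ?_, ?_⟩
  · rcases hδ with rfl | rfl
    · left; simp
    · right; simp
  · rcases hε with rfl | rfl
    · left; simp
    · right; simp

theorem du_step {a x : G} {b : ℕ} : ∀ t ∈ du a x b, Step a x t := by
  induction b with
  | zero => intro t ht; simp [du] at ht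
  | succ b ih =>
    intro t ht
    simp only [du, List.mem_cons] at ht
    rcases ht with rfl | rfl | ht
    · exact step_of (Or.inr rfl) (Or.inr rfl)
    · exact step_of (Or.inl rfl) (Or.inl rfl)
    · exact ih t ht

theorem ev_step {a x : G} {c k : ℕ} : ∀ t ∈ ev a x c k, Step a x t := by
  induction k with
  | zero => intro t ht; simp [ev] at ht
  | succ k ih =>
    intro t ht
    simp only [ev, List.mem_append, List.mem_cons, List.not_mem_nil, or_false] at ht
    rcases ht with ht | rfl | ht | rfl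
    · exact ih t ht
    · exact step_of (Or.inl rfl) (Or.inl rfl)
    · exact du_step t ht
    · exact step_of (Or.inr rfl) (Or.inl rfl)

theorem evL_step {a x : G} {c M : ℕ} : ∀ t ∈ evL a x c M, Step a x t := by
  intro t ht
  simp only [evL, List.mem_append, List.mem_cons] at ht
  rcases ht with ht | rfl | ht
  · exact ev_step t ht
  · exact step_of (Or.inl rfl) (Or.inl rfl)
  · exact du_step t ht

/-- the output of the base walk -/
structure Base (a x e : G) (H : Subgroup G) (m : ℕ) (L : List G) : Prop where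
  step : ∀ t ∈ L, Step a x t
  hd : ∃ w L', L = (w * a) :: L' ∧ (w = x ∨ w = x⁻¹)
  prod : ∃ j s : ℤ, L.prod = nf a x e (m - 1) j s
  cov : Cov H L {g | ∃ γ ∈ Subgroup.closure {a, x}, γ⁻¹ * g ∈ H}

variable {H : Subgroup G}

theorem base_even {a x e : G} (hc : ∀ z : G, e * z = z * e) (he : x * a = a * x * e)
    (hx : x ∈ H) {n M : ℕ} (hn0 : 0 < n)
    (hn : ∀ z : ℤ, e ^ z ∈ H ↔ (n : ℤ) ∣ z)
    (hm : ∀ I : ℤ, (∃ k : ℤ, a ^ I * e ^ k ∈ H) → ((2 * (M + 1) : ℕ) : ℤ) ∣ I)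
    (κ : ℤ) (hM : a ^ ((2 * (M + 1) : ℕ) : ℤ) * e ^ (-κ) ∈ H) :
    ∃ L, Base a x e H (2 * (M + 1)) L := by
  obtain ⟨c, rfl⟩ : ∃ c, n = c + 1 := ⟨n - 1, by omega⟩
  refine ⟨evL a x c M, evL_step, ?_, ?_, ?_⟩
  · obtain ⟨r, hr⟩ := evL_block a x c 0 M (Nat.zero_le _)
    refine ⟨x, du a x c ++ r, ?_, Or.inl rfl⟩
    rw [hr]
    simp [ev]
  · refine ⟨M * (c + 1) + 1 * (0 + 1) + c, 0 + 1, ?_⟩
    rw [evL, List.prod_append, List.prod_cons, ev_prod hc he, du_prod hc he, ← mul_assoc,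
      nf_mul hc he, nf_epow hc]
    congr 1
    push_cast; ring
  · refine (cov_of_hits (ι := Fin (2 * (M + 1)) × Fin (c + 1))
      (fun i => a ^ ((i.1 : ℕ) : ℤ) * e ^ ((i.2 : ℕ) : ℤ)) ?_ (dist_rep hc hn hm) ?_).congr
      (fun g => cosets hc he hx hn0 (by omega) hn κ hM g)
    · simp only [evL, List.length_append, List.length_cons, du_length, ev_length,
        Fintype.card_prod, Fintype.card_fin]
      ring
    · rintro ⟨⟨p, hp⟩, ⟨j, hj⟩⟩
      simp only
      rcases Nat.even_or_odd' p with ⟨k, rfl | rfl⟩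
      · obtain ⟨r, hr⟩ := evL_block a x c k M (by omega)
        rcases Nat.eq_zero_or_pos j with rfl | hj0
        · refine ⟨(ev a x c k).prod * 1, ?_, ?_⟩
          · rw [hr]; exact pre_append' _ _ (one_mem_pre _)
          · rw [mul_one, ev_prod hc he]
            push_cast
            refine hit_mem hc hx hn _ _ _ _ ?_
            exact ⟨-k, by push_cast; ring⟩
        · obtain ⟨i, rfl⟩ : ∃ i, j = i + 1 := ⟨j - 1, by omega⟩
          refine ⟨(ev a x c k).prod * ((x ^ (1 : ℤ) * a ^ (1 : ℤ)) *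
            (e ^ i * (x ^ (-1 : ℤ) * a ^ (-1 : ℤ)))), ?_, ?_⟩
          · rw [hr]
            exact mem_block (pre_append_left _ _ (du_pre' hc he c i (by omega)))
          · have hq : (ev a x c k).prod * ((x ^ (1 : ℤ) * a ^ (1 : ℤ)) *
                (e ^ i * (x ^ (-1 : ℤ) * a ^ (-1 : ℤ)))) =
                (ev a x c k).prod * (x ^ (1 : ℤ) * a ^ (1 : ℤ)) * e ^ i *
                (x ^ (-1 : ℤ) * a ^ (-1 : ℤ)) := by simp only [mul_assoc]
            rw [hq, ev_prod hc he, nf_mul hc he, nf_epow hc, nf_mul hc he]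
            have : ((2 * k : ℕ) : ℤ) = 2 * (k : ℤ) + 1 + -1 := by push_cast; ring
            rw [this]
            refine hit_mem hc hx hn _ _ _ _ ?_
            exact ⟨-k, by push_cast; ring⟩
      · obtain ⟨r, hr⟩ := evL_block a x c k M (by omega)
        -- need `1 + i ≡ j` modulo `c + 1`
        obtain ⟨i, hi, hdiv⟩ : ∃ i ≤ c, ((c + 1 : ℕ) : ℤ) ∣ (j : ℤ) - (k * (c + 1) + 1 + i) := by
          rcases Nat.eq_zero_or_pos j with rfl | hj0
          · exact ⟨c, le_refl _, ⟨-k - 1, by push_cast; ring⟩⟩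
          · exact ⟨j - 1, by omega, ⟨-k, by push_cast [Nat.cast_sub hj0]; ring⟩⟩
        refine ⟨(ev a x c k).prod * ((x ^ (1 : ℤ) * a ^ (1 : ℤ)) * e ^ i), ?_, ?_⟩
        · rw [hr]
          exact mem_block (pre_append_left _ _ (du_pre hc he c i hi))
        · have hq : (ev a x c k).prod * ((x ^ (1 : ℤ) * a ^ (1 : ℤ)) * e ^ i) =
              (ev a x c k).prod * (x ^ (1 : ℤ) * a ^ (1 : ℤ)) * e ^ i := by
            simp only [mul_assoc]
          rw [hq, ev_prod hc he, nf_mul hc he, nf_epow hc]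
          have : ((2 * k + 1 : ℕ) : ℤ) = 2 * (k : ℤ) + 1 := by push_cast; ring
          rw [this]
          refine hit_mem hc hx hn _ _ _ _ ?_
          have h2 : (j : ℤ) - (k * (c + 1) + 1 * (0 + 1) + i) = j - (k * (c + 1) + 1 + i) := by ring
          rw [h2]
          exact hdiv

end Pool.Agent.H761J.Nil
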