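import Pool.Agent.H761J.Nil3

/-!
# The base walk: an odd number of levels
-/

namespace Pool.Agent.H761J.Nil

open Pool.Agent.H761J.Ham

variable {G : Type*} [Group G]

/-- the power of `x` after `k` levels -/
def sg (i0 k : ℕ) : ℤ := if k ≤ i0 then k else k - 2

/-- the step of the power of `x` -/
def eta (i0 k : ℕ) : ℤ := if k = i0 then -1 else 1

/-- the power of `e` after `k` levels -/
def ta (b i0 : ℕ) : ℕ → ℤ
  | 0 => 0
  | k + 1 => ta b i0 k + sg i0 (k + 1) + b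

theorem sg_succ (i0 k : ℕ) : sg i0 (k + 1) = sg i0 k + eta i0 k := by
  unfold sg eta
  split_ifs <;> push_cast <;> omega

theorem eta_cases (i0 k : ℕ) : eta i0 k = 1 ∨ eta i0 k = -1 := by
  unfold eta
  split_ifs
  · exact Or.inr rfl
  · exact Or.inl rfl

theorem ta_closed (b i0 k : ℕ) :
    2 * ta b i0 k = 2 * b * k + k * (k + 1) - 4 * (if k ≤ i0 then 0 else (k : ℤ) - i0) := by
  induction k with
  | zero => simp [ta]
  | succ k ih =>
    rw [ta, mul_add, mul_add, ih]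
    unfold sg
    rcases lt_trichotomy k i0 with h | h | h
    · rw [if_pos (by omega), if_pos (by omega), if_pos (by omega)]
      push_cast; ring
    · subst h
      rw [if_pos (by omega), if_neg (by omega), if_neg (by omega)]
      push_cast; ring
    · rw [if_neg (by omega), if_neg (by omega), if_neg (by omega)]
      push_cast; ring

/-- `k` levels -/
def od (a x : G) (b i0 : ℕ) : ℕ → List G
  | 0 => []
  | k + 1 => od a x b i0 k ++ ((x ^ (eta i0 k) * a ^ (1 : ℤ)) :: du a x b)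

theorem od_prod {a x e : G} (hc : ∀ z : G, e * z = z * e) (he : x * a = a * x * e)
    (b i0 k : ℕ) : (od a x b i0 k).prod = nf a x e k (ta b i0 k) (sg i0 k) := by
  induction k with
  | zero => simp [od, nf, ta, sg]
  | succ k ih =>
    simp only [od, List.prod_append, List.prod_cons]
    rw [ih, du_prod hc he, ← mul_assoc, nf_mul hc he, nf_epow hc, ta, sg_succ]
    congr 1
    ring

theorem od_length (a x : G) (b i0 k : ℕ) : (od a x b i0 k).length = k * (2 * b + 1) := by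
  induction k with
  | zero => simp [od]
  | succ k ih =>
    simp only [od, List.length_append, List.length_cons, du_length, ih]
    ring

theorem od_prefix (a x : G) (b i0 k M : ℕ) (h : k ≤ M) :
    ∃ r, od a x b i0 M = od a x b i0 k ++ r := by
  induction M with
  | zero => obtain rfl : k = 0 := by omega
            exact ⟨[], by simp⟩
  | succ M ih =>
    rcases Nat.lt_or_ge M k with hk | hk
    · obtain rfl : k = M + 1 := by omega
      exact ⟨[], by simp⟩
    · obtain ⟨r, hr⟩ := ih hk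
      refine ⟨r ++ ((x ^ (eta i0 M) * a ^ (1 : ℤ)) :: du a x b), ?_⟩
      rw [od, hr, List.append_assoc]

theorem od_block (a x : G) (b i0 k M : ℕ) (h : k < M) :
    ∃ r, od a x b i0 M = od a x b i0 k ++ ((x ^ (eta i0 k) * a ^ (1 : ℤ)) :: (du a x b ++ r)) := by
  obtain ⟨r, hr⟩ := od_prefix a x b i0 (k + 1) M h
  refine ⟨r, ?_⟩
  rw [hr, od, List.append_assoc, List.cons_append]

theorem od_step {a x : G} {b i0 k : ℕ} : ∀ t ∈ od a x b i0 k, Step a x t := by
  induction k with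
  | zero => intro t ht; simp [od] at ht
  | succ k ih =>
    intro t ht
    simp only [od, List.mem_append, List.mem_cons] at ht
    rcases ht with ht | rfl | ht
    · exact ih t ht
    · exact step_of (eta_cases i0 k) (Or.inl rfl)
    · exact du_step t ht

variable {H : Subgroup G}

theorem odd_hits {a x e : G} (hc : ∀ z : G, e * z = z * e) (he : x * a = a * x * e)
    (hx : x ∈ H) {b i0 M : ℕ}
    (hn : ∀ z : ℤ, e ^ z ∈ H ↔ ((2 * b + 1 : ℕ) : ℤ) ∣ z)
    (κ : ℤ) (hM : a ^ ((M + 1 : ℕ) : ℤ) * e ^ (-κ) ∈ H)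
    (hκ : ((2 * b + 1 : ℕ) : ℤ) ∣ ta b i0 (M + 1) + κ)
    (L : List G)
    (hS1 : ∀ p < M, ∃ r, L = od a x b i0 p ++
      ((x ^ (eta i0 p) * a ^ (1 : ℤ)) :: (du a x b ++ r)))
    (hS2 : 0 < b → ∀ p ≤ M, ∃ r, L = od a x b i0 p ++ ((x ^ (eta i0 p) * a ^ (1 : ℤ)) :: r) ∧
      (∀ i < b, e ^ i ∈ pre r) ∧ (∀ i < b, e ^ i * (x ^ (-1 : ℤ) * a ^ (-1 : ℤ)) ∈ pre r))
    (i : Fin (M + 1) × Fin (2 * b + 1)) :
    ∃ q ∈ pre L, q⁻¹ * (a ^ ((i.1 : ℕ) : ℤ) * e ^ ((i.2 : ℕ) : ℤ)) ∈ H := by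
  obtain ⟨⟨p, hp⟩, ⟨j, hj⟩⟩ := i
  simp only
  have hb' : ((2 * b + 1 : ℕ) : ℤ) = 2 * b + 1 := by push_cast; ring
  have key1 : ∀ p i : ℕ, (od a x b i0 p).prod * ((x ^ (eta i0 p) * a ^ (1 : ℤ)) * e ^ i) =
      nf a x e (p + 1 : ℕ) (ta b i0 p + sg i0 (p + 1) + i) (sg i0 (p + 1)) := by
    intro p i
    rw [← mul_assoc, od_prod hc he, nf_mul hc he, nf_epow hc, sg_succ]
    congr 1
    ring
  have key2 : ∀ p i : ℕ, (od a x b i0 p).prod * ((x ^ (eta i0 p) * a ^ (1 : ℤ)) *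
      (e ^ i * (x ^ (-1 : ℤ) * a ^ (-1 : ℤ)))) =
      nf a x e p (ta b i0 p + 1 + i) (sg i0 (p + 1) - 1) := by
    intro p i
    have h1 : (od a x b i0 p).prod * ((x ^ (eta i0 p) * a ^ (1 : ℤ)) *
      (e ^ i * (x ^ (-1 : ℤ) * a ^ (-1 : ℤ)))) = (od a x b i0 p).prod *
        ((x ^ (eta i0 p) * a ^ (1 : ℤ)) * e ^ i) * (x ^ (-1 : ℤ) * a ^ (-1 : ℤ)) := by
      simp only [mul_assoc]
    rw [h1, key1, nf_mul hc he]
    congr 1
    · push_cast; ring
    · ring
  rcases Nat.eq_zero_or_pos p with rfl | hp0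
  · -- level zero
    rcases Nat.lt_or_ge b j with hbj | hbj
    · obtain ⟨i, rfl⟩ : ∃ i, j = b + 1 + i := ⟨j - (b + 1), by omega⟩
      obtain ⟨r, hr, hr1, -⟩ := hS2 (by omega) M (le_refl _)
      refine ⟨(od a x b i0 M).prod * ((x ^ (eta i0 M) * a ^ (1 : ℤ)) * e ^ i), ?_, ?_⟩
      · rw [hr]
        exact mem_block (hr1 i (by omega))
      · rw [key1]
        have := hit_mem' hc hx hn ((M + 1 : ℕ) : ℤ) κ hM (ta b i0 M + sg i0 (M + 1) + i)
          (sg i0 (M + 1)) ((b + 1 + i : ℕ) : ℤ) ?_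
        · exact this
        · have h2 : (((b + 1 + i : ℕ) : ℤ) - (ta b i0 M + sg i0 (M + 1) + i) - κ) =
              ((2 * b + 1 : ℕ) : ℤ) - (ta b i0 (M + 1) + κ) := by
            rw [ta]; push_cast; ring
          rw [h2]
          exact dvd_sub (dvd_refl _) hκ
    · rcases Nat.eq_zero_or_pos j with rfl | hj0
      · refine ⟨1, one_mem_pre _, ?_⟩
        simp [H.one_mem]
      · obtain ⟨i, rfl⟩ : ∃ i, j = i + 1 := ⟨j - 1, by omega⟩
        obtain ⟨r, hr, -, hr2⟩ := hS2 (by omega) 0 (by omega)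
        refine ⟨(od a x b i0 0).prod * ((x ^ (eta i0 0) * a ^ (1 : ℤ)) *
          (e ^ i * (x ^ (-1 : ℤ) * a ^ (-1 : ℤ)))), ?_, ?_⟩
        · rw [hr]
          exact mem_block (hr2 i (by omega))
        · rw [key2]
          refine hit_mem hc hx hn _ _ _ _ ?_
          refine ⟨0, ?_⟩
          simp only [ta]
          push_cast; ring
  · -- positive level
    obtain ⟨p, rfl⟩ : ∃ p', p = p' + 1 := ⟨p - 1, by omega⟩
    set R : ℤ := ta b i0 p + sg i0 (p + 1) with hR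
    set r : ℤ := (j - R) % ((2 * b + 1 : ℕ) : ℤ) with hr
    have hr0 : 0 ≤ r := Int.emod_nonneg _ (by omega)
    have hrn : r < ((2 * b + 1 : ℕ) : ℤ) := Int.emod_lt_of_pos _ (by omega)
    have hrd : ((2 * b + 1 : ℕ) : ℤ) ∣ j - R - r := by
      rw [hr]; exact Int.dvd_self_sub_emod
    obtain ⟨i, hi⟩ : ∃ i : ℕ, r = i := ⟨r.toNat, by omega⟩
    rcases Nat.lt_or_ge b i with hbi | hbi
    · obtain ⟨i', rfl⟩ : ∃ i', i = b + 1 + i' := ⟨i - (b + 1), by omega⟩
      obtain ⟨s, hs, -, hs2⟩ := hS2 (by omega) (p + 1) (by omega)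
      refine ⟨(od a x b i0 (p + 1)).prod * ((x ^ (eta i0 (p + 1)) * a ^ (1 : ℤ)) *
          (e ^ i' * (x ^ (-1 : ℤ) * a ^ (-1 : ℤ)))), ?_, ?_⟩
      · rw [hs]
        exact mem_block (hs2 i' (by omega))
      · rw [key2]
        refine hit_mem hc hx hn _ _ _ _ ?_
        have h2 : (j : ℤ) - (ta b i0 (p + 1) + 1 + i') = j - R - r := by
          rw [hi, hR, ta]; push_cast; ring
        rw [h2]
        exact hrd
    · obtain ⟨s, hs⟩ := hS1 p (by omega)
      refine ⟨(od a x b i0 p).prod * ((x ^ (eta i0 p) * a ^ (1 : ℤ)) * e ^ i), ?_, ?_⟩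
      · rw [hs]
        exact mem_block (pre_append_left _ _ (du_pre hc he b i hbi))
      · rw [key1]
        refine hit_mem hc hx hn _ _ _ _ ?_
        rw [← hR, ← hi]
        have h2 : (j : ℤ) - (R + r) = j - R - r := by ring
        rw [h2]
        exact hrd

theorem base_odd {a x e : G} (hc : ∀ z : G, e * z = z * e) (he : x * a = a * x * e)
    (hx : x ∈ H) {b M : ℕ} (hM0 : 0 < M) (hMe : ¬ Even (M + 1))
    (hdvd : ((2 * b + 1 : ℕ) : ℤ) ∣ ((M + 1 : ℕ) : ℤ))
    (hn : ∀ z : ℤ, e ^ z ∈ H ↔ ((2 * b + 1 : ℕ) : ℤ) ∣ z)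
    (hm : ∀ I : ℤ, (∃ k : ℤ, a ^ I * e ^ k ∈ H) → ((M + 1 : ℕ) : ℤ) ∣ I)
    (κ : ℤ) (hM : a ^ ((M + 1 : ℕ) : ℤ) * e ^ (-κ) ∈ H) :
    ∃ L, Base a x e H (M + 1) L := by
  set n : ℤ := ((2 * b + 1 : ℕ) : ℤ) with hnn
  have hnb : n = 2 * b + 1 := by rw [hnn]; push_cast; ring
  obtain ⟨i0, hi0, hi0n⟩ : ∃ i0 : ℕ, (i0 : ℤ) < n ∧ n ∣ 2 * (i0 : ℤ) + κ := by
    refine ⟨((-κ * (b + 1)) % n).toNat, ?_, ?_⟩
    · have h1 : 0 ≤ (-κ * (b + 1)) % n := Int.emod_nonneg _ (by omega)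
      have h2 : (-κ * (b + 1)) % n < n := Int.emod_lt_of_pos _ (by omega)
      omega
    · have h1 : 0 ≤ (-κ * (b + 1)) % n := Int.emod_nonneg _ (by omega)
      rw [Int.toNat_of_nonneg h1]
      have h2 : n ∣ (-κ * (b + 1)) - (-κ * (b + 1)) % n := Int.dvd_self_sub_emod
      obtain ⟨t, ht⟩ := h2
      refine ⟨-κ - 2 * t, ?_⟩
      have h3 : (-κ * (b + 1)) % n = (-κ * (b + 1)) - n * t := by linarith
      rw [h3]
      have h4 : n * (-κ) = -κ * (2 * b + 1) := by rw [hnb]; ring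
      linear_combination -h4
  have hi0M : i0 < M + 1 := by
    have := Int.le_of_dvd (by omega) hdvd
    omega
  have hκ : n ∣ ta b i0 (M + 1) + κ := by
    have h1 := ta_closed b i0 (M + 1)
    rw [if_neg (by omega)] at h1
    obtain ⟨t, ht⟩ := hdvd
    obtain ⟨u, hu⟩ := hi0n
    have hodd : IsCoprime n 2 := by
      refine ⟨1, -b, ?_⟩
      rw [hnb]; ring
    apply hodd.dvd_of_dvd_mul_left
    refine ⟨t * (2 * b + (M + 2)) - 4 * t + 2 * u, ?_⟩
    have h2 : 2 * (ta b i0 (M + 1) + κ) =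
        ((M + 1 : ℕ) : ℤ) * (2 * b + (M + 2)) - 4 * ((M + 1 : ℕ) : ℤ) + 2 * (2 * i0 + κ) := by
      rw [mul_add, h1]
      push_cast
      ring
    rw [h2, ht, hu]
    ring
  -- the list
  obtain ⟨L, hL1, hL2, hLlen, hLstep, hLhd, hLprod⟩ : ∃ L : List G,
      (∀ p < M, ∃ r, L = od a x b i0 p ++
        ((x ^ (eta i0 p) * a ^ (1 : ℤ)) :: (du a x b ++ r))) ∧
      (0 < b → ∀ p ≤ M, ∃ r, L = od a x b i0 p ++ ((x ^ (eta i0 p) * a ^ (1 : ℤ)) :: r) ∧
        (∀ i < b, e ^ i ∈ pre r) ∧ (∀ i < b, e ^ i * (x ^ (-1 : ℤ) * a ^ (-1 : ℤ)) ∈ pre r)) ∧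
      L.length + 1 = (M + 1) * (2 * b + 1) ∧ (∀ t ∈ L, Step a x t) ∧
      (∃ w L', L = (w * a) :: L' ∧ (w = x ∨ w = x⁻¹)) ∧
      (∃ j s : ℤ, L.prod = nf a x e M j s) := by
    have hhead : ∀ r : List G, (∃ w L', x ^ (eta i0 0) * a ^ (1 : ℤ) :: r = (w * a) :: L' ∧
        (w = x ∨ w = x⁻¹)) := by
      intro r
      refine ⟨x ^ (eta i0 0), r, by rw [zpow_one], ?_⟩
      rcases eta_cases i0 0 with h | h
      · left; rw [h, zpow_one]
      · right; rw [h, zpow_neg_one]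
    rcases Nat.eq_zero_or_pos b with rfl | hb
    · refine ⟨od a x 0 i0 M, fun p hp => od_block a x 0 i0 p M hp, fun h => absurd h (lt_irrefl _),
        ?_, od_step, ?_, ⟨_, _, od_prod hc he 0 i0 M⟩⟩
      · rw [od_length]; ring
      · obtain ⟨r, hr⟩ := od_block a x 0 i0 0 M hM0
        rw [hr]
        exact hhead _
    · obtain ⟨c, rfl⟩ : ∃ c, b = c + 1 := ⟨b - 1, by omega⟩
      set L : List G := od a x (c + 1) i0 M ++ ((x ^ (eta i0 M) * a ^ (1 : ℤ)) ::
        (du a x c ++ [x ^ (-1 : ℤ) * a ^ (-1 : ℤ)])) with hL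
      have hb1 : ∀ p < M, ∃ r, L = od a x (c + 1) i0 p ++
        ((x ^ (eta i0 p) * a ^ (1 : ℤ)) :: (du a x (c + 1) ++ r)) := by
        intro p hp
        obtain ⟨r, hr⟩ := od_block a x (c + 1) i0 p M hp
        refine ⟨r ++ ((x ^ (eta i0 M) * a ^ (1 : ℤ)) ::
          (du a x c ++ [x ^ (-1 : ℤ) * a ^ (-1 : ℤ)])), ?_⟩
        rw [hL, hr]
        simp only [List.append_assoc, List.cons_append]
      refine ⟨L, hb1, ?_, ?_, ?_, ?_, ?_⟩
      · intro _ p hp
        rcases Nat.lt_or_ge p M with h | h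
        · obtain ⟨r, hr⟩ := hb1 p h
          refine ⟨_, hr, fun i hi => pre_append_left _ _ (du_pre hc he (c + 1) i (by omega)),
            fun i hi => pre_append_left _ _ (du_pre' hc he (c + 1) i hi)⟩
        · obtain rfl : p = M := by omega
          refine ⟨_, hL, fun i hi => pre_append_left _ _ (du_pre hc he c i (by omega)), ?_⟩
          intro i hi
          rcases Nat.lt_or_ge i c with hic | hic
          · exact pre_append_left _ _ (du_pre' hc he c i hic)
          · obtain rfl : i = c := by omega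
            rw [← du_prod hc he i]
            apply pre_append'
            simp [pre]
      · rw [hL]
        simp only [List.length_append, List.length_cons, List.length_nil, du_length, od_length]
        ring
      · intro t ht
        rw [hL] at ht
        simp only [List.mem_append, List.mem_cons, List.not_mem_nil, or_false] at ht
        rcases ht with ht | rfl | ht | rfl
        · exact od_step t ht
        · exact step_of (eta_cases i0 M) (Or.inl rfl)
        · exact du_step t ht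
        · exact step_of (Or.inr rfl) (Or.inr rfl)
      · obtain ⟨r, hr⟩ := hb1 0 hM0
        rw [hr]
        exact hhead _
      · have h1 : L.prod = (od a x (c + 1) i0 M).prod * (x ^ (eta i0 M) * a ^ (1 : ℤ)) *
            e ^ c * (x ^ (-1 : ℤ) * a ^ (-1 : ℤ)) := by
          rw [hL, List.prod_append, List.prod_cons, List.prod_append, du_prod hc he]
          simp only [List.prod_cons, List.prod_nil, mul_one, mul_assoc]
        refine ⟨ta (c + 1) i0 M + 1 * (sg i0 M + eta i0 M) + c +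
          -1 * (sg i0 M + eta i0 M + -1), sg i0 M + eta i0 M + -1, ?_⟩
        rw [h1, od_prod hc he, nf_mul hc he, nf_epow hc, nf_mul hc he]
        congr 1
        ring
  refine ⟨L, hLstep, hLhd, ?_, ?_⟩
  · obtain ⟨j, s, h⟩ := hLprod
    refine ⟨j, s, ?_⟩
    rw [h]
    congr 1
    push_cast; ring
  · refine (cov_of_hits (ι := Fin (M + 1) × Fin (2 * b + 1))
      (fun i => a ^ ((i.1 : ℕ) : ℤ) * e ^ ((i.2 : ℕ) : ℤ)) ?_ (dist_rep hc hn hm) ?_).congr
      (fun g => cosets hc he hx (by omega) (by omega) hn κ hM g)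
    · simp only [Fintype.card_prod, Fintype.card_fin, hLlen]
    · exact odd_hits hc he hx hn κ hM hκ L hL1 hL2

end Pool.Agent.H761J.Nil
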