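import Pool.Agent.H761J.Nil4

/-!
# Walks over the cosets of a subgroup `H` in `⟨H, a⟩`, for groups of nilpotency class two
-/

namespace Pool.Agent.H761J.Nil

open Pool.Agent.H761J.Ham

variable {G : Type*} [Group G]

/-- the base walk, for all parities -/
theorem base_exists [Finite G] {a x e : G} (hc : ∀ z : G, e * z = z * e)
    (he : x * a = a * x * e) {H : Subgroup G} (hx : x ∈ H) (ha : a ∉ H) :
    ∃ L : List G, (∀ t ∈ L, Step a x t) ∧ (∃ w L', L = (w * a) :: L' ∧ (w = x ∨ w = x⁻¹)) ∧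
      (∀ E : Subgroup G, H ≤ E → e ∈ E → L.prod * a ∈ E) ∧
      Cov H L {g | ∃ γ ∈ Subgroup.closure {a, x}, γ⁻¹ * g ∈ H} := by
  have hce : ∀ (z : G) (k : ℤ), e ^ k * z = z * e ^ k := fun z k =>
    ((show Commute e z from hc z).zpow_left k)
  -- the two subgroups of the integers
  let P1 : AddSubgroup ℤ :=
    { carrier := {z | e ^ z ∈ H}
      add_mem' := by
        intro p q hp hq
        simp only [Set.mem_ofPred_eq] at hp hq ⊢
        rw [zpow_add]; exact H.mul_mem hp hq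
      zero_mem' := by simp [H.one_mem]
      neg_mem' := by
        intro p hp
        simp only [Set.mem_ofPred_eq] at hp ⊢
        rw [zpow_neg]; exact H.inv_mem hp }
  let P2 : AddSubgroup ℤ :=
    { carrier := {z | ∃ k : ℤ, a ^ z * e ^ k ∈ H}
      add_mem' := by
        rintro p q ⟨k, hp⟩ ⟨l, hq⟩
        refine ⟨k + l, ?_⟩
        have : a ^ (p + q) * e ^ (k + l) = (a ^ p * e ^ k) * (a ^ q * e ^ l) := by
          rw [zpow_add, zpow_add, mul_assoc (a ^ p) (e ^ k), ← mul_assoc (e ^ k) (a ^ q),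
            hce (a ^ q) k]
          simp only [mul_assoc]
        rw [this]; exact H.mul_mem hp hq
      zero_mem' := ⟨0, by simp [H.one_mem]⟩
      neg_mem' := by
        rintro p ⟨k, hp⟩
        refine ⟨-k, ?_⟩
        have : a ^ (-p) * e ^ (-k) = (a ^ p * e ^ k)⁻¹ := by
          rw [mul_inv_rev, zpow_neg, ← hce (a ^ p)⁻¹ (-k), zpow_neg]
        rw [this]; exact H.inv_mem hp }
  obtain ⟨n, hn0, hn⟩ := int_sub P1 (orderOf e : ℤ)
    (by change e ^ (orderOf e : ℤ) ∈ H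
        rw [zpow_natCast, pow_orderOf_eq_one]; exact H.one_mem)
    (by have := orderOf_pos e; omega)
  obtain ⟨m, hm0, hm⟩ := int_sub P2 (orderOf a : ℤ)
    ⟨0, by rw [zpow_natCast, pow_orderOf_eq_one, zpow_zero, one_mul]; exact H.one_mem⟩
    (by have := orderOf_pos a; omega)
  have hn' : ∀ z : ℤ, e ^ z ∈ H ↔ (n : ℤ) ∣ z := hn
  have hm' : ∀ I : ℤ, (∃ k : ℤ, a ^ I * e ^ k ∈ H) → (m : ℤ) ∣ I := fun I h => (hm I).1 h
  obtain ⟨κ', hκ'⟩ : ∃ k : ℤ, a ^ (m : ℤ) * e ^ k ∈ H := (hm (m : ℤ)).2 (dvd_refl _)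
  obtain ⟨κ, rfl⟩ : ∃ κ, κ' = -κ := ⟨-κ', by ring⟩
  -- `n ∣ m`
  have hnm : (n : ℤ) ∣ (m : ℤ) := by
    rw [← hn']
    have h1 := zcomm hc he 1 (m : ℤ)
    rw [zpow_one, one_mul] at h1
    have h2 : e ^ (m : ℤ) = x⁻¹ * (a ^ (m : ℤ) * e ^ (-κ))⁻¹ * x * (a ^ (m : ℤ) * e ^ (-κ)) := by
      have h3 : x⁻¹ * (a ^ (m : ℤ) * e ^ (-κ))⁻¹ * x * (a ^ (m : ℤ) * e ^ (-κ)) =
          x⁻¹ * ((e ^ (-κ))⁻¹ * ((a ^ (m : ℤ))⁻¹ * (x * a ^ (m : ℤ)))) * e ^ (-κ) := by group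
      rw [h3, h1]
      have h4 : (a ^ (m : ℤ))⁻¹ * (a ^ (m : ℤ) * x * e ^ (m : ℤ)) = x * e ^ (m : ℤ) := by group
      rw [h4]
      have h5 : (e ^ (-κ))⁻¹ = e ^ κ := by rw [zpow_neg, inv_inv]
      rw [h5, ← mul_assoc (e ^ κ), hce x κ]
      have h6 : x⁻¹ * (x * e ^ κ * e ^ (m : ℤ)) * e ^ (-κ) = e ^ κ * e ^ (m : ℤ) * e ^ (-κ) := by
        group
      rw [h6, ← zpow_add, ← zpow_add]
      congr 1; ring
    rw [h2]
    exact H.mul_mem (H.mul_mem (H.mul_mem (H.inv_mem hx) (H.inv_mem hκ')) hx) hκ'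
  -- the walk
  obtain ⟨L, hL⟩ : ∃ L, Base a x e H m L := by
    rcases Nat.even_or_odd m with hme | hmo
    · obtain ⟨M, rfl⟩ : ∃ M, m = 2 * (M + 1) := by
        obtain ⟨r, hr⟩ := hme
        exact ⟨r - 1, by omega⟩
      exact base_even hc he hx hn0 hn' hm' κ hκ'
    · have hnodd : Odd n := by
        have h1 : n ∣ m := by exact_mod_cast hnm
        exact Odd.of_dvd_nat hmo h1
      obtain ⟨b, rfl⟩ := hnodd
      obtain ⟨M, rfl⟩ : ∃ M, m = M + 1 := ⟨m - 1, by omega⟩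
      refine base_odd hc he hx ?_ (Nat.not_even_iff_odd.2 hmo) hnm hn' hm' κ hκ'
      rcases Nat.eq_zero_or_pos M with rfl | h
      · exfalso
        have h1 : b = 0 := by
          have := Int.le_of_dvd (by norm_num) hnm
          push_cast at this
          omega
        subst h1
        have h2 : e ^ κ ∈ H := (hn' κ).2 (by simp)
        apply ha
        have h3 : a = a ^ (((0 + 1 : ℕ)) : ℤ) * e ^ (-κ) * e ^ κ := by
          rw [mul_assoc, ← zpow_add]; simp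
        rw [h3]
        exact H.mul_mem hκ' h2
      · exact h
  refine ⟨L, hL.step, hL.hd, ?_, hL.cov⟩
  intro E hHE heE
  obtain ⟨j, s, hp⟩ := hL.prod
  have h1 : L.prod * a = nf a x e (m - 1) j s * (x ^ (0 : ℤ) * a ^ (1 : ℤ)) := by
    rw [hp, zpow_zero, one_mul, zpow_one]
  rw [h1, nf_mul hc he]
  have h2 : nf a x e ((m : ℤ) - 1 + 1) (j + 1 * (s + 0)) (s + 0) =
      (a ^ (m : ℤ) * e ^ (-κ)) * (e ^ (κ + j + s) * x ^ s) := by
    unfold nf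
    have h3 : e ^ (κ + j + s) = e ^ κ * e ^ (j + s) := by rw [← zpow_add]; congr 1; ring
    rw [h3]
    have h4 : (m : ℤ) - 1 + 1 = m := by ring
    have h5 : j + 1 * (s + 0) = j + s := by ring
    rw [h4, h5, add_zero]
    have h6 : a ^ (m : ℤ) * e ^ (-κ) * (e ^ κ * e ^ (j + s) * x ^ s) =
        a ^ (m : ℤ) * (e ^ (-κ) * e ^ κ) * e ^ (j + s) * x ^ s := by simp only [mul_assoc]
    rw [h6, ← zpow_add, neg_add_cancel, zpow_zero, mul_one]
  rw [h2]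
  exact E.mul_mem (hHE hκ') (E.mul_mem (E.zpow_mem heE _) (hHE (H.zpow_mem hx _)))

/-- the state of the nested construction -/
structure St (H : Subgroup G) (W : Set G) (a : G) (Γ : Subgroup G) (L : List G) : Prop where
  ha : a ∈ Γ
  le : Γ ≤ Subgroup.closure ((H : Set G) ∪ {a})
  step : ∀ t ∈ L, ∃ w ∈ W, t = w * a ∨ t = w * a⁻¹
  hd : ∃ w L', L = (w * a) :: L' ∧ w ∈ W ∧ w ∈ Γ
  prod : L.prod ∈ Γ
  cov : Cov H L {g | ∃ γ ∈ Γ, γ⁻¹ * g ∈ H}
  X : ∀ E : Subgroup G, H ≤ E → (∀ g ∈ E, a⁻¹ * g * a ∈ E) → L.prod * a ∈ E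

theorem st_base [Finite G] (hZ : ∀ g h z : G, (g⁻¹ * h⁻¹ * g * h) * z = z * (g⁻¹ * h⁻¹ * g * h))
    {H : Subgroup G} {W : Set G} (hWH : W ⊆ H) (hWi : ∀ w ∈ W, w⁻¹ ∈ W) (hW0 : W.Nonempty)
    {a : G} (ha : a ∉ H) : ∃ Γ L, St H W a Γ L := by
  obtain ⟨x, hxW⟩ := hW0
  have hx : x ∈ H := hWH hxW
  set e : G := x⁻¹ * a⁻¹ * x * a with he0
  have he : x * a = a * x * e := by rw [he0]; group
  have hc : ∀ z, e * z = z * e := hZ x a
  obtain ⟨L, hL1, ⟨w, L', hL2, hw⟩, hL3, hL4⟩ := base_exists hc he hx ha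
  have haΓ : a ∈ Subgroup.closure {a, x} := Subgroup.subset_closure (by simp)
  have hxΓ : x ∈ Subgroup.closure {a, x} := Subgroup.subset_closure (by simp)
  have hstepΓ : ∀ t ∈ L, t ∈ Subgroup.closure {a, x} := by
    intro t ht
    obtain ⟨w, hw, ht⟩ := hL1 t ht
    have hwΓ : w ∈ Subgroup.closure {a, x} := by
      rcases hw with rfl | rfl
      · exact hxΓ
      · exact Subgroup.inv_mem _ hxΓ
    rcases ht with rfl | rfl
    · exact Subgroup.mul_mem _ hwΓ haΓ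
    · exact Subgroup.mul_mem _ hwΓ (Subgroup.inv_mem _ haΓ)
  refine ⟨Subgroup.closure {a, x}, L, haΓ, ?_, ?_, ⟨w, L', hL2, ?_, ?_⟩, ?_, hL4, ?_⟩
  · rw [Subgroup.closure_le]
    intro z hz
    rcases hz with rfl | hz
    · exact Subgroup.subset_closure (by simp)
    · rw [Set.mem_singleton_iff] at hz
      subst hz
      exact Subgroup.subset_closure (Or.inl hx)
  · intro t ht
    obtain ⟨w, hw, ht⟩ := hL1 t ht
    refine ⟨w, ?_, ht⟩
    rcases hw with rfl | rfl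
    · exact hxW
    · exact hWi _ hxW
  · rcases hw with rfl | rfl
    · exact hxW
    · exact hWi _ hxW
  · rcases hw with rfl | rfl
    · exact hxΓ
    · exact Subgroup.inv_mem _ hxΓ
  · exact Subgroup.list_prod_mem _ hstepΓ
  · intro E hHE hE
    apply hL3 E hHE
    rw [he0]
    have : x⁻¹ * a⁻¹ * x * a = x⁻¹ * (a⁻¹ * x * a) := by group
    rw [this]
    exact E.mul_mem (E.inv_mem (hHE hx)) (hE x (hHE hx))

/-- changing the first block -/
theorem cov_head {U : Subgroup G} {w₁ w a : G} (hw₁ : w₁ ∈ U) (hw : w ∈ U) {L' : List G}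
    {S : Set G} (h : Cov U ((w₁ * a) :: L') S) :
    Cov U ((w⁻¹ * a) :: L') {g | (w₁ * w) * g ∈ S} := by
  obtain ⟨h1, h2⟩ := h
  have hh : w₁ * w ∈ U := U.mul_mem hw₁ hw
  simp only [pre, List.pairwise_cons, List.pairwise_map, List.mem_map] at h1
  obtain ⟨h1a, h1b⟩ := h1
  constructor
  · simp only [pre, List.pairwise_cons, List.pairwise_map, List.mem_map]
    constructor
    · rintro q ⟨q', hq', rfl⟩ hq
      apply h1a (w₁ * a * q') ⟨q', hq', rfl⟩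
      have : (1 : G)⁻¹ * (w₁ * a * q') = (w₁ * w) * ((1 : G)⁻¹ * (w⁻¹ * a * q')) := by group
      rw [this]
      exact U.mul_mem hh hq
    · refine h1b.imp ?_
      intro p q hpq
      have : (w⁻¹ * a * p)⁻¹ * (w⁻¹ * a * q) = (w₁ * a * p)⁻¹ * (w₁ * a * q) := by group
      rw [this]
      exact hpq
  · intro g
    simp only [Set.mem_ofPred_eq]
    rw [h2]
    simp only [pre, List.mem_cons, List.mem_map]
    constructor
    · rintro ⟨p, rfl | ⟨q, hq, rfl⟩, hp⟩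
      · refine ⟨1, Or.inl rfl, ?_⟩
        have : (1 : G)⁻¹ * g = (w₁ * w)⁻¹ * ((1 : G)⁻¹ * (w₁ * w * g)) := by group
        rw [this]
        exact U.mul_mem (U.inv_mem hh) hp
      · refine ⟨w⁻¹ * a * q, Or.inr ⟨q, hq, rfl⟩, ?_⟩
        have : (w⁻¹ * a * q)⁻¹ * g = (w₁ * a * q)⁻¹ * (w₁ * w * g) := by group
        rw [this]
        exact hp
    · rintro ⟨p, rfl | ⟨q, hq, rfl⟩, hp⟩
      · refine ⟨1, Or.inl rfl, ?_⟩
        have : (1 : G)⁻¹ * (w₁ * w * g) = (w₁ * w) * ((1 : G)⁻¹ * g) := by group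
        rw [this]
        exact U.mul_mem hh hp
      · refine ⟨w₁ * a * q, Or.inr ⟨q, hq, rfl⟩, ?_⟩
        have : (w₁ * a * q)⁻¹ * (w₁ * w * g) = (w⁻¹ * a * q)⁻¹ * g := by group
        rw [this]
        exact hp

/-- the nested step -/
theorem st_step [Finite G] (hZ : ∀ g h z : G, (g⁻¹ * h⁻¹ * g * h) * z = z * (g⁻¹ * h⁻¹ * g * h))
    {H : Subgroup G} {W : Set G} (hWH : W ⊆ H) (hWi : ∀ w ∈ W, w⁻¹ ∈ W)
    {a : G} {Γ : Subgroup G} {L : List G} (hS : St H W a Γ L) {w : G} (hw : w ∈ W) :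
    ∃ Γ' L', St H W a Γ' L' ∧ Γ ≤ Γ' ∧ w⁻¹ * a⁻¹ * w * a ∈ Γ' := by
  set f : G := w⁻¹ * a⁻¹ * w * a with hf
  have hc : ∀ z, f * z = z * f := hZ w a
  have hcf : ∀ (z : G) (k : ℤ), f ^ k * z = z * f ^ k := fun z k =>
    ((show Commute f z from hc z).zpow_left k)
  have hcn : ∀ (z : G) (k : ℕ), f ^ k * z = z * f ^ k := fun z k =>
    ((show Commute f z from hc z).pow_left k)
  obtain ⟨w₁, L', hL, hw₁W, hw₁Γ⟩ := hS.hd
  -- the integers `j` with `f ^ j ∈ Γ H`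
  let P : AddSubgroup ℤ :=
    { carrier := {j | ∃ γ ∈ Γ, γ⁻¹ * f ^ j ∈ H}
      add_mem' := by
        rintro p q ⟨γ, hγ, hp⟩ ⟨δ, hδ, hq⟩
        refine ⟨δ * γ, Γ.mul_mem hδ hγ, ?_⟩
        have : (δ * γ)⁻¹ * f ^ (p + q) = (γ⁻¹ * f ^ p) * (δ⁻¹ * f ^ q) := by
          rw [zpow_add, mul_inv_rev]
          calc γ⁻¹ * δ⁻¹ * (f ^ p * f ^ q) = γ⁻¹ * (δ⁻¹ * f ^ p) * f ^ q := by
                simp only [mul_assoc]
            _ = γ⁻¹ * (f ^ p * δ⁻¹) * f ^ q := by rw [hcf]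
            _ = _ := by simp only [mul_assoc]
        rw [this]
        exact H.mul_mem hp hq
      zero_mem' := ⟨1, Γ.one_mem, by simp [H.one_mem]⟩
      neg_mem' := by
        rintro p ⟨γ, hγ, hp⟩
        refine ⟨γ⁻¹, Γ.inv_mem hγ, ?_⟩
        have : γ⁻¹⁻¹ * f ^ (-p) = (γ⁻¹ * f ^ p)⁻¹ := by
          rw [inv_inv, ← hcf, zpow_neg, mul_inv_rev, inv_inv]
        rw [this]
        exact H.inv_mem hp }
  obtain ⟨k₀, hk0, hk⟩ := int_sub P (orderOf f : ℤ)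
    ⟨1, Γ.one_mem, by rw [zpow_natCast, pow_orderOf_eq_one]; simp [H.one_mem]⟩
    (by have := orderOf_pos f; omega)
  have hk' : ∀ j : ℤ, (∃ γ ∈ Γ, γ⁻¹ * f ^ j ∈ H) ↔ (k₀ : ℤ) ∣ j := hk
  -- the iteration
  have hit : ∀ k : ℕ, k < k₀ → ∃ M : List G,
      (∀ t ∈ M, ∃ w ∈ W, t = w * a ∨ t = w * a⁻¹) ∧
      (∃ M', M = (w₁ * a) :: M') ∧
      (∃ γ ∈ Γ, M.prod = f ^ k * γ) ∧
      Cov H M {g | ∃ i : ℕ, i ≤ k ∧ ∃ γ ∈ Γ, γ⁻¹ * ((f ^ i)⁻¹ * g) ∈ H} ∧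
      (∀ E : Subgroup G, H ≤ E → (∀ g ∈ E, a⁻¹ * g * a ∈ E) → M.prod * a ∈ E) := by
    intro k
    induction k with
    | zero =>
      intro _
      refine ⟨L, hS.step, ⟨L', hL⟩, ⟨L.prod, hS.prod, by simp⟩, hS.cov.congr ?_, hS.X⟩
      intro g
      simp only [Set.mem_ofPred_eq]
      constructor
      · rintro ⟨i, hi, γ, hγ, hg⟩
        obtain rfl : i = 0 := by omega
        exact ⟨γ, hγ, by simpa using hg⟩
      · rintro ⟨γ, hγ, hg⟩
        exact ⟨0, le_refl _, γ, hγ, by simpa using hg⟩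
    | succ k ih =>
      intro hklt
      obtain ⟨M, hM1, ⟨M', hM2⟩, ⟨γk, hγk, hM3⟩, hM4, hM5⟩ := ih (by omega)
      have hcov2 := cov_head (hWH hw₁W) (hWH hw) (hL ▸ hS.cov)
      have hwa : w * a * w⁻¹ = a * f := by
        have h1 : w * a = a * w * f := by rw [hf]; group
        rw [h1, mul_assoc, hc w⁻¹]
        group
      have hwa' : w * a⁻¹ * w⁻¹ = a⁻¹ * f⁻¹ := by
        have : w * a⁻¹ * w⁻¹ = (w * a * w⁻¹)⁻¹ := by group
        rw [this, hwa, mul_inv_rev]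
        exact (hcf a⁻¹ (-1) |> fun h => by simpa using h)
      -- the key computation
      have key : ∀ g : G, (w₁ * w) * ((M.prod * (w * a))⁻¹ * g) =
          (w₁ * a⁻¹ * γk⁻¹) * ((f ^ (k + 1))⁻¹ * g) := by
        intro g
        rw [hM3]
        have e1 : (w₁ * w) * ((f ^ k * γk * (w * a))⁻¹ * g) =
            w₁ * (w * a⁻¹ * w⁻¹) * γk⁻¹ * (f ^ k)⁻¹ * g := by group
        rw [e1, hwa']
        have e2 : w₁ * (a⁻¹ * f⁻¹) * γk⁻¹ * (f ^ k)⁻¹ * g =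
            w₁ * a⁻¹ * (f⁻¹ * γk⁻¹) * (f ^ k)⁻¹ * g := by simp only [mul_assoc]
        have e3 : f⁻¹ * γk⁻¹ = γk⁻¹ * f⁻¹ := by
          have := hcf γk⁻¹ (-1); simpa using this
        rw [e2, e3, pow_succ, mul_inv_rev (f ^ k) f]
        simp only [mul_assoc]
      have hconst : w₁ * a⁻¹ * γk⁻¹ ∈ Γ :=
        Γ.mul_mem (Γ.mul_mem hw₁Γ (Γ.inv_mem hS.ha)) (Γ.inv_mem hγk)
      have hmemS2 : ∀ g : G, ((M.prod * (w * a))⁻¹ * g) ∈
          {g | (w₁ * w) * g ∈ {g | ∃ γ ∈ Γ, γ⁻¹ * g ∈ H}} ↔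
          ∃ γ ∈ Γ, γ⁻¹ * ((f ^ (k + 1))⁻¹ * g) ∈ H := by
        intro g
        simp only [Set.mem_ofPred_eq]
        rw [key]
        constructor
        · rintro ⟨γ, hγ, h⟩
          refine ⟨(w₁ * a⁻¹ * γk⁻¹)⁻¹ * γ, Γ.mul_mem (Γ.inv_mem hconst) hγ, ?_⟩
          have : ((w₁ * a⁻¹ * γk⁻¹)⁻¹ * γ)⁻¹ * ((f ^ (k + 1))⁻¹ * g) =
              γ⁻¹ * (w₁ * a⁻¹ * γk⁻¹ * ((f ^ (k + 1))⁻¹ * g)) := by
            rw [mul_inv_rev, inv_inv]; simp only [mul_assoc]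
          rw [this]; exact h
        · rintro ⟨γ, hγ, h⟩
          refine ⟨(w₁ * a⁻¹ * γk⁻¹) * γ, Γ.mul_mem hconst hγ, ?_⟩
          have : ((w₁ * a⁻¹ * γk⁻¹) * γ)⁻¹ * (w₁ * a⁻¹ * γk⁻¹ * ((f ^ (k + 1))⁻¹ * g)) =
              γ⁻¹ * ((f ^ (k + 1))⁻¹ * g) := by
            rw [mul_inv_rev]; group
          rw [this]; exact h
      have hd : ∀ g ∈ {g | ∃ i : ℕ, i ≤ k ∧ ∃ γ ∈ Γ, γ⁻¹ * ((f ^ i)⁻¹ * g) ∈ H},
          (M.prod * (w * a))⁻¹ * g ∉
            {g | (w₁ * w) * g ∈ {g | ∃ γ ∈ Γ, γ⁻¹ * g ∈ H}} := by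
        rintro g ⟨i, hi, γ, hγ, hg⟩ hcon
        rw [hmemS2] at hcon
        obtain ⟨δ, hδ, hcon⟩ := hcon
        have h1 : ∃ γ' ∈ Γ, γ'⁻¹ * f ^ ((k + 1 - i : ℕ) : ℤ) ∈ H := by
          refine ⟨δ⁻¹ * γ, Γ.mul_mem (Γ.inv_mem hδ) hγ, ?_⟩
          have h2 : (δ⁻¹ * γ)⁻¹ * f ^ ((k + 1 - i : ℕ) : ℤ) =
              (γ⁻¹ * ((f ^ i)⁻¹ * g)) * (δ⁻¹ * ((f ^ (k + 1))⁻¹ * g))⁻¹ := by
            have h3 : (γ⁻¹ * ((f ^ i)⁻¹ * g)) * (δ⁻¹ * ((f ^ (k + 1))⁻¹ * g))⁻¹ =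
                γ⁻¹ * ((f ^ i)⁻¹ * f ^ (k + 1)) * δ := by group
            have h4 : (f ^ i)⁻¹ * f ^ (k + 1) = f ^ ((k + 1 - i : ℕ) : ℤ) := by
              rw [← zpow_natCast, ← zpow_natCast, ← zpow_neg, ← zpow_add]
              congr 1
              omega
            rw [h3, h4, mul_assoc, hcf, mul_inv_rev, inv_inv, mul_assoc]
          rw [h2]
          exact H.mul_mem hg (H.inv_mem hcon)
        rw [hk'] at h1
        have := Int.le_of_dvd (by omega) h1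
        omega
      have hcov := cov_concat (s := w * a) hM4 hcov2 hd
      refine ⟨M ++ (w * a) :: ((w⁻¹ * a) :: L'), ?_, ?_, ?_, hcov.congr ?_, ?_⟩
      · intro t ht
        simp only [List.mem_append, List.mem_cons] at ht
        rcases ht with ht | rfl | rfl | ht
        · exact hM1 t ht
        · exact ⟨w, hw, Or.inl rfl⟩
        · exact ⟨w⁻¹, hWi w hw, Or.inl rfl⟩
        · exact hS.step t (by rw [hL]; exact List.mem_cons_of_mem _ ht)
      · exact ⟨M' ++ (w * a) :: ((w⁻¹ * a) :: L'), by rw [hM2]; rfl⟩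
      · refine ⟨γk * a * w₁⁻¹ * L.prod, Γ.mul_mem (Γ.mul_mem (Γ.mul_mem hγk hS.ha)
          (Γ.inv_mem hw₁Γ)) hS.prod, ?_⟩
        rw [List.prod_append, List.prod_cons, List.prod_cons, hM3]
        have h1 : L.prod = w₁ * a * L'.prod := by rw [hL, List.prod_cons]
        rw [h1]
        have h2 : f ^ k * γk * (w * a * (w⁻¹ * a * L'.prod)) =
            f ^ k * γk * (w * a * w⁻¹) * (a * L'.prod) := by simp only [mul_assoc]
        rw [h2, hwa]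
        have h3 : f ^ k * γk * (a * f) * (a * L'.prod) =
            f ^ k * ((γk * a) * f) * (a * L'.prod) := by simp only [mul_assoc]
        rw [h3, ← hc (γk * a), pow_succ]
        simp only [mul_assoc, inv_mul_cancel_left]
      · intro g
        simp only [Set.mem_ofPred_eq]
        have h1 := hmemS2 g
        simp only [Set.mem_ofPred_eq] at h1
        rw [h1]
        constructor
        · rintro ⟨i, hi, h⟩
          rcases Nat.lt_or_ge k i with hki | hki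
          · obtain rfl : i = k + 1 := by omega
            exact Or.inr h
          · exact Or.inl ⟨i, hki, h⟩
        · rintro (⟨i, hi, h⟩ | h)
          · exact ⟨i, by omega, h⟩
          · exact ⟨k + 1, le_refl _, h⟩
      · intro E hHE hE
        have h1 : (M ++ (w * a) :: ((w⁻¹ * a) :: L')).prod * a =
            (M.prod * a) * (a⁻¹ * w * a) * (w₁ * w)⁻¹ * (L.prod * a) := by
          rw [List.prod_append, List.prod_cons, List.prod_cons, hL, List.prod_cons]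
          group
        rw [h1]
        exact E.mul_mem (E.mul_mem (E.mul_mem (hM5 E hHE hE) (hE w (hHE (hWH hw))))
          (E.inv_mem (hHE (H.mul_mem (hWH hw₁W) (hWH hw))))) (hS.X E hHE hE)
  obtain ⟨M, hM1, ⟨M', hM2⟩, ⟨γk, hγk, hM3⟩, hM4, hM5⟩ := hit (k₀ - 1) (by omega)
  have hfΓ : f ∈ Γ ⊔ Subgroup.zpowers f := Subgroup.mem_sup_right (Subgroup.mem_zpowers f)
  have hΓle : Γ ≤ Γ ⊔ Subgroup.zpowers f := le_sup_left
  have haK : a ∈ Subgroup.closure ((H : Set G) ∪ {a}) := Subgroup.subset_closure (by simp)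
  have hwK : w ∈ Subgroup.closure ((H : Set G) ∪ {a}) :=
    Subgroup.subset_closure (Or.inl (hWH hw))
  refine ⟨Γ ⊔ Subgroup.zpowers f, M, ⟨hΓle hS.ha, ?_, hM1, ⟨w₁, M', hM2, hw₁W, hΓle hw₁Γ⟩, ?_,
    hM4.congr ?_, hM5⟩, hΓle, hfΓ⟩
  · refine sup_le hS.le ?_
    rw [Subgroup.zpowers_le, hf]
    exact Subgroup.mul_mem _ (Subgroup.mul_mem _ (Subgroup.mul_mem _
      (Subgroup.inv_mem _ hwK) (Subgroup.inv_mem _ haK)) hwK) haK
  · rw [hM3]
    exact Subgroup.mul_mem _ (Subgroup.pow_mem _ hfΓ _) (hΓle hγk)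
  · intro g
    simp only [Set.mem_ofPred_eq]
    constructor
    · rintro ⟨γ, hγ, hg⟩
      -- `γ = δ f ^ j`
      have h1 : ∃ δ ∈ Γ, ∃ j : ℤ, γ = δ * f ^ j := by
        have : Γ ⊔ Subgroup.zpowers f ≤
            { carrier := {γ | ∃ δ ∈ Γ, ∃ j : ℤ, γ = δ * f ^ j}
              mul_mem' := by
                rintro p q ⟨δ, hδ, j, rfl⟩ ⟨δ', hδ', j', rfl⟩
                refine ⟨δ * δ', Γ.mul_mem hδ hδ', j + j', ?_⟩
                rw [zpow_add, mul_assoc δ (f ^ j), ← mul_assoc (f ^ j) δ', hcf δ' j]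
                simp only [mul_assoc]
              one_mem' := ⟨1, Γ.one_mem, 0, by simp⟩
              inv_mem' := by
                rintro p ⟨δ, hδ, j, rfl⟩
                refine ⟨δ⁻¹, Γ.inv_mem hδ, -j, ?_⟩
                rw [mul_inv_rev, ← hcf δ⁻¹ (-j), zpow_neg] : Subgroup G } := by
          refine sup_le ?_ ?_
          · intro δ hδ
            exact ⟨δ, hδ, 0, by simp⟩
          · rw [Subgroup.zpowers_le]
            exact ⟨1, Γ.one_mem, 1, by simp⟩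
        exact this hγ
      obtain ⟨δ, hδ, j, rfl⟩ := h1
      obtain ⟨γ₀, hγ₀, h₀⟩ := (hk' k₀).2 (dvd_refl _)
      set q : ℤ := j / k₀ with hq
      set r : ℤ := j % k₀ with hr
      have hr0 : 0 ≤ r := Int.emod_nonneg _ (by omega)
      have hrk : r < k₀ := Int.emod_lt_of_pos _ (by omega)
      refine ⟨r.toNat, by omega, δ * γ₀ ^ q, Γ.mul_mem hδ (Γ.zpow_mem hγ₀ _), ?_⟩
      have h2 : f ^ r.toNat = f ^ r := by
        rw [← zpow_natCast, Int.toNat_of_nonneg hr0]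
      rw [h2]
      have h3 : (γ₀⁻¹ * f ^ (k₀ : ℤ)) ^ q = (γ₀ ^ q)⁻¹ * f ^ (k₀ * q) := by
        have : Commute γ₀⁻¹ (f ^ (k₀ : ℤ)) := (hcf _ _).symm
        rw [this.mul_zpow, inv_zpow, ← zpow_mul]
      have h4 : (δ * γ₀ ^ q)⁻¹ * ((f ^ r)⁻¹ * g) =
          (γ₀⁻¹ * f ^ (k₀ : ℤ)) ^ q * ((δ * f ^ j)⁻¹ * g) := by
        rw [h3]
        have h5 : f ^ (k₀ * q) * (δ * f ^ j)⁻¹ = δ⁻¹ * (f ^ r)⁻¹ := by
          have h6 : (k₀ : ℤ) * q = j + -r := by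
            have := Int.emod_add_mul_ediv j k₀
            rw [← hr, ← hq] at this
            linarith
          rw [mul_inv_rev, h6, zpow_add, zpow_neg]
          calc f ^ j * (f ^ r)⁻¹ * ((f ^ j)⁻¹ * δ⁻¹)
              = f ^ j * ((f ^ r)⁻¹ * (f ^ j)⁻¹) * δ⁻¹ := by simp only [mul_assoc]
            _ = f ^ j * ((f ^ j)⁻¹ * (f ^ r)⁻¹) * δ⁻¹ := by
                congr 2
                rw [← zpow_neg, ← zpow_neg, ← zpow_add, ← zpow_add, add_comm]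
            _ = (f ^ r)⁻¹ * δ⁻¹ := by group
            _ = δ⁻¹ * (f ^ r)⁻¹ := by rw [← zpow_neg, hcf]
        calc (δ * γ₀ ^ q)⁻¹ * ((f ^ r)⁻¹ * g)
            = (γ₀ ^ q)⁻¹ * (δ⁻¹ * (f ^ r)⁻¹) * g := by rw [mul_inv_rev]; simp only [mul_assoc]
          _ = (γ₀ ^ q)⁻¹ * (f ^ (k₀ * q) * (δ * f ^ j)⁻¹) * g := by rw [h5]
          _ = _ := by simp only [mul_assoc]
      rw [h4]
      exact H.mul_mem (H.zpow_mem h₀ _) hg
    · rintro ⟨i, hi, γ, hγ, hg⟩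
      refine ⟨f ^ i * γ, Subgroup.mul_mem _ (Subgroup.pow_mem _ hfΓ _) (hΓle hγ), ?_⟩
      rw [mul_inv_rev, mul_assoc]
      exact hg

end Pool.Agent.H761J.Nil
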