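import Pool.Agent.H761J.Nil5

/-!
# Hamiltonian paths in groups of nilpotency class two
-/

namespace Pool.Agent.H761J.Nil

open Pool.Agent.H761J.Ham

variable {G : Type*} [Group G]

theorem beta_mul (hZ : ∀ g h z : G, (g⁻¹ * h⁻¹ * g * h) * z = z * (g⁻¹ * h⁻¹ * g * h))
    (a g h : G) : (g * h)⁻¹ * a⁻¹ * (g * h) * a = (g⁻¹ * a⁻¹ * g * a) * (h⁻¹ * a⁻¹ * h * a) := by
  have h1 : (g * h)⁻¹ * a⁻¹ * (g * h) * a = h⁻¹ * (g⁻¹ * a⁻¹ * g * a) * (a⁻¹ * h * a) := by group
  rw [h1, ← hZ g a h⁻¹]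
  group

theorem walk_exists [Finite G]
    (hZ : ∀ g h z : G, (g⁻¹ * h⁻¹ * g * h) * z = z * (g⁻¹ * h⁻¹ * g * h))
    {H : Subgroup G} {W : Set G} (hWi : ∀ w ∈ W, w⁻¹ ∈ W) (hW0 : W.Nonempty)
    (hWg : Subgroup.closure W = H) (a : G) :
    ∃ L : List G, (∀ t ∈ L, ∃ w ∈ W, t = w * a ∨ t = w * a⁻¹) ∧
      Cov H L (Subgroup.closure ((H : Set G) ∪ {a}) : Subgroup G) ∧
      (∀ E : Subgroup G, H ≤ E → (∀ g ∈ E, a⁻¹ * g * a ∈ E) → L.prod * a ∈ E) := by
  classical
  have hWH : W ⊆ H := by rw [← hWg]; exact Subgroup.subset_closure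
  by_cases ha : a ∈ H
  · refine ⟨[], by simp, (cov_nil H).congr ?_, ?_⟩
    · intro g
      have : Subgroup.closure ((H : Set G) ∪ {a}) = H := by
        apply le_antisymm
        · rw [Subgroup.closure_le]
          rintro x (hx | hx)
          · exact hx
          · rw [Set.mem_singleton_iff] at hx
            subst hx; exact ha
        · intro x hx
          exact Subgroup.subset_closure (Or.inl hx)
      rw [this]
    · intro E hE _
      simpa using hE ha
  · have hfin : W.Finite := Set.toFinite W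
    have hst : ∀ s : Finset G, (↑s : Set G) ⊆ W → ∃ Γ L, St H W a Γ L ∧
        ∀ w ∈ s, w⁻¹ * a⁻¹ * w * a ∈ Γ := by
      intro s
      induction s using Finset.induction_on with
      | empty =>
        intro _
        obtain ⟨Γ, L, h⟩ := st_base hZ hWH hWi hW0 ha
        exact ⟨Γ, L, h, by simp⟩
      | insert w s _ ih =>
        intro hsW
        rw [Finset.coe_insert] at hsW
        obtain ⟨Γ, L, h, hw⟩ := ih ((Set.subset_insert _ _).trans hsW)
        obtain ⟨Γ', L', h', hle, hf⟩ := st_step hZ hWH hWi h (hsW (Set.mem_insert _ _))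
        refine ⟨Γ', L', h', ?_⟩
        intro v hv
        rw [Finset.mem_insert] at hv
        rcases hv with rfl | hv
        · exact hf
        · exact hle (hw v hv)
    obtain ⟨Γ, L, hS, hf⟩ := hst hfin.toFinset (by simp)
    have hβ : ∀ h ∈ H, h⁻¹ * a⁻¹ * h * a ∈ Γ := by
      intro h hh
      rw [← hWg] at hh
      induction hh using Subgroup.closure_induction with
      | mem x hx => exact hf x (by simpa using hx)
      | one => simp [Γ.one_mem]
      | mul x y _ _ hx hy => rw [beta_mul hZ]; exact Γ.mul_mem hx hy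
      | inv x _ hx =>
        have h1 := beta_mul hZ a x x⁻¹
        rw [mul_inv_cancel] at h1
        have h2 : (x⁻¹)⁻¹ * a⁻¹ * x⁻¹ * a = (x⁻¹ * a⁻¹ * x * a)⁻¹ := by
          rw [eq_inv_iff_mul_eq_one, ← hZ x a, ← h1]
          group
        rw [h2]
        exact Γ.inv_mem hx
    refine ⟨L, hS.step, hS.cov.congr ?_, hS.X⟩
    intro g
    simp only [Set.mem_ofPred_eq, SetLike.mem_coe]
    have hHK : H ≤ Subgroup.closure ((H : Set G) ∪ {a}) := fun x hx =>
      Subgroup.subset_closure (Or.inl hx)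
    constructor
    · intro hg
      refine Subgroup.closure_induction_right
        (p := fun g _ => ∃ γ ∈ Γ, γ⁻¹ * g ∈ H) ?_ ?_ ?_ hg
      · exact ⟨1, Γ.one_mem, by simp [H.one_mem]⟩
      · rintro x - y hy ⟨γ, hγ, hx⟩
        rcases hy with hy | hy
        · exact ⟨γ, hγ, by rw [← mul_assoc]; exact H.mul_mem hx hy⟩
        · rw [Set.mem_singleton_iff] at hy
          subst hy
          have hb := hβ _ hx
          set h := γ⁻¹ * x with hh
          refine ⟨γ * y * (h⁻¹ * y⁻¹ * h * y), Γ.mul_mem (Γ.mul_mem hγ hS.ha) hb, ?_⟩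
          have h1 : (γ * y * (h⁻¹ * y⁻¹ * h * y))⁻¹ * (x * y) =
              (h⁻¹ * y⁻¹ * h * y)⁻¹ * (h * (h⁻¹ * y⁻¹ * h * y)) := by
            have : x = γ * h := by rw [hh]; group
            rw [this]; group
          rw [h1, ← hZ h y h, inv_mul_cancel_left]
          exact hx
      · rintro x - y hy ⟨γ, hγ, hx⟩
        rcases hy with hy | hy
        · exact ⟨γ, hγ, by rw [← mul_assoc]; exact H.mul_mem hx (H.inv_mem hy)⟩
        · rw [Set.mem_singleton_iff] at hy
          subst hy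
          have hb := hβ _ hx
          set h := γ⁻¹ * x with hh
          refine ⟨γ * y⁻¹ * (h⁻¹ * y⁻¹ * h * y)⁻¹,
            Γ.mul_mem (Γ.mul_mem hγ (Γ.inv_mem hS.ha)) (Γ.inv_mem hb), ?_⟩
          have h1 : (γ * y⁻¹ * (h⁻¹ * y⁻¹ * h * y)⁻¹)⁻¹ * (x * y⁻¹) =
              (h⁻¹ * y⁻¹ * h * y) * (y * h * y⁻¹) := by
            have : x = γ * h := by rw [hh]; group
            rw [this]
            generalize h⁻¹ * y⁻¹ * h * y = β
            group
          have h2 : (h⁻¹ * y⁻¹ * h * y) * (y * h * y⁻¹) = h := by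
            rw [← mul_assoc _ (y * h) y⁻¹, hZ h y (y * h)]; group
          rw [h1, h2]
          exact hx
    · rintro ⟨γ, hγ, hg⟩
      have : g = γ * (γ⁻¹ * g) := by group
      rw [this]
      exact Subgroup.mul_mem _ (hS.le hγ) (hHK hg)

/-- the ends of the Hamiltonian paths starting at `1` in the Cayley graph of `⟨R⟩` -/
def Ends (R : Set G) : Set G :=
  {w | ∃ l : List G, (∀ x ∈ l, x ∈ R) ∧ Cov ⊥ l (Subgroup.closure R : Set G) ∧ l.prod = w}

theorem ends_sub (R : Set G) : Ends R ⊆ Subgroup.closure R := by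
  rintro w ⟨l, _, hl, rfl⟩
  exact hl.prod_mem

theorem ends_inv {R : Set G} (hR : ∀ x ∈ R, x⁻¹ ∈ R) : ∀ w ∈ Ends R, w⁻¹ ∈ Ends R := by
  rintro w ⟨l, hlR, hl, rfl⟩
  obtain ⟨l', h1, h2, h3⟩ := reverse_cov hR hl hlR
  exact ⟨l', h1, h2, h3⟩

theorem extend [Finite G]
    (hZ : ∀ g h z : G, (g⁻¹ * h⁻¹ * g * h) * z = z * (g⁻¹ * h⁻¹ * g * h))
    {R' R : Set G} (hR' : ∀ x ∈ R', x⁻¹ ∈ R') (hRR : R' ⊆ R) (hne : (Ends R').Nonempty)
    (hgen : Subgroup.closure (Ends R') = Subgroup.closure R') {a : G} (ha : a ∈ R)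
    (ha' : a⁻¹ ∈ R)
    (hcl : Subgroup.closure ((Subgroup.closure R' : Set G) ∪ {a}) = Subgroup.closure R) :
    ∃ L : List G, (∀ t ∈ L, ∃ w ∈ Ends R', t = w * a ∨ t = w * a⁻¹) ∧
      (∀ w ∈ Ends R', L.prod * w ∈ Ends R) ∧
      (∀ E : Subgroup G, Subgroup.closure R' ≤ E → (∀ g ∈ E, a⁻¹ * g * a ∈ E) →
        L.prod * a ∈ E) := by
  obtain ⟨L, hL1, hL2, hL3⟩ := walk_exists hZ (ends_inv hR') hne hgen a
  refine ⟨L, hL1, ?_, hL3⟩
  rintro w ⟨τ, hτR, hτ, rfl⟩
  have hL' : ∀ t ∈ L, ∃ l s, Cov ⊥ l (Subgroup.closure R' : Set G) ∧ (∀ x ∈ l, x ∈ R) ∧ s ∈ R ∧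
      t = l.prod * s := by
    intro t ht
    obtain ⟨w, ⟨l, hlR, hl, rfl⟩, ht⟩ := hL1 t ht
    rcases ht with rfl | rfl
    · exact ⟨l, a, hl, fun x hx => hRR (hlR x hx), ha, rfl⟩
    · exact ⟨l, a⁻¹, hl, fun x hx => hRR (hlR x hx), ha', rfl⟩
  obtain ⟨l', h1, h2, h3⟩ := tower (T := R) L hL' hτ (fun x hx => hRR (hτR x hx))
    (hL2.dis.imp (fun {p q} h g hg g' hg' e => h (by
      have : p⁻¹ * q = g * g'⁻¹ := by
        have : q = p * g * g'⁻¹ := by rw [e]; group
        rw [this]; group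
      rw [this]
      exact Subgroup.mul_mem _ hg (Subgroup.inv_mem _ hg'))))
  refine ⟨l', h1, h2.congr ?_, h3⟩
  intro g
  rw [← hcl, hL2.cov]
  rfl

theorem pick [Finite G] {R R0 : Set G} (hR : ∀ x ∈ R, x⁻¹ ∈ R) (hR0 : ∀ x ∈ R0, x⁻¹ ∈ R0)
    (hsub : R0 ⊆ R) (h : Subgroup.closure R0 ≠ Subgroup.closure R) :
    ∃ R' : Set G, R0 ⊆ R' ∧ R' ⊆ R ∧ (∀ x ∈ R', x⁻¹ ∈ R') ∧
      Subgroup.closure R' ≠ Subgroup.closure R ∧ ∃ a ∈ R, a ∉ Subgroup.closure R' ∧
        Subgroup.closure ((Subgroup.closure R' : Set G) ∪ {a}) = Subgroup.closure R := by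
  classical
  set F : Set (Set G) := {R' | R0 ⊆ R' ∧ R' ⊆ R ∧ (∀ x ∈ R', x⁻¹ ∈ R') ∧
      Subgroup.closure R' ≠ Subgroup.closure R} with hF
  have hFne : F.Nonempty := ⟨R0, subset_rfl, hsub, hR0, h⟩
  obtain ⟨R', hmax⟩ := (Set.toFinite F).exists_maximal hFne
  obtain ⟨hR1, hR2, hR3, hR4⟩ := hmax.prop
  refine ⟨R', hR1, hR2, hR3, hR4, ?_⟩
  obtain ⟨a, haR, haR'⟩ : ∃ a ∈ R, a ∉ Subgroup.closure R' := by
    by_contra hcon
    push Not at hcon
    apply hR4
    apply le_antisymm (Subgroup.closure_mono hR2)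
    rw [Subgroup.closure_le]
    exact hcon
  refine ⟨a, haR, haR', ?_⟩
  have hRR : Subgroup.closure (R' ∪ {a, a⁻¹}) = Subgroup.closure R := by
    by_contra hne
    have hmem : R' ∪ {a, a⁻¹} ∈ F := by
      refine ⟨hR1.trans Set.subset_union_left, ?_, ?_, hne⟩
      · apply Set.union_subset hR2
        rintro x (rfl | hx)
        · exact haR
        · rw [Set.mem_singleton_iff] at hx
          subst hx; exact hR _ haR
      · rintro x (hx | rfl | hx)
        · exact Or.inl (hR3 x hx)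
        · right; simp
        · rw [Set.mem_singleton_iff] at hx
          subst hx; right; simp
    have := hmax.le_of_ge hmem Set.subset_union_left
    exact haR' (Subgroup.subset_closure (this (Or.inr (by simp))))
  apply le_antisymm
  · rw [Subgroup.closure_le]
    rintro x (hx | hx)
    · exact Subgroup.closure_mono hR2 hx
    · rw [Set.mem_singleton_iff] at hx
      subst hx; exact Subgroup.subset_closure haR
  · rw [← hRR, Subgroup.closure_le]
    have haa : a ∈ Subgroup.closure ((Subgroup.closure R' : Set G) ∪ {a}) :=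
      Subgroup.subset_closure (by simp)
    rintro x (hx | rfl | hx)
    · exact Subgroup.subset_closure (Or.inl (Subgroup.subset_closure hx))
    · exact haa
    · rw [Set.mem_singleton_iff] at hx
      subst hx
      exact Subgroup.inv_mem _ haa

/-- a maximal subgroup is normal, elementwise -/
theorem max_normal (hZ : ∀ g h z : G, (g⁻¹ * h⁻¹ * g * h) * z = z * (g⁻¹ * h⁻¹ * g * h))
    {H E : Subgroup G} (hEH : E ≤ H) (hmax : ∀ E' : Subgroup G, E ≤ E' → E' ≤ H → E' = E ∨ E' = H)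
    {a : G} (ha : a ∈ H) : ∀ g ∈ E, a⁻¹ * g * a ∈ E := by
  intro g hg
  by_contra hcon
  set c : G := g⁻¹ * a⁻¹ * g * a with hc
  have hcE : c ∉ E := by
    intro h
    apply hcon
    have : a⁻¹ * g * a = g * c := by rw [hc]; group
    rw [this]
    exact E.mul_mem hg h
  have hcH : c ∈ H := H.mul_mem (H.mul_mem (H.mul_mem (H.inv_mem (hEH hg)) (H.inv_mem ha))
    (hEH hg)) ha
  have hcc : ∀ z, c * z = z * c := hZ g a
  have hcf : ∀ (z : G) (k : ℤ), c ^ k * z = z * c ^ k := fun z k =>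
    ((show Commute c z from hcc z).zpow_left k)
  let E' : Subgroup G :=
    { carrier := {γ | ∃ δ ∈ E, ∃ j : ℤ, γ = δ * c ^ j}
      mul_mem' := by
        rintro p q ⟨δ, hδ, j, rfl⟩ ⟨δ', hδ', j', rfl⟩
        refine ⟨δ * δ', E.mul_mem hδ hδ', j + j', ?_⟩
        rw [zpow_add, mul_assoc δ (c ^ j), ← mul_assoc (c ^ j) δ', hcf δ' j]
        simp only [mul_assoc]
      one_mem' := ⟨1, E.one_mem, 0, by simp⟩
      inv_mem' := by
        rintro p ⟨δ, hδ, j, rfl⟩
        refine ⟨δ⁻¹, E.inv_mem hδ, -j, ?_⟩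
        rw [mul_inv_rev, ← hcf δ⁻¹ (-j), zpow_neg] }
  have h1 : E ≤ E' := fun x hx => ⟨x, hx, 0, by simp⟩
  have h2 : E' ≤ H := by
    rintro x ⟨δ, hδ, j, rfl⟩
    exact H.mul_mem (hEH hδ) (H.zpow_mem hcH j)
  rcases hmax E' h1 h2 with h | h
  · apply hcE
    rw [← h]
    exact ⟨1, E.one_mem, 1, by simp⟩
  · have haE' : a ∈ E' := by rw [h]; exact ha
    obtain ⟨δ, hδ, j, hj⟩ := haE'
    apply hcon
    have : a⁻¹ * g * a = δ⁻¹ * g * δ := by
      rw [hj, mul_inv_rev, ← zpow_neg]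
      calc c ^ (-j) * δ⁻¹ * g * (δ * c ^ j) = c ^ (-j) * (δ⁻¹ * g * δ) * c ^ j := by
            simp only [mul_assoc]
        _ = (δ⁻¹ * g * δ) * c ^ (-j) * c ^ j := by rw [hcf]
        _ = δ⁻¹ * g * δ := by rw [mul_assoc, ← zpow_add]; simp
    rw [this]
    exact E.mul_mem (E.mul_mem (E.inv_mem hδ) hg) hδ

theorem good [Finite G]
    (hZ : ∀ g h z : G, (g⁻¹ * h⁻¹ * g * h) * z = z * (g⁻¹ * h⁻¹ * g * h)) (n : ℕ) :
    ∀ R : Set G, (∀ x ∈ R, x⁻¹ ∈ R) → Nat.card (Subgroup.closure R) = n →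
      (Ends R).Nonempty ∧ Subgroup.closure (Ends R) = Subgroup.closure R := by
  classical
  induction n using Nat.strong_induction_on with
  | _ n ih =>
  intro R hR hcard
  set H := Subgroup.closure R with hH
  have hIH : ∀ R' : Set G, (∀ x ∈ R', x⁻¹ ∈ R') → R' ⊆ R → Subgroup.closure R' ≠ H →
      (Ends R').Nonempty ∧ Subgroup.closure (Ends R') = Subgroup.closure R' := by
    intro R' hR' hRR hne
    refine ih (Nat.card (Subgroup.closure R')) ?_ R' hR' rfl
    rw [← hcard]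
    have hle : Subgroup.closure R' ≤ H := Subgroup.closure_mono hRR
    have hlt : Subgroup.closure R' < H := lt_of_le_of_ne hle hne
    have h1 : (Subgroup.closure R' : Set G) ⊂ (H : Set G) := hlt
    exact Set.ncard_lt_ncard h1 (Set.toFinite _)
  have hne : (Ends R).Nonempty := by
    by_cases hbot : H = ⊥
    · refine ⟨1, [], by simp, ?_, rfl⟩
      rw [← hH, hbot]
      exact cov_nil ⊥
    · obtain ⟨R', -, hR2, hR3, hR4, a, haR, -, hcl⟩ := pick (R0 := ∅) hR (by simp)
        (Set.empty_subset _) (by rw [Subgroup.closure_empty]; exact fun h => hbot h.symm)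
      obtain ⟨hne, hgen⟩ := hIH R' hR3 hR2 hR4
      obtain ⟨L, -, hL, -⟩ := extend hZ hR3 hR2 hne hgen haR (hR a haR) hcl
      obtain ⟨w, hw⟩ := hne
      exact ⟨_, hL w hw⟩
  refine ⟨hne, ?_⟩
  by_contra hcon
  have hWH : Subgroup.closure (Ends R) ≤ H := by
    rw [Subgroup.closure_le]
    exact ends_sub R
  -- a maximal subgroup containing the ends
  obtain ⟨E, hE⟩ := (Set.toFinite {E : Subgroup G | Subgroup.closure (Ends R) ≤ E ∧ E ≤ H ∧
    E ≠ H}).exists_maximal ⟨_, le_refl _, hWH, hcon⟩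
  obtain ⟨hE1, hE2, hE3⟩ := hE.prop
  have hmax : ∀ E' : Subgroup G, E ≤ E' → E' ≤ H → E' = E ∨ E' = H := by
    intro E' h1 h2
    by_cases h3 : E' = H
    · exact Or.inr h3
    · exact Or.inl (le_antisymm (hE.le_of_ge ⟨hE1.trans h1, h2, h3⟩ h1) h1)
  have hnorm : ∀ a ∈ H, ∀ g ∈ E, a⁻¹ * g * a ∈ E := fun a ha => max_normal hZ hE2 hmax ha
  have hnorm' : ∀ a ∈ H, ∀ g ∈ E, a * g * a⁻¹ ∈ E := by
    intro a ha g hg
    have := hnorm a⁻¹ (H.inv_mem ha) g hg
    rwa [inv_inv] at this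
  obtain ⟨R', hR1, hR2, hR3, hR4, a, haR, haR', hcl⟩ := pick (R0 := {x ∈ R | x ∈ E}) hR
    (fun x hx => ⟨hR x hx.1, E.inv_mem hx.2⟩) (fun x hx => hx.1) (by
      intro h
      apply hE3
      apply le_antisymm hE2
      rw [hH, ← h, Subgroup.closure_le]
      exact fun x hx => hx.2)
  have haE : a ∉ E := fun h => haR' (Subgroup.subset_closure (hR1 ⟨haR, h⟩))
  have haH : a ∈ H := Subgroup.subset_closure haR
  obtain ⟨hne', hgen'⟩ := hIH R' hR3 hR2 hR4
  obtain ⟨L, hL1, hL2, hL3⟩ := extend hZ hR3 hR2 hne' hgen' haR (hR a haR) hcl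
  have hLE : ∀ w ∈ Ends R', L.prod * w ∈ E := fun w hw =>
    hE1 (Subgroup.subset_closure (hL2 w hw))
  by_cases hAB : Subgroup.closure R' ≤ E
  · have h1 := hL3 E hAB (hnorm a haH)
    obtain ⟨w, hw⟩ := hne'
    have h2 := hLE w hw
    have h3 : w ∈ E := hAB (ends_sub R' hw)
    have h4 : L.prod ∈ E := by
      have : L.prod = L.prod * w * w⁻¹ := by group
      rw [this]; exact E.mul_mem h2 (E.inv_mem h3)
    apply haE
    have : a = L.prod⁻¹ * (L.prod * a) := by group
    rw [this]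
    exact E.mul_mem (E.inv_mem h4) h1
  · obtain ⟨w, hw, hwE⟩ : ∃ w ∈ Ends R', w ∉ E := by
      by_contra hcon2
      push Not at hcon2
      apply hAB
      rw [← hgen', Subgroup.closure_le]
      exact hcon2
    have hwH : w ∈ H := Subgroup.closure_mono hR2 (ends_sub R' hw)
    have hww : w * w ∈ E := by
      have h1 := hLE w hw
      have h2 := hLE w⁻¹ (ends_inv hR3 w hw)
      have : w * w = (L.prod * w⁻¹)⁻¹ * (L.prod * w) := by group
      rw [this]; exact E.mul_mem (E.inv_mem h2) h1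
    -- the quotient has order two
    let E' : Subgroup G :=
      { carrier := {g | g ∈ H ∧ (g ∈ E ∨ w * g ∈ E)}
        mul_mem' := by
          rintro p q ⟨hp, hp'⟩ ⟨hq, hq'⟩
          refine ⟨H.mul_mem hp hq, ?_⟩
          rcases hp' with hp' | hp' <;> rcases hq' with hq' | hq'
          · exact Or.inl (E.mul_mem hp' hq')
          · right
            have : w * (p * q) = (w * p * w⁻¹) * (w * q) := by group
            rw [this]; exact E.mul_mem (hnorm' w hwH p hp') hq'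
          · right
            rw [← mul_assoc]; exact E.mul_mem hp' hq'
          · left
            have : p * q = (w⁻¹ * (w * p) * w) * (w * w)⁻¹ * (w * q) := by group
            rw [this]
            exact E.mul_mem (E.mul_mem (hnorm w hwH _ hp') (E.inv_mem hww)) hq'
        one_mem' := ⟨H.one_mem, Or.inl E.one_mem⟩
        inv_mem' := by
          rintro p ⟨hp, hp'⟩
          refine ⟨H.inv_mem hp, ?_⟩
          rcases hp' with hp' | hp'
          · exact Or.inl (E.inv_mem hp')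
          · right
            have : w * p⁻¹ = (w * (w * p)⁻¹ * w⁻¹) * (w * w) := by group
            rw [this]
            exact E.mul_mem (hnorm' w hwH _ (E.inv_mem hp')) hww }
    have hE'H : E' = H := by
      rcases hmax E' (fun g hg => ⟨hE2 hg, Or.inl hg⟩) (fun g hg => hg.1) with h | h
      · exfalso
        apply hwE
        have : w⁻¹ ∈ E' := ⟨H.inv_mem hwH, Or.inr (by rw [mul_inv_cancel]; exact E.one_mem)⟩
        rw [h] at this
        have := E.inv_mem this
        rwa [inv_inv] at this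
      · exact h
    have htwo : ∀ g ∈ H, g ∉ E → w * g ∈ E := by
      intro g hg hgE
      have : g ∈ E' := by rw [hE'H]; exact hg
      exact this.2.resolve_left hgE
    have hprod : ∀ p q : G, w * p ∈ E → w * q ∈ E → p * q ∈ E := by
      intro p q hp hq
      have : p * q = (w⁻¹ * (w * p) * w) * (w * w)⁻¹ * (w * q) := by group
      rw [this]
      exact E.mul_mem (E.mul_mem (hnorm w hwH _ hp) (E.inv_mem hww)) hq
    have hwLE : L.prod ∉ E := by
      intro h
      apply hwE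
      have : w = L.prod⁻¹ * (L.prod * w) := by group
      rw [this]
      exact E.mul_mem (E.inv_mem h) (hLE w hw)
    have hw'E : ∀ w' ∈ Ends R', w * w' ∈ E := by
      intro w' hw'
      apply htwo w' (Subgroup.closure_mono hR2 (ends_sub R' hw'))
      intro h
      apply hwLE
      have : L.prod = (L.prod * w') * w'⁻¹ := by group
      rw [this]
      exact E.mul_mem (hLE w' hw') (E.inv_mem h)
    apply hwLE
    apply Subgroup.list_prod_mem
    intro t ht
    obtain ⟨w', hw', ht⟩ := hL1 t ht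
    rcases ht with rfl | rfl
    · exact hprod _ _ (hw'E w' hw') (htwo a haH haE)
    · exact hprod _ _ (hw'E w' hw') (htwo a⁻¹ (H.inv_mem haH)
        (fun h => haE (by have := E.inv_mem h; rwa [inv_inv] at this)))

end Pool.Agent.H761J.Nil
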