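import Pool.Agent.H761J.TdMul

set_option autoImplicit false

/-!
Block multipliers almost commuting with a given operator of `ℓ²`.
-/

namespace Pool.Agent.H761J.TdComm

open Filter Topology ENNReal Pool.Agent.H761J.TdMul

/-- the Hilbert space `ℓ²` -/
abbrev H (𝕜 : Type*) [RCLike 𝕜] := lp (fun _ : ℕ => 𝕜) 2

variable {𝕜 : Type*} [RCLike 𝕜]

/-- the multiplication operator -/
noncomputable abbrev M (𝕜 : Type*) [RCLike 𝕜] (u : ℕ → ℝ) : H 𝕜 →L[𝕜] H 𝕜 := D 𝕜 (fun _ => 𝕜) 2 u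

/-- the ideal of compact operators -/
def KI (𝕜 : Type*) [RCLike 𝕜] : Ideal (H 𝕜 →L[𝕜] H 𝕜) where
  carrier := {T | IsCompactOperator T}
  add_mem' hf hg := hf.add hg
  zero_mem' := isCompactOperator_zero
  smul_mem' c _ hf := hf.clm_comp c

instance : (KI 𝕜).IsTwoSided := ⟨fun {_} b ha => IsCompactOperator.comp_clm ha b⟩

theorem mem_KI {T : H 𝕜 →L[𝕜] H 𝕜} : T ∈ KI 𝕜 ↔ IsCompactOperator T := Iff.rfl

theorem closed_KI : IsClosed (KI 𝕜 : Set (H 𝕜 →L[𝕜] H 𝕜)) :=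
  isClosed_setOfPred_isCompactOperator

/-- bounded -/
def Bd (u : ℕ → ℝ) : Prop := ∃ C : ℝ, ∀ n, |u n| ≤ C

theorem M_apply {u : ℕ → ℝ} (hu : Bd u) (f : H 𝕜) (i : ℕ) :
    (M 𝕜 u f : ℕ → 𝕜) i = ((u i : ℝ) : 𝕜) * (f : ℕ → 𝕜) i := by
  have h := D_apply 𝕜 (fun _ => 𝕜) 2 hu f i
  rw [smul_eq_mul] at h
  exact h

theorem Bd.mul {u v : ℕ → ℝ} (hu : Bd u) (hv : Bd v) : Bd (u * v) := by
  obtain ⟨C, hC⟩ := hu
  obtain ⟨C', hC'⟩ := hv
  refine ⟨C * C', fun n => ?_⟩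
  rw [Pi.mul_apply, abs_mul]
  exact mul_le_mul (hC n) (hC' n) (abs_nonneg _) ((abs_nonneg _).trans (hC n))

theorem M_mul {u v : ℕ → ℝ} (hu : Bd u) (hv : Bd v) : M 𝕜 (u * v) = M 𝕜 u * M 𝕜 v := by
  ext f i
  change (M 𝕜 (u * v) f : ℕ → 𝕜) i = (M 𝕜 u (M 𝕜 v f) : ℕ → 𝕜) i
  rw [M_apply (hu.mul hv), M_apply hu, M_apply hv, Pi.mul_apply]
  push_cast
  ring

theorem ext_single {S T : H 𝕜 →L[𝕜] H 𝕜}
    (h : ∀ (j : ℕ) (x : 𝕜) (i : ℕ), (S (lp.single 2 j x) : ℕ → 𝕜) i =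
      (T (lp.single 2 j x) : ℕ → 𝕜) i) : S = T := by
  refine ContinuousLinearMap.ext fun f => ?_
  have h1 := lp.hasSum_single (p := 2) ENNReal.ofNat_ne_top f
  have h2 := h1.mapL S
  have h3 := h1.mapL T
  have h4 : (fun i => S (lp.single 2 i ((f : ℕ → 𝕜) i))) =
      fun i => T (lp.single 2 i ((f : ℕ → 𝕜) i)) :=
    funext fun j => lp.ext (funext fun i => h j _ i)
  rw [h4] at h2
  exact h2.unique h3

theorem M_single {u : ℕ → ℝ} (hu : Bd u) (j : ℕ) (x : 𝕜) :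
    M 𝕜 u (lp.single 2 j x) = ((u j : ℝ) : 𝕜) • (lp.single 2 j x : H 𝕜) := by
  refine lp.ext (funext fun i => ?_)
  rw [M_apply hu, lp.coeFn_smul, Pi.smul_apply, smul_eq_mul]
  by_cases h : i = j
  · rw [h]
  · rw [lp.single_apply_ne _ _ _ h, mul_zero, mul_zero]

theorem three {u v : ℕ → ℝ} (hu : Bd u) (hv : Bd v) (S : H 𝕜 →L[𝕜] H 𝕜) (j : ℕ) (x : 𝕜) (i : ℕ) :
    ((M 𝕜 u * S * M 𝕜 v) (lp.single 2 j x) : ℕ → 𝕜) i =
      ((u i : ℝ) : 𝕜) * (((v j : ℝ) : 𝕜) * (S (lp.single 2 j x) : ℕ → 𝕜) i) := by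
  change (M 𝕜 u (S (M 𝕜 v (lp.single 2 j x))) : ℕ → 𝕜) i = _
  rw [M_apply hu, M_single hv, map_smul, lp.coeFn_smul, Pi.smul_apply, smul_eq_mul]

theorem star_M {u : ℕ → ℝ} (hu : Bd u) : star (M 𝕜 u) = M 𝕜 u := by
  rw [ContinuousLinearMap.star_eq_adjoint]
  refine ((ContinuousLinearMap.eq_adjoint_iff _ _).2 fun x y => ?_).symm
  rw [lp.inner_eq_tsum, lp.inner_eq_tsum]
  refine tsum_congr fun i => ?_
  rw [M_apply hu, M_apply hu]
  simp only [RCLike.inner_apply, map_mul, RCLike.conj_ofReal]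
  ring

/-- indicator -/
noncomputable def ind (P : ℕ → Prop) [DecidablePred P] : ℕ → ℝ := fun i => if P i then 1 else 0

theorem bd_ind (P : ℕ → Prop) [DecidablePred P] : Bd (ind P) := by
  refine ⟨1, fun n => ?_⟩
  unfold ind
  split_ifs <;> simp

theorem norm_ind (P : ℕ → Prop) [DecidablePred P] : ‖M 𝕜 (ind P)‖ ≤ 1 := by
  refine norm_D_le 𝕜 _ 2 zero_le_one fun n => ?_
  unfold ind
  split_ifs <;> simp

theorem tendsto_r (g : H 𝕜) : Tendsto (fun n => M 𝕜 (ind fun i => ¬ i < n) g) atTop (𝓝 0) := by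
  have h1 := (lp.hasSum_single (p := 2) ENNReal.ofNat_ne_top g).tendsto_sum_nat
  have h2 := (tendsto_const_nhds (x := g)).sub h1
  rw [sub_self] at h2
  refine h2.congr fun n => ?_
  refine lp.ext (funext fun j => ?_)
  rw [M_apply (bd_ind _), lp.coeFn_sub, Pi.sub_apply, lp.coeFn_sum, Finset.sum_apply]
  have h3 : ∀ i ∈ Finset.range n, (lp.single 2 i ((g : ℕ → 𝕜) i) : H 𝕜) j =
      if i = j then (g : ℕ → 𝕜) j else 0 := by
    intro i _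
    split_ifs with h
    · rw [h, lp.single_apply_self]
    · rw [lp.single_apply_ne _ _ _ (fun e => h e.symm)]
  rw [Finset.sum_congr rfl h3, Finset.sum_ite_eq' (Finset.range n) j]
  unfold ind
  by_cases hj : j < n
  · rw [if_pos (Finset.mem_range.2 hj), if_neg (not_not.2 hj)]
    simp
  · rw [if_neg (fun h => hj (Finset.mem_range.1 h)), if_pos hj]
    simp

theorem q_eq (N : ℕ) : M 𝕜 (ind fun i => i < N) =
    ∑ i ∈ Finset.range N, K 𝕜 (fun _ => 𝕜) 2 i := by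
  have h1 : (ind fun i => i < N) = trunc 1 N := rfl
  rw [h1, M, D_trunc 𝕜 (fun _ => 𝕜) 2 ⟨1, fun n => by simp⟩]
  refine Finset.sum_congr rfl fun i _ => ?_
  simp

theorem small_K (b : H 𝕜 →L[𝕜] H 𝕜) (i : ℕ) :
    Tendsto (fun n => ‖M 𝕜 (ind fun i => ¬ i < n) * b * K 𝕜 (fun _ => 𝕜) 2 i‖) atTop (𝓝 0) := by
  have h1 := (tendsto_r (b (lp.single 2 i 1))).norm
  rw [norm_zero] at h1
  refine squeeze_zero (fun n => norm_nonneg _) (fun n => ?_) h1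
  refine ContinuousLinearMap.opNorm_le_bound _ (norm_nonneg _) fun f => ?_
  have h2 : K 𝕜 (fun _ => 𝕜) 2 i f = (f : ℕ → 𝕜) i • (lp.single 2 i (1 : 𝕜) : H 𝕜) := by
    change (lp.single 2 i ((f : ℕ → 𝕜) i) : H 𝕜) = _
    rw [← lp.single_smul, smul_eq_mul, mul_one]
  change ‖M 𝕜 (ind fun i => ¬ i < n) (b (K 𝕜 (fun _ => 𝕜) 2 i f))‖ ≤ _
  rw [h2, map_smul, map_smul, norm_smul, mul_comm]
  exact mul_le_mul_of_nonneg_left (lp.norm_apply_le_norm two_ne_zero f i) (norm_nonneg _)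

theorem small (b : H 𝕜 →L[𝕜] H 𝕜) (N : ℕ) :
    Tendsto (fun n => ‖M 𝕜 (ind fun i => ¬ i < n) * b * M 𝕜 (ind fun i => i < N)‖)
      atTop (𝓝 0) := by
  have h1 : Tendsto (fun n => ∑ i ∈ Finset.range N,
      ‖M 𝕜 (ind fun i => ¬ i < n) * b * K 𝕜 (fun _ => 𝕜) 2 i‖) atTop (𝓝 0) := by
    have h2 := tendsto_finsetSum (Finset.range N) fun i _ => small_K b i
    simpa using h2
  refine squeeze_zero (fun n => norm_nonneg _) (fun n => ?_) h1
  rw [q_eq, Finset.mul_sum]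
  exact norm_sum_le _ _

theorem next (a : H 𝕜 →L[𝕜] H 𝕜) (N k : ℕ) : ∃ n, N < n ∧
    ‖M 𝕜 (ind fun i => ¬ i < n) * a * M 𝕜 (ind fun i => i < N)‖ ≤ (1 / 2) ^ k ∧
    ‖M 𝕜 (ind fun i => i < N) * a * M 𝕜 (ind fun i => ¬ i < n)‖ ≤ (1 / 2) ^ k := by
  have h0 : (0 : ℝ) < (1 / 2) ^ k := by positivity
  have h1 := (small a N).eventually_le_const h0
  have h2 := (small (star a) N).eventually_le_const h0
  obtain ⟨n, h3, h4, h5⟩ := (h1.and (h2.and (eventually_gt_atTop N))).exists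
  refine ⟨n, h5, h3, ?_⟩
  rw [← norm_star, star_mul, star_mul, star_M (bd_ind _), star_M (bd_ind _), ← mul_assoc]
  exact h4

/-- recursion -/
def iter (f : ℕ → ℕ → ℕ) : ℕ → ℕ
  | 0 => 0
  | k + 1 => f (iter f k) k

theorem seq (a : H 𝕜 →L[𝕜] H 𝕜) : ∃ β : ℕ → ℕ, Tendsto β atTop atTop ∧ ∀ k,
    ‖M 𝕜 (ind fun i => ¬ β i < k + 1) * a * M 𝕜 (ind fun i => β i < k)‖ ≤ (1 / 2) ^ k ∧
    ‖M 𝕜 (ind fun i => β i < k) * a * M 𝕜 (ind fun i => ¬ β i < k + 1)‖ ≤ (1 / 2) ^ k := by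
  choose f hf using next a
  obtain ⟨Ns, hs0, hs⟩ : ∃ Ns : ℕ → ℕ, Ns 0 = 0 ∧ ∀ k, Ns (k + 1) = f (Ns k) k :=
    ⟨iter f, rfl, fun k => rfl⟩
  have hm : StrictMono Ns := strictMono_nat_of_lt_succ fun k => by
    rw [hs]
    exact (hf (Ns k) k).1
  have hex : ∀ i, ∃ k, i < Ns (k + 1) := fun i => ⟨i, by
    have := hm.le_apply (x := i + 1)
    omega⟩
  have hβ : ∀ i k, Nat.find (hex i) < k ↔ i < Ns k := by
    intro i k
    constructor
    · intro h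
      exact (Nat.find_spec (hex i)).trans_le (hm.monotone h)
    · intro h
      cases k with
      | zero => rw [hs0] at h; exact absurd h (Nat.not_lt_zero i)
      | succ k => exact Nat.lt_succ_of_le (Nat.find_min' (hex i) h)
  refine ⟨fun i => Nat.find (hex i), tendsto_atTop.2 fun k => ?_, fun k => ?_⟩
  · filter_upwards [eventually_ge_atTop (Ns k)] with i hi
    by_contra hc
    exact absurd ((hβ i k).1 (not_le.1 hc)) (not_lt.2 hi)
  · have e1 : (ind fun i => Nat.find (hex i) < k) = ind fun i => i < Ns k := by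
      funext i
      simp only [ind, hβ]
    have e2 : (ind fun i : ℕ => ¬ Nat.find (hex i) < k + 1) =
        ind fun i : ℕ => ¬ i < Ns (k + 1) := by
      funext i
      simp only [ind, hβ]
    rw [e1, e2, hs]
    exact ⟨(hf (Ns k) k).2.1, (hf (Ns k) k).2.2⟩

end Pool.Agent.H761J.TdComm
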