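import Mathlib

set_option autoImplicit false
set_option linter.unusedSectionVars false

/-!
Exponentials modulo a closed two-sided ideal.
-/

namespace Pool.Agent.H761J.TdExp

open Filter Topology NormedSpace

section

variable {𝕜 : Type*} [RCLike 𝕜] {𝔸 : Type*} [NormedRing 𝔸] [NormedAlgebra 𝕜 𝔸] [CompleteSpace 𝔸]
  {I : Ideal 𝔸} [I.IsTwoSided]

theorem smul_mem (c : 𝕜) {x : 𝔸} (hx : x ∈ I) : c • x ∈ I := by
  rw [Algebra.smul_def]
  exact I.mul_mem_left _ hx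

theorem pow_mem {x y : 𝔸} (h : x * y - y * x ∈ I) (n : ℕ) :
    (x + y) ^ n - ∑ m ∈ Finset.HasAntidiagonal.antidiagonal n, (n.choose m.1) • (x ^ m.1 * y ^ m.2) ∈ I := by
  rw [← Ideal.Quotient.eq]
  have hc : Commute (Ideal.Quotient.mk I x) (Ideal.Quotient.mk I y) := by
    have h1 := (Ideal.Quotient.eq (I := I)).2 h
    rw [map_mul, map_mul] at h1
    exact h1
  rw [map_pow, map_add, hc.add_pow' n, map_sum]
  refine Finset.sum_congr rfl fun m _ => ?_
  rw [map_nsmul, map_mul, map_pow, map_pow]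

theorem hasSum_mem (hI : IsClosed (I : Set 𝔸)) {f : ℕ → 𝔸} {a : 𝔸} (hf : HasSum f a)
    (h : ∀ n, f n ∈ I) : a ∈ I :=
  hI.mem_of_tendsto hf (Eventually.of_forall fun _ => I.sum_mem fun n _ => h n)

variable (𝕜)

include 𝕜

theorem exp_add_mem (hI : IsClosed (I : Set 𝔸)) {x y : 𝔸} (h : x * y - y * x ∈ I) :
    exp (x + y) - exp x * exp y ∈ I := by
  have h1 := exp_series_hasSum_exp' (𝕂 := 𝕜) (x + y)
  have hx := exp_series_hasSum_exp' (𝕂 := 𝕜) x
  have hy := exp_series_hasSum_exp' (𝕂 := 𝕜) y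
  have hxn := norm_expSeries_summable' (𝕂 := 𝕜) x
  have hyn := norm_expSeries_summable' (𝕂 := 𝕜) y
  have h2 : HasSum (fun n => ∑ kl ∈ Finset.HasAntidiagonal.antidiagonal n,
      (((kl.1.factorial : 𝕜)⁻¹) • x ^ kl.1) * (((kl.2.factorial : 𝕜)⁻¹) • y ^ kl.2))
      (exp x * exp y) := by
    have h3 := tsum_mul_tsum_eq_tsum_sum_antidiagonal_of_summable_norm hxn hyn
    rw [hx.tsum_eq, hy.tsum_eq] at h3
    rw [h3]
    exact (summable_norm_sum_mul_antidiagonal_of_summable_norm hxn hyn).of_norm.hasSum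
  refine hasSum_mem hI (h1.sub h2) fun n => ?_
  have h4 : ∑ kl ∈ Finset.HasAntidiagonal.antidiagonal n,
      (((kl.1.factorial : 𝕜)⁻¹) • x ^ kl.1) * (((kl.2.factorial : 𝕜)⁻¹) • y ^ kl.2) =
      ((n.factorial : 𝕜)⁻¹) • ∑ m ∈ Finset.HasAntidiagonal.antidiagonal n, (n.choose m.1) • (x ^ m.1 * y ^ m.2) := by
    rw [Finset.smul_sum]
    refine Finset.sum_congr rfl fun kl hkl => ?_
    rw [← Nat.cast_smul_eq_nsmul 𝕜, smul_smul, smul_mul_smul_comm,
      ← Finset.HasAntidiagonal.mem_antidiagonal.mp hkl, Nat.cast_add_choose, Finset.HasAntidiagonal.mem_antidiagonal.mp hkl]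
    congr 1
    field_simp [n.factorial_ne_zero]
  rw [h4, ← smul_sub]
  exact smul_mem _ (pow_mem h n)

theorem exp_sub_one_mem (hI : IsClosed (I : Set 𝔸)) {x : 𝔸} (h : x ∈ I) : exp x - 1 ∈ I := by
  have hx := exp_series_hasSum_exp' (𝕂 := 𝕜) x
  have h1 := (hasSum_nat_add_iff' 1).2 hx
  simp only [Finset.range_one, Finset.sum_singleton, Nat.factorial_zero, Nat.cast_one, inv_one,
    pow_zero, one_smul] at h1
  refine hasSum_mem hI h1 fun n => smul_mem _ ?_
  rw [pow_succ]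
  exact I.mul_mem_left _ h

end

end Pool.Agent.H761J.TdExp
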