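import Mathlib

set_option autoImplicit false

/-!
Multiplication operators on `ℓ^p` sums of finite dimensional spaces.
-/

namespace Pool.Agent.H761J.TdMul

open Filter Topology ENNReal

section

variable (𝕜 : Type*) [RCLike 𝕜] (E : ℕ → Type*) [∀ i, NormedAddCommGroup (E i)]
  [∀ i, NormedSpace 𝕜 (E i)] (p : ℝ≥0∞) [Fact (1 ≤ p)]

/-- multiplication by `u i` on the `i`-th space -/
noncomputable def coef (u : ℕ → ℝ) (i : ℕ) : E i →L[𝕜] E i :=
  ((u i : ℝ) : 𝕜) • ContinuousLinearMap.id 𝕜 (E i)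

theorem norm_coef_le (u : ℕ → ℝ) (i : ℕ) : ‖coef 𝕜 E u i‖ ≤ |u i| := by
  unfold coef
  refine (norm_smul_le ((u i : ℝ) : 𝕜) (ContinuousLinearMap.id 𝕜 (E i))).trans ?_
  have h1 : ‖((u i : ℝ) : 𝕜)‖ = |u i| := by simp
  rw [h1]
  calc |u i| * ‖ContinuousLinearMap.id 𝕜 (E i)‖ ≤ |u i| * 1 :=
        mul_le_mul_of_nonneg_left (ContinuousLinearMap.norm_id_le) (abs_nonneg _)
    _ = |u i| := mul_one _

/-- the multiplication operator, for a bounded sequence -/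
noncomputable def mulOp (u : ℕ → ℝ) {C : ℝ} (hC : 0 ≤ C) (h : ∀ i, |u i| ≤ C) :
    lp E p →L[𝕜] lp E p :=
  lp.mapCLM p (coef 𝕜 E u) hC fun i => (norm_coef_le 𝕜 E u i).trans (h i)

theorem mulOp_apply (u : ℕ → ℝ) {C : ℝ} (hC : 0 ≤ C) (h : ∀ i, |u i| ≤ C) (f : lp E p) (i : ℕ) :
    (mulOp 𝕜 E p u hC h f : ∀ i, E i) i = ((u i : ℝ) : 𝕜) • f i := by
  unfold mulOp
  rw [lp.mapCLM_apply_coe]
  simp [coef]

open Classical in
/-- the multiplication operator with `u` (zero if `u` is unbounded) -/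
noncomputable def D (u : ℕ → ℝ) : lp E p →L[𝕜] lp E p :=
  if h : ∃ C : ℝ, ∀ n, |u n| ≤ C then
    mulOp 𝕜 E p u (abs_nonneg (Classical.choose h))
      fun i => (Classical.choose_spec h i).trans (le_abs_self _)
  else 0

variable {u : ℕ → ℝ}

theorem D_apply (hu : ∃ C : ℝ, ∀ n, |u n| ≤ C) (f : lp E p) (i : ℕ) :
    (D 𝕜 E p u f : ∀ i, E i) i = ((u i : ℝ) : 𝕜) • f i := by
  unfold D
  rw [dif_pos hu, mulOp_apply]

theorem norm_D_le {C : ℝ} (hC : 0 ≤ C) (h : ∀ i, |u i| ≤ C) : ‖D 𝕜 E p u‖ ≤ C := by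
  have h1 : D 𝕜 E p u = mulOp 𝕜 E p u hC h := by
    ext f i
    rw [D_apply 𝕜 E p ⟨C, h⟩, mulOp_apply]
  rw [h1]
  exact lp.norm_mapCLM_le p _ hC _

theorem D_add {v : ℕ → ℝ} (hu : ∃ C : ℝ, ∀ n, |u n| ≤ C) (hv : ∃ C : ℝ, ∀ n, |v n| ≤ C) :
    D 𝕜 E p (u + v) = D 𝕜 E p u + D 𝕜 E p v := by
  have huv : ∃ C : ℝ, ∀ n, |(u + v) n| ≤ C := by
    obtain ⟨C, hC⟩ := hu
    obtain ⟨C', hC'⟩ := hv
    exact ⟨C + C', fun n => (abs_add_le _ _).trans (add_le_add (hC n) (hC' n))⟩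
  ext f i
  have h4 : ((D 𝕜 E p u + D 𝕜 E p v) f : ∀ i, E i) i =
      (D 𝕜 E p u f : ∀ i, E i) i + (D 𝕜 E p v f : ∀ i, E i) i := rfl
  rw [D_apply 𝕜 E p huv f i, h4, D_apply 𝕜 E p hu f i, D_apply 𝕜 E p hv f i, ← add_smul]
  simp

theorem D_one : D 𝕜 E p 1 = ContinuousLinearMap.id 𝕜 (lp E p) := by
  ext f i
  rw [D_apply 𝕜 E p ⟨1, fun n => by simp⟩]
  simp

/-- the coordinate projection -/
noncomputable def K (i : ℕ) : lp E p →L[𝕜] lp E p :=
  (lp.singleContinuousLinearMap 𝕜 E p i).comp (lp.evalCLM 𝕜 E p i)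

theorem compact_K [∀ i, FiniteDimensional 𝕜 (E i)] (i : ℕ) : IsCompactOperator (K 𝕜 E p i) := by
  have : ProperSpace (E i) := FiniteDimensional.proper 𝕜 (E i)
  have h1 : IsCompactOperator (lp.evalCLM 𝕜 E p i) :=
    isCompactOperator_of_locallyCompactSpace_dom _
  exact h1.clm_comp (lp.singleContinuousLinearMap 𝕜 E p i)

/-- the truncation -/
def trunc (u : ℕ → ℝ) (n i : ℕ) : ℝ := if i < n then u i else 0

theorem trunc_bdd (hu : ∃ C : ℝ, ∀ n, |u n| ≤ C) (n : ℕ) : ∃ C : ℝ, ∀ i, |trunc u n i| ≤ C := by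
  obtain ⟨C, hC⟩ := hu
  refine ⟨C, fun i => ?_⟩
  unfold trunc
  split_ifs
  · exact hC i
  · simpa using (abs_nonneg _).trans (hC 0)

theorem D_trunc (hu : ∃ C : ℝ, ∀ n, |u n| ≤ C) (n : ℕ) :
    D 𝕜 E p (trunc u n) = ∑ i ∈ Finset.range n, ((u i : ℝ) : 𝕜) • K 𝕜 E p i := by
  ext f j
  rw [D_apply 𝕜 E p (trunc_bdd hu n)]
  rw [sum_apply, lp.coeFn_sum, Finset.sum_apply]
  have h1 : ∀ i ∈ Finset.range n, ((((u i : ℝ) : 𝕜) • K 𝕜 E p i) f : ∀ i, E i) j =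
      if i = j then ((u j : ℝ) : 𝕜) • f j else 0 := by
    intro i _
    rw [smul_apply, lp.coeFn_smul, Pi.smul_apply]
    change ((u i : ℝ) : 𝕜) • (lp.single p i (f i) : ∀ i, E i) j = _
    split_ifs with h
    · subst h
      rw [lp.single_apply_self]
    · rw [lp.single_apply_ne _ _ _ (fun e => h e.symm), smul_zero]
  rw [Finset.sum_congr rfl h1, Finset.sum_ite_eq' (Finset.range n) j]
  unfold trunc
  by_cases hj : j < n
  · rw [if_pos hj, if_pos (Finset.mem_range.2 hj)]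
  · rw [if_neg hj, if_neg (fun h => hj (Finset.mem_range.1 h))]
    simp

theorem compact_D [∀ i, FiniteDimensional 𝕜 (E i)] [∀ i, CompleteSpace (E i)]
    (hu : Tendsto u atTop (𝓝 0)) : IsCompactOperator (D 𝕜 E p u) := by
  have hb : ∃ C : ℝ, ∀ n, |u n| ≤ C := by
    obtain ⟨C, hC⟩ := (Metric.isBounded_range_of_tendsto u hu).exists_norm_le
    exact ⟨C, fun n => by simpa using hC _ ⟨n, rfl⟩⟩
  refine isCompactOperator_of_tendsto (l := atTop) (F := fun n => D 𝕜 E p (trunc u n)) ?_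
    (Eventually.of_forall fun n => ?_)
  · rw [Metric.tendsto_atTop]
    intro ε hε
    obtain ⟨N, hN⟩ := (Metric.tendsto_atTop.1 hu) (ε / 2) (by positivity)
    refine ⟨N, fun n hn => ?_⟩
    rw [dist_eq_norm]
    have hd : ∀ i, |(trunc u n - u) i| ≤ ε / 2 := by
      intro i
      rw [Pi.sub_apply]
      unfold trunc
      split_ifs with h
      · simp
        positivity
      · have h1 := hN i (by omega)
        rw [Real.dist_eq, sub_zero] at h1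
        rw [zero_sub, abs_neg]
        exact h1.le
    have h2 : D 𝕜 E p (trunc u n) - D 𝕜 E p u = D 𝕜 E p (trunc u n - u) := by
      rw [sub_eq_iff_eq_add, ← D_add 𝕜 E p ⟨_, hd⟩ hb]
      congr 1
      funext i
      simp
    rw [h2]
    exact (norm_D_le 𝕜 E p (by positivity) hd).trans_lt (by linarith)
  · rw [D_trunc 𝕜 E p hb]
    have h3 : ∀ s : Finset ℕ, IsCompactOperator
        (∑ i ∈ s, ((u i : ℝ) : 𝕜) • K 𝕜 E p i : lp E p →L[𝕜] lp E p) := by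
      intro s
      have h4 : (∑ i ∈ s, ((u i : ℝ) : 𝕜) • K 𝕜 E p i : lp E p →L[𝕜] lp E p) ∈
          compactOperator (RingHom.id 𝕜) (lp E p) (lp E p) :=
        Submodule.sum_mem _ fun i _ => Submodule.smul_mem _ _ (compact_K 𝕜 E p i)
      exact h4
    exact h3 _

end

end Pool.Agent.H761J.TdMul
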