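import Pool.Agent.TH774.TD.Add

set_option autoImplicit false

/-!
Additive maps on slowly oscillating weights, under Turing determinacy.
-/

namespace Pool.Agent.H761J.TdSlow

open Pool.Agent.H685R3 Pool.Agent.TH774.TD Filter Topology

/-- `u` is bounded and slowly oscillating. -/
def Slow (u : ℕ → ℝ) : Prop :=
  (∃ C : ℝ, ∀ n, |u n| ≤ C) ∧ Tendsto (fun n => u (n + 1) - u n) atTop (𝓝 0)

theorem slow_add {u v : ℕ → ℝ} (hu : Slow u) (hv : Slow v) : Slow (u + v) := by
  obtain ⟨⟨C, hC⟩, h1⟩ := hu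
  obtain ⟨⟨D, hD⟩, h2⟩ := hv
  refine ⟨⟨C + D, fun n => ?_⟩, ?_⟩
  · exact (abs_add_le _ _).trans (add_le_add (hC n) (hD n))
  · have h3 := h1.add h2
    rw [add_zero] at h3
    refine h3.congr fun n => ?_
    simp only [Pi.add_apply]
    ring

theorem slow_neg {u : ℕ → ℝ} (hu : Slow u) : Slow (-u) := by
  obtain ⟨⟨C, hC⟩, h1⟩ := hu
  refine ⟨⟨C, fun n => by simpa using hC n⟩, ?_⟩
  have h3 := h1.neg
  rw [neg_zero] at h3
  refine h3.congr fun n => ?_
  simp only [Pi.neg_apply]
  ring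

theorem slow_sub {u v : ℕ → ℝ} (hu : Slow u) (hv : Slow v) : Slow (u - v) := by
  rw [sub_eq_add_neg]
  exact slow_add hu (slow_neg hv)

theorem slow_one : Slow 1 := by
  refine ⟨⟨1, fun n => by simp⟩, ?_⟩
  simp

theorem al_succ_le (x : ℕ → Bool) (n : ℕ) : al x (n + 1) ≤ al x n + 1 := by
  by_contra hc
  push Not at hc
  have h1 : g x (al x n + 1) < n + 1 := (lt_lc (strictMono_g x)).1 hc
  have h2 : n ≤ g x (al x n) := by
    by_contra hd
    push Not at hd
    exact lt_irrefl _ ((lt_lc (strictMono_g x)).2 hd)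
  have h3 := strictMono_g x (Nat.lt_succ_self (al x n))
  simp only [Nat.succ_eq_add_one] at h3
  omega

theorem al_le_succ (x : ℕ → Bool) (n : ℕ) : al x n ≤ al x (n + 1) := by
  by_contra hc
  push Not at hc
  have h1 : g x (al x (n + 1)) < n := (lt_lc (strictMono_g x)).1 hc
  exact lt_irrefl _ ((lt_lc (strictMono_g x)).2 (show g x (al x (n + 1)) < n + 1 by omega))

theorem slow_rho (x : ℕ → Bool) : Slow (rho x) := by
  refine ⟨⟨1, fun n => ?_⟩, ?_⟩
  · have h1 := wv_mem (sq x n)
    rw [abs_le]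
    exact ⟨by have := h1.1; unfold rho; linarith, h1.2⟩
  · have h2 : Tendsto (fun n => sq x (n + 1) - sq x n) atTop (𝓝 0) := by
      refine sqrt_close (a := fun n => al x (n + 1)) (b := fun n => al x n)
        ((tendsto_add_atTop_iff_nat 1).2 (tendsto_al x)) (Eventually.of_forall fun n => ?_)
      exact ⟨al_succ_le x n, (al_le_succ x n).trans (Nat.le_succ _)⟩
    exact rho_close_of h2

theorem slow_of_null {u : ℕ → ℝ} (hu : Tendsto u atTop (𝓝 0)) : Slow u := by
  refine ⟨?_, ?_⟩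
  · obtain ⟨C, hC⟩ := (Metric.isBounded_range_of_tendsto u hu).exists_norm_le
    exact ⟨C, fun n => by simpa using hC _ ⟨n, rfl⟩⟩
  · have h1 := ((tendsto_add_atTop_iff_nat 1).2 hu).sub hu
    rw [sub_zero] at h1
    exact h1

/-- Additive maps on the bounded slowly oscillating weights, zero on the null sequences. -/
theorem core {H : Type*} [AddGroup H] {κ : H → ℕ → Bool} (hκ : Function.Injective κ)
    (ψ : (ℕ → ℝ) → H) (hadd : ∀ u v, Slow u → Slow v → ψ (u + v) = ψ u + ψ v)
    (hnull : ∀ u, Tendsto u atTop (𝓝 0) → ψ u = 0) :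
    (∀ i, TuringInvariant {x | κ (ψ (rho x)) i = true}) ∧
    ((∀ i, Determined {x | κ (ψ (rho x)) i = true}) → ψ 1 = 0) := by
  have key : ∀ a b : ℕ → ℝ, Slow b → Tendsto (fun n => a n - b n) atTop (𝓝 0) → ψ a = ψ b := by
    intro a b hb h
    have h1 : a = (fun n => a n - b n) + b := by
      funext n
      simp
    rw [h1, hadd _ _ (slow_of_null h) hb, hnull _ h, zero_add]
  have hinv : ∀ x y, TuringReducible (charFn x) (charFn y) →
      TuringReducible (charFn y) (charFn x) → ψ (rho x) = ψ (rho y) := fun x y h1 h2 =>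
    key _ _ (slow_rho y) (rho_close h1 h2)
  have hTI : ∀ i, TuringInvariant {x | κ (ψ (rho x)) i = true} := by
    intro i x y h1 h2 hx
    change κ _ i = true at hx
    change κ _ i = true
    rw [← hinv x y h1 h2]
    exact hx
  refine ⟨hTI, fun hD => ?_⟩
  obtain ⟨z, hz⟩ := const_on_cone hTI hD
  have hconst : ∀ y, Pool.Agent.Helper227.TLe z y → ψ (rho y) = ψ (rho z) := by
    intro y hy
    refine hκ (funext fun i => ?_)
    rcases hz i with h | h
    · have h1 : κ (ψ (rho y)) i = true := h y hy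
      have h2 : κ (ψ (rho z)) i = true := h z (Pool.Agent.Helper227.TLe.refl z)
      rw [h1, h2]
    · have h1 : ¬ κ (ψ (rho y)) i = true := h y hy
      have h2 : ¬ κ (ψ (rho z)) i = true := h z (Pool.Agent.Helper227.TLe.refl z)
      rw [Bool.not_eq_true] at h1 h2
      rw [h1, h2]
  obtain ⟨y₁, y₂, y₃, y₄, h1, h2, h3, h4, h5, h6⟩ := partitions z
  set r := ψ (rho z) with hr'
  have e1 : r = r + r := by
    have h7 : ψ (rho y₁) = ψ (rho y₂ + rho y₃) :=
      key _ _ (slow_add (slow_rho y₂) (slow_rho y₃)) h5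
    rw [hadd _ _ (slow_rho y₂) (slow_rho y₃), hconst _ h1, hconst _ h2, hconst _ h3] at h7
    exact h7
  have e2 : ψ 1 = r + r := by
    have h7 : ψ 1 = ψ (rho y₁ + rho y₄) :=
      key _ _ (slow_add (slow_rho y₁) (slow_rho y₄)) h6
    rw [hadd _ _ (slow_rho y₁) (slow_rho y₄), hconst _ h1, hconst _ h4] at h7
    exact h7
  have e3 : r = 0 := by
    have h7 : r + 0 = r + r := by rw [add_zero]; exact e1
    exact (add_left_cancel h7).symm
  rw [e2, e3, add_zero]

end Pool.Agent.H761J.TdSlow
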