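import Pool.Agent.H761J.TdComm
import Pool.Agent.H761J.TdExp
import Pool.Agent.H761J.TdSlow

set_option autoImplicit false

/-!
Every bounded operator of `ℓ²` commutes modulo the compact operators with the multiplications by
all slowly oscillating sequences, blown up on suitable blocks.
-/

namespace Pool.Agent.H761J.TdTri

open Filter Topology ENNReal Pool.Agent.H761J.TdMul Pool.Agent.H761J.TdComm
open Pool.Agent.H761J.TdSlow (Slow)

variable {𝕜 : Type*} [RCLike 𝕜]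

theorem null_mem {u : ℕ → ℝ} (hu : Tendsto u atTop (𝓝 0)) : M 𝕜 u ∈ KI 𝕜 :=
  compact_D 𝕜 (fun _ => 𝕜) 2 hu

theorem ind_null {β : ℕ → ℕ} (hβ : Tendsto β atTop atTop) (k : ℕ) :
    Tendsto (ind fun i => β i = k) atTop (𝓝 0) := by
  refine tendsto_const_nhds.congr' ?_
  filter_upwards [hβ.eventually_gt_atTop k] with i hi
  unfold ind
  rw [if_neg (by omega)]

theorem ind_mul (β : ℕ → ℕ) (k : ℕ) :
    (ind fun i => β i = k) = (ind fun i => β i = k) * (ind fun i => β i < k + 1) := by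
  funext i
  simp only [ind, Pi.mul_apply]
  split_ifs <;> first | omega | simp

theorem tri (a : H 𝕜 →L[𝕜] H 𝕜) {β : ℕ → ℕ} (hβ : Tendsto β atTop atTop)
    (hk : ∀ k, ‖M 𝕜 (ind fun i => ¬ β i < k + 1) * a * M 𝕜 (ind fun i => β i < k)‖ ≤ (1 / 2) ^ k ∧
      ‖M 𝕜 (ind fun i => β i < k) * a * M 𝕜 (ind fun i => ¬ β i < k + 1)‖ ≤ (1 / 2) ^ k) :
    ∃ F ∈ KI 𝕜, ∀ (i j : ℕ) (x : 𝕜), β i + 2 ≤ β j ∨ β j + 2 ≤ β i →
      ((a - F) (lp.single 2 j x) : ℕ → 𝕜) i = 0 := by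
  let e : ℕ → H 𝕜 →L[𝕜] H 𝕜 := fun k => M 𝕜 (ind fun i => β i = k)
  let r : ℕ → H 𝕜 →L[𝕜] H 𝕜 := fun k => M 𝕜 (ind fun i => ¬ β i < k + 1 + 1)
  let q : ℕ → H 𝕜 →L[𝕜] H 𝕜 := fun k => M 𝕜 (ind fun i => β i < k + 1)
  let Fk : ℕ → H 𝕜 →L[𝕜] H 𝕜 := fun k => e k * a * r k + r k * a * e k
  have heq : ∀ k, e k * q k = e k := by
    intro k
    change M 𝕜 _ * M 𝕜 _ = M 𝕜 _
    rw [← M_mul (bd_ind _) (bd_ind _), ← ind_mul]
  have hqe : ∀ k, q k * e k = e k := by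
    intro k
    change M 𝕜 _ * M 𝕜 _ = M 𝕜 _
    rw [← M_mul (bd_ind _) (bd_ind _), mul_comm, ← ind_mul]
  have hbound : ∀ k, ‖Fk k‖ ≤ (1 / 2) ^ k := by
    intro k
    have h1 : ‖e k * a * r k‖ ≤ (1 / 2) ^ (k + 1) := by
      have h2 : e k * a * r k = e k * (q k * a * r k) := by
        rw [← mul_assoc, ← mul_assoc, heq]
      rw [h2]
      refine (norm_mul_le _ _).trans ?_
      calc ‖e k‖ * ‖q k * a * r k‖ ≤ 1 * (1 / 2) ^ (k + 1) :=
            mul_le_mul (norm_ind _) (hk (k + 1)).2 (norm_nonneg _) zero_le_one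
        _ = _ := one_mul _
    have h3 : ‖r k * a * e k‖ ≤ (1 / 2) ^ (k + 1) := by
      have h2 : r k * a * e k = (r k * a * q k) * e k := by
        rw [mul_assoc (r k * a), hqe]
      rw [h2]
      refine (norm_mul_le _ _).trans ?_
      calc ‖r k * a * q k‖ * ‖e k‖ ≤ (1 / 2) ^ (k + 1) * 1 :=
            mul_le_mul (hk (k + 1)).1 (norm_ind _) (norm_nonneg _) (by positivity)
        _ = _ := mul_one _
    calc ‖Fk k‖ ≤ ‖e k * a * r k‖ + ‖r k * a * e k‖ := norm_add_le _ _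
      _ ≤ (1 / 2) ^ (k + 1) + (1 / 2) ^ (k + 1) := add_le_add h1 h3
      _ = (1 / 2) ^ k := by rw [pow_succ]; ring
  have hsum : HasSum Fk (∑' k, Fk k) :=
    (Summable.of_norm_bounded summable_geometric_two hbound).hasSum
  refine ⟨∑' k, Fk k, Pool.Agent.H761J.TdExp.hasSum_mem closed_KI hsum fun k => ?_, ?_⟩
  · have he : e k ∈ KI 𝕜 := null_mem (ind_null hβ k)
    refine (KI 𝕜).add_mem ?_ ((KI 𝕜).mul_mem_left _ he)
    exact Ideal.mul_mem_right _ _ (Ideal.mul_mem_right _ _ he)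
  · intro i j x hij
    have h1 := hsum.mapL ((lp.evalCLM 𝕜 (fun _ => 𝕜) 2 i).comp
      (ContinuousLinearMap.apply 𝕜 (H 𝕜) (lp.single 2 j x : H 𝕜)))
    have h2 : ∀ k, ((lp.evalCLM 𝕜 (fun _ => 𝕜) 2 i).comp
      (ContinuousLinearMap.apply 𝕜 (H 𝕜) (lp.single 2 j x : H 𝕜))) (Fk k) =
        (((ind fun i => β i = k) i : ℝ) : 𝕜) * ((((ind fun i => ¬ β i < k + 1 + 1) j : ℝ) : 𝕜) *
          (a (lp.single 2 j x) : ℕ → 𝕜) i) +
        (((ind fun i => ¬ β i < k + 1 + 1) i : ℝ) : 𝕜) * ((((ind fun i => β i = k) j : ℝ) : 𝕜) *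
          (a (lp.single 2 j x) : ℕ → 𝕜) i) := by
      intro k
      rw [← three (bd_ind _) (bd_ind _), ← three (bd_ind _) (bd_ind _)]
      rfl
    have h3 : HasSum (fun k => ((lp.evalCLM 𝕜 (fun _ => 𝕜) 2 i).comp
      (ContinuousLinearMap.apply 𝕜 (H 𝕜) (lp.single 2 j x : H 𝕜))) (Fk k))
        ((a (lp.single 2 j x) : ℕ → 𝕜) i) := by
      rcases hij with hij | hij
      · have h6 : (fun k => ((lp.evalCLM 𝕜 (fun _ => 𝕜) 2 i).comp
            (ContinuousLinearMap.apply 𝕜 (H 𝕜) (lp.single 2 j x : H 𝕜))) (Fk k)) =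
            fun k => if k = β i then (a (lp.single 2 j x) : ℕ → 𝕜) i else 0 := by
          funext k
          rw [h2 k]
          simp only [ind]
          split_ifs <;> first | omega | simp
        rw [h6]
        exact hasSum_ite_eq _ _
      · have h6 : (fun k => ((lp.evalCLM 𝕜 (fun _ => 𝕜) 2 i).comp
            (ContinuousLinearMap.apply 𝕜 (H 𝕜) (lp.single 2 j x : H 𝕜))) (Fk k)) =
            fun k => if k = β j then (a (lp.single 2 j x) : ℕ → 𝕜) i else 0 := by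
          funext k
          rw [h2 k]
          simp only [ind]
          split_ifs <;> first | omega | simp
        rw [h6]
        exact hasSum_ite_eq _ _
    have h4 := h1.unique h3
    change (((a - ∑' k, Fk k) (lp.single 2 j x) : H 𝕜) : ℕ → 𝕜) i = 0
    have h5 : (((a - ∑' k, Fk k) (lp.single 2 j x) : H 𝕜) : ℕ → 𝕜) i =
      (a (lp.single 2 j x) : ℕ → 𝕜) i - ((∑' k, Fk k) (lp.single 2 j x) : ℕ → 𝕜) i := rfl
    rw [h5]
    exact sub_eq_zero.2 h4.symm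

theorem Slow.bd {u : ℕ → ℝ} (hu : Slow u) : Bd u := hu.1

theorem Bd.comp {u : ℕ → ℝ} (hu : Bd u) (β : ℕ → ℕ) : Bd (u ∘ β) := by
  obtain ⟨C, hC⟩ := hu
  exact ⟨C, fun n => hC _⟩

/-- the neighbour of `k` which is congruent to `k + d` modulo three -/
def sh (d k : ℕ) : ℕ := if d % 3 = 0 then k else if d % 3 = 1 then k + 1 else k - 1

theorem sh_tendsto {u : ℕ → ℝ} (hu : Slow u) (d : ℕ) :
    Tendsto (fun k => u k - u (sh d k)) atTop (𝓝 0) := by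
  unfold sh
  split_ifs
  · simp
  · have h1 := hu.2.neg
    rw [neg_zero] at h1
    refine h1.congr fun n => ?_
    ring
  · rw [← tendsto_add_atTop_iff_nat 1]
    exact hu.2

theorem near (a F : H 𝕜 →L[𝕜] H 𝕜) {β : ℕ → ℕ} (hβ : Tendsto β atTop atTop)
    (hT : ∀ (i j : ℕ) (x : 𝕜), β i + 2 ≤ β j ∨ β j + 2 ≤ β i →
      ((a - F) (lp.single 2 j x) : ℕ → 𝕜) i = 0) {u : ℕ → ℝ} (hu : Slow u) (r s : ℕ)
    (hr : r < 3) (hs : s < 3) :
    M 𝕜 (u ∘ β) * (M 𝕜 (ind fun i => β i % 3 = r) * (a - F) * M 𝕜 (ind fun i => β i % 3 = s)) -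
      (M 𝕜 (ind fun i => β i % 3 = r) * (a - F) * M 𝕜 (ind fun i => β i % 3 = s)) * M 𝕜 (u ∘ β) ∈
      KI 𝕜 := by
  set d := s + 3 - r with hd
  have hb : Bd (u ∘ β) := Bd.comp hu.1 β
  have hb' : Bd (u ∘ (sh d ∘ β)) := Bd.comp hu.1 _
  have h1 : (M 𝕜 (ind fun i => β i % 3 = r) * (a - F) * M 𝕜 (ind fun i => β i % 3 = s)) *
      M 𝕜 (u ∘ β) = M 𝕜 (u ∘ (sh d ∘ β)) *
        (M 𝕜 (ind fun i => β i % 3 = r) * (a - F) * M 𝕜 (ind fun i => β i % 3 = s)) := by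
    rw [mul_assoc (M 𝕜 (ind fun i => β i % 3 = r) * (a - F)), ← M_mul (bd_ind _) hb,
      ← mul_assoc, ← mul_assoc, ← M_mul hb' (bd_ind _)]
    refine ext_single fun j x i => ?_
    rw [three (bd_ind _) ((bd_ind _).mul hb), three (hb'.mul (bd_ind _)) (bd_ind _)]
    by_cases hij : β i + 2 ≤ β j ∨ β j + 2 ≤ β i
    · rw [hT i j x hij]
      simp
    · simp only [Pi.mul_apply, ind, Function.comp]
      by_cases h2 : β i % 3 = r
      · by_cases h3 : β j % 3 = s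
        · have h4 : sh d (β i) = β j := by
            unfold sh
            split_ifs <;> omega
          rw [h4, if_pos h2, if_pos h3]
          push_cast
          ring
        · rw [if_neg h3]
          simp
      · rw [if_neg h2]
        simp
  have h5 : Tendsto (u ∘ β - u ∘ (sh d ∘ β)) atTop (𝓝 0) := (sh_tendsto hu d).comp hβ
  have h6 : M 𝕜 (u ∘ β) = M 𝕜 (u ∘ β - u ∘ (sh d ∘ β)) + M 𝕜 (u ∘ (sh d ∘ β)) := by
    have h7 : Bd (u ∘ β - u ∘ (sh d ∘ β)) := (Pool.Agent.H761J.TdSlow.slow_of_null h5).1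
    rw [M, M, M, ← D_add 𝕜 (fun _ => 𝕜) 2 h7 hb', sub_add_cancel]
  rw [h1, ← sub_mul]
  nth_rewrite 1 [h6]
  rw [add_sub_cancel_right]
  exact Ideal.mul_mem_right _ _ (null_mem h5)

theorem sum_ind (β : ℕ → ℕ) : ∑ r ∈ Finset.range 3, M 𝕜 (ind fun i => β i % 3 = r) = 1 := by
  rw [Finset.sum_range_succ, Finset.sum_range_succ, Finset.sum_range_succ, Finset.sum_range_zero,
    zero_add, M, M, M, ← D_add 𝕜 (fun _ => 𝕜) 2 (bd_ind _) (bd_ind _)]
  have h1 : Bd ((ind fun i => β i % 3 = 0) + ind fun i => β i % 3 = 1) := by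
    refine ⟨1, fun n => ?_⟩
    simp only [Pi.add_apply, ind]
    split_ifs <;> first | omega | simp
  rw [← D_add 𝕜 (fun _ => 𝕜) 2 h1 (bd_ind _)]
  have h2 : (((ind fun i => β i % 3 = 0) + ind fun i => β i % 3 = 1) +
      ind fun i => β i % 3 = 2) = 1 := by
    funext i
    simp only [Pi.add_apply, ind, Pi.one_apply]
    split_ifs <;> first | omega | simp
  rw [h2]
  exact D_one 𝕜 (fun _ => 𝕜) 2

/-- the blocks -/
theorem comm (a : H 𝕜 →L[𝕜] H 𝕜) : ∃ β : ℕ → ℕ, Tendsto β atTop atTop ∧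
    ∀ u, Slow u → M 𝕜 (u ∘ β) * a - a * M 𝕜 (u ∘ β) ∈ KI 𝕜 := by
  obtain ⟨β, hβ, hk⟩ := seq a
  refine ⟨β, hβ, fun u hu => ?_⟩
  obtain ⟨F, hF, hT⟩ := tri a hβ hk
  have h1 : a - F = ∑ r ∈ Finset.range 3, ∑ s ∈ Finset.range 3,
      M 𝕜 (ind fun i => β i % 3 = r) * (a - F) * M 𝕜 (ind fun i => β i % 3 = s) := by
    conv_lhs => rw [← one_mul (a - F), ← mul_one (1 * (a - F)), ← sum_ind β]
    rw [Finset.sum_mul, Finset.sum_mul]
    exact Finset.sum_congr rfl fun r _ => Finset.mul_sum _ _ _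
  have h2 : M 𝕜 (u ∘ β) * (a - F) - (a - F) * M 𝕜 (u ∘ β) ∈ KI 𝕜 := by
    rw [h1, Finset.mul_sum, Finset.sum_mul, ← Finset.sum_sub_distrib]
    refine (KI 𝕜).sum_mem fun r hr => ?_
    rw [Finset.mul_sum, Finset.sum_mul, ← Finset.sum_sub_distrib]
    refine (KI 𝕜).sum_mem fun s hs => ?_
    exact near a F hβ hT hu r s (Finset.mem_range.1 hr) (Finset.mem_range.1 hs)
  have h3 : M 𝕜 (u ∘ β) * a - a * M 𝕜 (u ∘ β) =
      (M 𝕜 (u ∘ β) * (a - F) - (a - F) * M 𝕜 (u ∘ β)) + (M 𝕜 (u ∘ β) * F - F * M 𝕜 (u ∘ β)) := by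
    rw [mul_sub, sub_mul]
    abel
  rw [h3]
  exact (KI 𝕜).add_mem h2 ((KI 𝕜).sub_mem ((KI 𝕜).mul_mem_left _ hF) (Ideal.mul_mem_right _ _ hF))

end Pool.Agent.H761J.TdTri
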