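import Pool.Agent.H761J.TdTri

set_option autoImplicit false

/-!
Homomorphisms from the group of invertible operators of `ℓ²`, trivial on the compact perturbations
of the identity, under Turing determinacy.
-/

namespace Pool.Agent.H761J.TdUnits

open Filter Topology ENNReal Pool.Agent.H761J.TdMul Pool.Agent.H761J.TdComm
open Pool.Agent.H761J.TdTri Pool.Agent.H761J.TdExp
open Pool.Agent.H761J.TdSlow (Slow)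

variable {𝕜 : Type*} [RCLike 𝕜]

theorem isUnit_exp (a : H 𝕜 →L[𝕜] H 𝕜) : IsUnit (NormedSpace.exp a) :=
  NormedSpace.isUnit_exp_of_mem_ball (𝕂 := 𝕜) <|
    (NormedSpace.expSeries_radius_eq_top 𝕜 (H 𝕜 →L[𝕜] H 𝕜)).symm ▸ edist_lt_top _ _

/-- the exponential, as a unit -/
noncomputable def expU (a : H 𝕜 →L[𝕜] H 𝕜) : (H 𝕜 →L[𝕜] H 𝕜)ˣ := (isUnit_exp a).unit

theorem expU_val (a : H 𝕜 →L[𝕜] H 𝕜) : (expU a : H 𝕜 →L[𝕜] H 𝕜) = NormedSpace.exp a := rfl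

/-- the block function -/
noncomputable def blk (a : H 𝕜 →L[𝕜] H 𝕜) : ℕ → ℕ := Classical.choose (comm a)

theorem blk_tendsto (a : H 𝕜 →L[𝕜] H 𝕜) : Tendsto (blk a) atTop atTop :=
  (Classical.choose_spec (comm a)).1

theorem blk_comm (a : H 𝕜 →L[𝕜] H 𝕜) {u : ℕ → ℝ} (hu : Slow u) :
    M 𝕜 (u ∘ blk a) * a - a * M 𝕜 (u ∘ blk a) ∈ KI 𝕜 :=
  (Classical.choose_spec (comm a)).2 u hu

theorem comm_mem (a : H 𝕜 →L[𝕜] H 𝕜) {u v : ℕ → ℝ} (hu : Slow u) (hv : Slow v) :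
    (M 𝕜 (u ∘ blk a) * a) * (M 𝕜 (v ∘ blk a) * a) -
      (M 𝕜 (v ∘ blk a) * a) * (M 𝕜 (u ∘ blk a) * a) ∈ KI 𝕜 := by
  have hc : M 𝕜 (u ∘ blk a) * M 𝕜 (v ∘ blk a) = M 𝕜 (v ∘ blk a) * M 𝕜 (u ∘ blk a) := by
    rw [← M_mul (Bd.comp hu.1 _) (Bd.comp hv.1 _), ← M_mul (Bd.comp hv.1 _) (Bd.comp hu.1 _),
      mul_comm]
  have h1 : (M 𝕜 (u ∘ blk a) * a) * (M 𝕜 (v ∘ blk a) * a) -
      (M 𝕜 (v ∘ blk a) * a) * (M 𝕜 (u ∘ blk a) * a) =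
      M 𝕜 (v ∘ blk a) * (M 𝕜 (u ∘ blk a) * a - a * M 𝕜 (u ∘ blk a)) * a -
      M 𝕜 (u ∘ blk a) * (M 𝕜 (v ∘ blk a) * a - a * M 𝕜 (v ∘ blk a)) * a := by
    have h2 : M 𝕜 (v ∘ blk a) * (M 𝕜 (u ∘ blk a) * a - a * M 𝕜 (u ∘ blk a)) * a -
      M 𝕜 (u ∘ blk a) * (M 𝕜 (v ∘ blk a) * a - a * M 𝕜 (v ∘ blk a)) * a =
      (M 𝕜 (v ∘ blk a) * M 𝕜 (u ∘ blk a)) * a * a - M 𝕜 (v ∘ blk a) * a * M 𝕜 (u ∘ blk a) * a -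
      ((M 𝕜 (u ∘ blk a) * M 𝕜 (v ∘ blk a)) * a * a -
        M 𝕜 (u ∘ blk a) * a * M 𝕜 (v ∘ blk a) * a) := by
      noncomm_ring
    rw [h2, hc]
    noncomm_ring
  rw [h1]
  exact (KI 𝕜).sub_mem
    (Ideal.mul_mem_right _ _ ((KI 𝕜).mul_mem_left _ (blk_comm a hu)))
    (Ideal.mul_mem_right _ _ ((KI 𝕜).mul_mem_left _ (blk_comm a hv)))

/-- The homomorphism `φ` is trivial on compact perturbations of the identity. -/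
def Triv {G : Type*} [Group G] (φ : (H 𝕜 →L[𝕜] H 𝕜)ˣ →* G) : Prop :=
  ∀ g : (H 𝕜 →L[𝕜] H 𝕜)ˣ, ((g : H 𝕜 →L[𝕜] H 𝕜) - 1) ∈ KI 𝕜 → φ g = 1

theorem eq_of_sub {G : Type*} [Group G] {φ : (H 𝕜 →L[𝕜] H 𝕜)ˣ →* G} (hφ : Triv φ)
    {g h : (H 𝕜 →L[𝕜] H 𝕜)ˣ} (hgh : (g : H 𝕜 →L[𝕜] H 𝕜) - h ∈ KI 𝕜) : φ g = φ h := by
  have h1 : φ (g * h⁻¹) = 1 := by
    refine hφ _ ?_
    have h2 : ((g * h⁻¹ : (H 𝕜 →L[𝕜] H 𝕜)ˣ) : H 𝕜 →L[𝕜] H 𝕜) - 1 =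
        ((g : H 𝕜 →L[𝕜] H 𝕜) - h) * ((h⁻¹ : (H 𝕜 →L[𝕜] H 𝕜)ˣ) : H 𝕜 →L[𝕜] H 𝕜) := by
      rw [sub_mul, Units.val_mul, Units.mul_inv]
    rw [h2]
    exact Ideal.mul_mem_right _ _ hgh
  rw [map_mul, map_inv] at h1
  exact mul_inv_eq_one.1 h1

/-- the twisted exponentials -/
noncomputable def tw (a : H 𝕜 →L[𝕜] H 𝕜) (u : ℕ → ℝ) : (H 𝕜 →L[𝕜] H 𝕜)ˣ :=
  expU (M 𝕜 (u ∘ blk a) * a)

theorem tw_add {G : Type*} [Group G] {φ : (H 𝕜 →L[𝕜] H 𝕜)ˣ →* G} (hφ : Triv φ)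
    (a : H 𝕜 →L[𝕜] H 𝕜) {u v : ℕ → ℝ} (hu : Slow u) (hv : Slow v) :
    φ (tw a (u + v)) = φ (tw a u) * φ (tw a v) := by
  rw [← map_mul]
  refine eq_of_sub hφ ?_
  rw [Units.val_mul]
  change NormedSpace.exp (M 𝕜 ((u + v) ∘ blk a) * a) - NormedSpace.exp (M 𝕜 (u ∘ blk a) * a) *
    NormedSpace.exp (M 𝕜 (v ∘ blk a) * a) ∈ KI 𝕜
  have h1 : M 𝕜 ((u + v) ∘ blk a) = M 𝕜 (u ∘ blk a) + M 𝕜 (v ∘ blk a) :=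
    D_add 𝕜 (fun _ => 𝕜) 2 (Bd.comp hu.1 _) (Bd.comp hv.1 _)
  rw [h1, add_mul]
  exact exp_add_mem 𝕜 closed_KI (comm_mem a hu hv)

theorem tw_null {G : Type*} [Group G] {φ : (H 𝕜 →L[𝕜] H 𝕜)ˣ →* G} (hφ : Triv φ)
    (a : H 𝕜 →L[𝕜] H 𝕜) {u : ℕ → ℝ} (hu : Tendsto u atTop (𝓝 0)) : φ (tw a u) = 1 := by
  refine hφ _ ?_
  change NormedSpace.exp (M 𝕜 (u ∘ blk a) * a) - 1 ∈ KI 𝕜
  exact exp_sub_one_mem 𝕜 closed_KI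
    (Ideal.mul_mem_right _ _ (null_mem (hu.comp (blk_tendsto a))))

theorem tw_one (a : H 𝕜 →L[𝕜] H 𝕜) : tw a 1 = expU a := by
  have h1 : M 𝕜 ((1 : ℕ → ℝ) ∘ blk a) = 1 := D_one 𝕜 (fun _ => 𝕜) 2
  rw [tw, h1, one_mul]

open Pool.Agent.H685R3 Pool.Agent.TH774.TD

theorem main (a : H 𝕜 →L[𝕜] H 𝕜) {G : Type*} [Group G] {κ : G → ℕ → Bool}
    (hκ : Function.Injective κ) {φ : (H 𝕜 →L[𝕜] H 𝕜)ˣ →* G} (hφ : Triv φ) :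
    (∀ i, TuringInvariant {x | κ (φ (tw a (rho x))) i = true}) ∧
    ((∀ i, Determined {x | κ (φ (tw a (rho x))) i = true}) → φ (expU a) = 1) := by
  have h := Pool.Agent.H761J.TdSlow.core (H := Additive G) (κ := fun g => κ g.toMul)
    (fun g h hgh => hκ hgh) (fun u => Additive.ofMul (φ (tw a u)))
    (fun u v hu hv => congrArg Additive.ofMul (tw_add hφ a hu hv))
    (fun u hu => congrArg Additive.ofMul (tw_null hφ a hu))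
  refine ⟨h.1, fun hD => ?_⟩
  have h1 := h.2 hD
  rw [tw_one] at h1
  exact h1

theorem nhds_one : ∀ᶠ g : (H 𝕜 →L[𝕜] H 𝕜)ˣ in 𝓝 1, ∃ a, expU a = g := by
  have h1 := hasStrictFDerivAt_exp_zero (𝕂 := 𝕜) (𝔸 := H 𝕜 →L[𝕜] H 𝕜)
  have h2 := h1.map_nhds_eq_of_surj (LinearMap.range_eq_top.2 fun x => ⟨x, rfl⟩)
  rw [NormedSpace.exp_zero] at h2
  have h3 : ∀ᶠ y in 𝓝 (1 : H 𝕜 →L[𝕜] H 𝕜), ∃ a, NormedSpace.exp a = y := by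
    rw [← h2, eventually_map]
    exact Eventually.of_forall fun a => ⟨a, rfl⟩
  have h4 : Tendsto (fun g : (H 𝕜 →L[𝕜] H 𝕜)ˣ => (g : H 𝕜 →L[𝕜] H 𝕜)) (𝓝 1) (𝓝 1) :=
    Units.continuous_val.tendsto 1
  filter_upwards [h4.eventually h3] with g hg
  obtain ⟨a, ha⟩ := hg
  exact ⟨a, Units.ext ha⟩

theorem open_ker {G : Type*} [Group G] {φ : (H 𝕜 →L[𝕜] H 𝕜)ˣ →* G}
    (h : ∀ a, φ (expU a) = 1) : IsOpen (φ.ker : Set (H 𝕜 →L[𝕜] H 𝕜)ˣ) := by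
  refine φ.ker.isOpen_of_mem_nhds (g := 1) ?_
  filter_upwards [nhds_one] with g hg
  obtain ⟨a, rfl⟩ := hg
  exact h a

theorem comp_one {G : Type*} [Group G] {φ : (H 𝕜 →L[𝕜] H 𝕜)ˣ →* G}
    (h : ∀ a, φ (expU a) = 1) : ∀ g ∈ connectedComponent (1 : (H 𝕜 →L[𝕜] H 𝕜)ˣ), φ g = 1 := by
  have h1 := open_ker h
  have h2 : IsClopen (φ.ker : Set (H 𝕜 →L[𝕜] H 𝕜)ˣ) := ⟨φ.ker.isClosed_of_isOpen h1, h1⟩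
  exact fun g hg => h2.connectedComponent_subset φ.ker.one_mem hg

end Pool.Agent.H761J.TdUnits
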